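import Mathlib

/-!
# Averaging over circles of small radius
-/

set_option autoImplicit false

open MeasureTheory Set Filter Topology

namespace Pool.Agent.K3h70.EB

/-- The average of `g(y + ε cos t)` over `t ∈ [0, 2π]`. -/
noncomputable def T (ε : ℝ) (g : ℝ → ℝ) (y : ℝ) : ℝ :=
  (2 * Real.pi)⁻¹ * ∫ t in (0 : ℝ)..(2 * Real.pi), g (y + ε * Real.cos t)

/-- Lipschitz continuity with constant `L`. -/
def Lip1 (L : ℝ) (g : ℝ → ℝ) : Prop := ∀ y z, |g y - g z| ≤ L * |y - z|

lemma Lip1.continuous {L : ℝ} {g : ℝ → ℝ} (h : Lip1 L g) : Continuous g := by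
  have h0 : 0 ≤ L := by
    have := (abs_nonneg _).trans (h 1 0)
    simpa using this
  have : LipschitzWith ⟨L, h0⟩ g := LipschitzWith.of_dist_le_mul fun y z => by
    rw [Real.dist_eq, Real.dist_eq]; exact h y z
  exact this.continuous

lemma T_integrable {g : ℝ → ℝ} (hg : Continuous g) (ε y : ℝ) :
    IntervalIntegrable (fun t => g (y + ε * Real.cos t)) volume 0 (2 * Real.pi) :=
  (hg.comp (by fun_prop)).intervalIntegrable _ _

lemma T_const (ε c y : ℝ) : T ε (fun _ => c) y = c := by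
  unfold T
  simp only [intervalIntegral.integral_const, sub_zero, smul_eq_mul]
  field_simp

lemma T_add {g g' : ℝ → ℝ} (hg : Continuous g) (hg' : Continuous g') (ε y : ℝ) :
    T ε (fun z => g z + g' z) y = T ε g y + T ε g' y := by
  unfold T
  rw [intervalIntegral.integral_add (T_integrable hg ε y) (T_integrable hg' ε y)]
  ring

lemma T_mul (g : ℝ → ℝ) (ε c y : ℝ) : T ε (fun z => c * g z) y = c * T ε g y := by
  unfold T
  rw [intervalIntegral.integral_const_mul]
  ring

lemma T_mono {g g' : ℝ → ℝ} (hg : Continuous g) (hg' : Continuous g') (h : ∀ z, g z ≤ g' z)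
    (ε y : ℝ) : T ε g y ≤ T ε g' y := by
  unfold T
  have hpi : 0 < 2 * Real.pi := by positivity
  refine mul_le_mul_of_nonneg_left ?_ (by positivity)
  exact intervalIntegral.integral_mono hpi.le (T_integrable hg ε y) (T_integrable hg' ε y)
    (fun t => h _)

lemma T_abs_le {g : ℝ → ℝ} (hg : Continuous g) {B : ℝ} (h : ∀ z, |g z| ≤ B) (ε y : ℝ) :
    |T ε g y| ≤ B := by
  rw [abs_le]
  constructor
  · rw [← T_const ε (-B) y]
    exact T_mono continuous_const hg (fun z => (abs_le.1 (h z)).1) ε y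
  · rw [← T_const ε B y]
    exact T_mono hg continuous_const (fun z => (abs_le.1 (h z)).2) ε y

lemma T_lip {g : ℝ → ℝ} {L : ℝ} (h : Lip1 L g) (ε : ℝ) : Lip1 L (T ε g) := by
  intro y z
  have hg := h.continuous
  have hpi : 0 < 2 * Real.pi := by positivity
  have e : T ε g y - T ε g z = (2 * Real.pi)⁻¹ * ∫ t in (0 : ℝ)..(2 * Real.pi),
      (g (y + ε * Real.cos t) - g (z + ε * Real.cos t)) := by
    unfold T
    rw [intervalIntegral.integral_sub (T_integrable hg ε y) (T_integrable hg ε z)]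
    ring
  rw [e, abs_mul, abs_of_pos (by positivity)]
  have h1 := intervalIntegral.norm_integral_le_of_norm_le_const (a := 0) (b := 2 * Real.pi)
    (f := fun t => g (y + ε * Real.cos t) - g (z + ε * Real.cos t)) (C := L * |y - z|)
    (fun t _ => by
      have := h (y + ε * Real.cos t) (z + ε * Real.cos t)
      rwa [add_sub_add_right_eq_sub] at this)
  rw [sub_zero, abs_of_pos hpi, Real.norm_eq_abs] at h1
  calc (2 * Real.pi)⁻¹ * |∫ t in (0 : ℝ)..(2 * Real.pi),
      (g (y + ε * Real.cos t) - g (z + ε * Real.cos t))|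
      ≤ (2 * Real.pi)⁻¹ * (L * |y - z| * (2 * Real.pi)) := by gcongr
    _ = L * |y - z| := by field_simp

/-- The distance to the average. -/
lemma T_near {g : ℝ → ℝ} {L : ℝ} (h : Lip1 L g) {ε : ℝ} (hε : 0 ≤ ε) (y t : ℝ) :
    |g (y + ε * Real.cos t) - T ε g y| ≤ 2 * (L * ε) := by
  have hg := h.continuous
  have hL : 0 ≤ L := by
    have := (abs_nonneg _).trans (h 1 0)
    simpa using this
  have h1 : ∀ t, |g (y + ε * Real.cos t) - g y| ≤ L * ε := by
    intro t
    refine (h _ _).trans ?_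
    rw [add_sub_cancel_left, abs_mul, abs_of_nonneg hε]
    have := Real.abs_cos_le_one t
    have : ε * |Real.cos t| ≤ ε * 1 := by gcongr
    nlinarith
  have h2 : |T ε g y - g y| ≤ L * ε := by
    have hpi : 0 < 2 * Real.pi := by positivity
    have e : T ε g y - g y = (2 * Real.pi)⁻¹ * ∫ t in (0 : ℝ)..(2 * Real.pi),
        (g (y + ε * Real.cos t) - g y) := by
      unfold T
      rw [intervalIntegral.integral_sub (T_integrable hg ε y) intervalIntegrable_const,
        intervalIntegral.integral_const, sub_zero, smul_eq_mul]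
      field_simp
    rw [e, abs_mul, abs_of_pos (by positivity)]
    have h3 := intervalIntegral.norm_integral_le_of_norm_le_const (a := 0) (b := 2 * Real.pi)
      (f := fun t => g (y + ε * Real.cos t) - g y) (C := L * ε) (fun t _ => h1 t)
    rw [sub_zero, abs_of_pos hpi, Real.norm_eq_abs] at h3
    calc (2 * Real.pi)⁻¹ * |∫ t in (0 : ℝ)..(2 * Real.pi), (g (y + ε * Real.cos t) - g y)|
        ≤ (2 * Real.pi)⁻¹ * (L * ε * (2 * Real.pi)) := by gcongr
      _ = L * ε := by field_simp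
  have h4 : g (y + ε * Real.cos t) - T ε g y
      = (g (y + ε * Real.cos t) - g y) - (T ε g y - g y) := by ring
  rw [h4]
  refine (abs_sub _ _).trans ?_
  have := h1 t
  linarith

/-- Symmetry. -/
lemma T_neg (g : ℝ → ℝ) (ε y : ℝ) : T ε (fun z => g (-z)) y = T ε g (-y) := by
  unfold T
  congr 1
  have h1 : ∀ t, g (-(y + ε * Real.cos t)) = (fun t => g (-y + ε * Real.cos t)) (t + Real.pi) := by
    intro t
    simp only [Real.cos_add_pi]
    congr 1
    ring
  simp only [h1]
  rw [intervalIntegral.integral_comp_add_right (fun t => g (-y + ε * Real.cos t)) Real.pi]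
  have hper : Function.Periodic (fun t => g (-y + ε * Real.cos t)) (2 * Real.pi) := by
    intro t
    simp only [Real.cos_add_two_pi]
  rw [zero_add, add_comm (2 * Real.pi) Real.pi, hper.intervalIntegral_add_eq Real.pi 0, zero_add]

/-! ### iterates -/

/-- The iterated average. -/
noncomputable def Ti (ε : ℝ) (n : ℕ) (g : ℝ → ℝ) : ℝ → ℝ := (T ε)^[n] g

lemma Ti_zero (ε : ℝ) (g : ℝ → ℝ) : Ti ε 0 g = g := rfl

lemma Ti_succ (ε : ℝ) (n : ℕ) (g : ℝ → ℝ) : Ti ε (n + 1) g = T ε (Ti ε n g) := by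
  unfold Ti
  rw [Function.iterate_succ_apply']

lemma Ti_lip {g : ℝ → ℝ} {L : ℝ} (h : Lip1 L g) (ε : ℝ) (n : ℕ) : Lip1 L (Ti ε n g) := by
  induction n with
  | zero => exact h
  | succ n ih => rw [Ti_succ]; exact T_lip ih ε

lemma Ti_abs_le {g : ℝ → ℝ} {L : ℝ} (hL : Lip1 L g) {B : ℝ} (h : ∀ z, |g z| ≤ B) (ε : ℝ) (n : ℕ)
    (y : ℝ) : |Ti ε n g y| ≤ B := by
  induction n generalizing y with
  | zero => exact h y
  | succ n ih => rw [Ti_succ]; exact T_abs_le (Ti_lip hL ε n).continuous ih ε y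

lemma Ti_neg (g : ℝ → ℝ) (ε : ℝ) (n : ℕ) (y : ℝ) :
    Ti ε n (fun z => g (-z)) y = Ti ε n g (-y) := by
  induction n generalizing y with
  | zero => rfl
  | succ n ih =>
    rw [Ti_succ, Ti_succ, ← T_neg]
    congr 1
    funext z
    exact ih z

lemma integral_cos_even : (∫ t in (0 : ℝ)..(2 * Real.pi), Real.cos t ^ 2) = Real.pi ∧
    (∫ t in (0 : ℝ)..(2 * Real.pi), Real.cos t ^ 4) = 3 / 4 * Real.pi ∧
    (∫ t in (0 : ℝ)..(2 * Real.pi), Real.cos t) = 0 ∧
    (∫ t in (0 : ℝ)..(2 * Real.pi), Real.cos t ^ 3) = 0 := by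
  have h1 : (∫ t in (0 : ℝ)..(2 * Real.pi), Real.cos t) = 0 := by simp
  have h2 : (∫ t in (0 : ℝ)..(2 * Real.pi), Real.cos t ^ 2) = Real.pi := by
    rw [integral_cos_sq]; simp
  refine ⟨h2, ?_, h1, ?_⟩
  · have := integral_cos_pow (a := 0) (b := 2 * Real.pi) 2
    norm_num at this
    exact this
  · rw [integral_cos_pow_three]
    simp

/-- The action on even quartic polynomials. -/
lemma T_poly (ε a b c y : ℝ) : T ε (fun z => a + b * z ^ 2 + c * z ^ 4) y
    = (a + b * ε ^ 2 / 2 + c * (3 / 8 * ε ^ 4)) + (b + 3 * c * ε ^ 2) * y ^ 2 + c * y ^ 4 := by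
  obtain ⟨h2, h4, h1, h3⟩ := integral_cos_even
  unfold T
  have e : ∀ t, a + b * (y + ε * Real.cos t) ^ 2 + c * (y + ε * Real.cos t) ^ 4
      = (a + b * y ^ 2 + c * y ^ 4) + (2 * b * y * ε + 4 * c * y ^ 3 * ε) * Real.cos t
        + (b * ε ^ 2 + 6 * c * y ^ 2 * ε ^ 2) * Real.cos t ^ 2
        + (4 * c * y * ε ^ 3) * Real.cos t ^ 3 + (c * ε ^ 4) * Real.cos t ^ 4 := by
    intro t; ring
  simp only [e]
  have c1 : Continuous fun t : ℝ => (a + b * y ^ 2 + c * y ^ 4) := by fun_prop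
  rw [intervalIntegral.integral_add, intervalIntegral.integral_add, intervalIntegral.integral_add,
    intervalIntegral.integral_add, intervalIntegral.integral_const_mul,
    intervalIntegral.integral_const_mul, intervalIntegral.integral_const_mul,
    intervalIntegral.integral_const_mul, h1, h2, h3, h4, intervalIntegral.integral_const]
  · simp only [sub_zero, smul_eq_mul]
    have hpi : Real.pi ≠ 0 := Real.pi_ne_zero
    field_simp
    ring
  all_goals
    apply Continuous.intervalIntegrable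
    fun_prop

lemma Ti_poly (ε : ℝ) (n : ℕ) (y : ℝ) :
    Ti ε n (fun z => -1 / 16 + 1 * z ^ 2 + (-1 / 12) * z ^ 4) y
      = (-1 / 16 + n * ε ^ 2 / 2 - ε ^ 4 * n * (n - 1) / 16 - n * ε ^ 4 / 32)
        + (1 - n * ε ^ 2 / 4) * y ^ 2 + (-1 / 12) * y ^ 4 := by
  induction n generalizing y with
  | zero => rw [Ti_zero]; simp
  | succ n ih =>
    rw [Ti_succ, show Ti ε n (fun z => -1 / 16 + 1 * z ^ 2 + (-1 / 12) * z ^ 4)
      = fun y => (-1 / 16 + n * ε ^ 2 / 2 - ε ^ 4 * n * (n - 1) / 16 - n * ε ^ 4 / 32)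
        + (1 - n * ε ^ 2 / 4) * y ^ 2 + (-1 / 12) * y ^ 4 from funext ih, T_poly]
    push_cast
    ring

lemma Ti_mono {g g' : ℝ → ℝ} {L : ℝ} (hg : Lip1 L g)
    (hp : ∀ n ε, Continuous (Ti ε n g')) (h : ∀ z, g' z ≤ g z)
    (ε : ℝ) (n : ℕ) (y : ℝ) : Ti ε n g' y ≤ Ti ε n g y := by
  induction n generalizing y with
  | zero => exact h y
  | succ n ih =>
    rw [Ti_succ, Ti_succ]
    exact T_mono (hp n ε) (Ti_lip hg ε n).continuous ih ε y

/-! ### the profile -/

/-- The profile. -/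
noncomputable def S : ℝ → ℝ := Real.smoothTransition

lemma S_lip : ∃ L, 0 ≤ L ∧ Lip1 L S := by
  have hc : ContDiff ℝ 1 S := Real.smoothTransition.contDiff
  have hd : Continuous (deriv S) := hc.continuous_deriv le_rfl
  have hz : ∀ y, y ∉ Icc (0 : ℝ) 1 → deriv S y = 0 := by
    intro y hy
    rcases not_and_or.1 hy with h | h
    · push Not at h
      have : S =ᶠ[𝓝 y] fun _ => 0 := by
        filter_upwards [Iio_mem_nhds h] with z hz
        exact Real.smoothTransition.zero_of_nonpos hz.le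
      rw [this.deriv_eq, deriv_const]
    · push Not at h
      have : S =ᶠ[𝓝 y] fun _ => 1 := by
        filter_upwards [Ioi_mem_nhds h] with z hz
        exact Real.smoothTransition.one_of_one_le hz.le
      rw [this.deriv_eq, deriv_const]
  have hs : HasCompactSupport (deriv S) := HasCompactSupport.intro isCompact_Icc hz
  obtain ⟨C, hC⟩ := hs.exists_bound_of_continuous hd
  have hC0 : 0 ≤ C := (norm_nonneg _).trans (hC 0)
  refine ⟨C, hC0, fun y z => ?_⟩
  have := Convex.norm_image_sub_le_of_norm_deriv_le (f := S) (s := univ) (C := C)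
    (fun x _ => (hc.differentiable one_ne_zero) x) (fun x _ => hC x) convex_univ (mem_univ z)
    (mem_univ y)
  simpa [Real.norm_eq_abs] using this

lemma S_nonneg (y : ℝ) : 0 ≤ S y := Real.smoothTransition.nonneg y

lemma S_le_one (y : ℝ) : S y ≤ 1 := Real.smoothTransition.le_one y

lemma S_mul_neg (y : ℝ) : S y = 0 ∨ S (-y) = 0 := by
  rcases le_total y 0 with h | h
  · left; exact Real.smoothTransition.zero_of_nonpos h
  · right; exact Real.smoothTransition.zero_of_nonpos (by linarith)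

lemma S_lower : ∀ y, S (1 / 4) / 3 * (-1 / 16 + 1 * y ^ 2 + (-1 / 12) * y ^ 4)
    ≤ S y + S (-y) := by
  intro y
  have hs : 0 < S (1 / 4) := Real.smoothTransition.pos_of_pos (by norm_num)
  have h1 := S_nonneg y
  have h2 := S_nonneg (-y)
  by_cases hy : |y| ≤ 1 / 4
  · have h3 : y ^ 2 ≤ 1 / 16 := by
      rw [← sq_abs]
      nlinarith [abs_nonneg y]
    have h4 : -1 / 16 + 1 * y ^ 2 + (-1 / 12) * y ^ 4 ≤ 0 := by nlinarith [sq_nonneg (y ^ 2)]
    nlinarith
  · push Not at hy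
    have h3 : S (1 / 4) ≤ S y + S (-y) := by
      rcases le_total 0 y with h | h
      · rw [abs_of_nonneg h] at hy
        have : S (1 / 4) ≤ S y := Real.smoothTransition.monotone hy.le
        linarith
      · rw [abs_of_nonpos h] at hy
        have : S (1 / 4) ≤ S (-y) := Real.smoothTransition.monotone hy.le
        linarith
    have h4 : -1 / 16 + 1 * y ^ 2 + (-1 / 12) * y ^ 4 ≤ 3 := by nlinarith [sq_nonneg (y ^ 2 - 6)]
    nlinarith

/-- The mean values of `S(± ∑ ε cos)` are bounded below. -/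
theorem kappa_lower {n : ℕ} (hn : 0 < n) :
    S (1 / 4) / 16 ≤ Ti (1 / √n) n S 0 ∧ Ti (1 / √n) n (fun z => S (-z)) 0 = Ti (1 / √n) n S 0 := by
  obtain ⟨L, hL0, hL⟩ := S_lip
  have hs : 0 < S (1 / 4) := Real.smoothTransition.pos_of_pos (by norm_num)
  have hL' : Lip1 L (fun z => S (-z)) := by
    intro y z
    refine (hL _ _).trans (le_of_eq ?_)
    congr 1
    rw [← abs_neg]
    congr 1
    ring
  have e1 : Ti (1 / √n) n (fun z => S (-z)) 0 = Ti (1 / √n) n S 0 := by rw [Ti_neg, neg_zero]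
  refine ⟨?_, e1⟩
  set ε : ℝ := 1 / √n with hε
  have hn' : (0 : ℝ) < n := by exact_mod_cast hn
  have hε2 : ε ^ 2 = 1 / n := by rw [hε, div_pow, one_pow, Real.sq_sqrt hn'.le]
  -- the sum
  have hsum : ∀ (m : ℕ) y, Ti ε m (fun z => S z + S (-z)) y
      = Ti ε m S y + Ti ε m (fun z => S (-z)) y := by
    intro m
    induction m with
    | zero => intro y; rfl
    | succ m ih =>
      intro y
      rw [Ti_succ, Ti_succ, Ti_succ, ← T_add (Ti_lip hL ε m).continuous (Ti_lip hL' ε m).continuous]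
      congr 1
      funext z
      exact ih z
  have hLs : Lip1 (2 * L) (fun z => S z + S (-z)) := by
    intro y z
    have h1 := hL y z
    have h2 := hL' y z
    have e : S y + S (-y) - (S z + S (-z)) = (S y - S z) + (S (-y) - S (-z)) := by ring
    simp only [e]
    refine (abs_add_le _ _).trans ?_
    linarith
  set c := S (1 / 4) / 3 with hc
  have hpoly : ∀ (m : ℕ) ε y, Ti ε m (fun z => c * (-1 / 16 + 1 * z ^ 2 + (-1 / 12) * z ^ 4)) y
      = c * Ti ε m (fun z => -1 / 16 + 1 * z ^ 2 + (-1 / 12) * z ^ 4) y := by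
    intro m ε
    induction m with
    | zero => intro y; rfl
    | succ m ih =>
      intro y
      rw [Ti_succ, Ti_succ, ← T_mul]
      congr 1
      funext z
      exact ih z
  have hcont : ∀ (m : ℕ) ε, Continuous
      (Ti ε m (fun z => c * (-1 / 16 + 1 * z ^ 2 + (-1 / 12) * z ^ 4))) := by
    intro m ε
    have : Ti ε m (fun z => c * (-1 / 16 + 1 * z ^ 2 + (-1 / 12) * z ^ 4))
        = fun y => c * ((-1 / 16 + m * ε ^ 2 / 2 - ε ^ 4 * m * (m - 1) / 16 - m * ε ^ 4 / 32)
        + (1 - m * ε ^ 2 / 4) * y ^ 2 + (-1 / 12) * y ^ 4) := by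
      funext y
      rw [hpoly, Ti_poly]
    rw [this]
    fun_prop
  have h1 := Ti_mono hLs (g' := fun z => c * (-1 / 16 + 1 * z ^ 2 + (-1 / 12) * z ^ 4))
    hcont S_lower ε n 0
  rw [hsum, e1, hpoly, Ti_poly] at h1
  have hε4 : ε ^ 4 = 1 / (n : ℝ) ^ 2 := by
    rw [show ε ^ 4 = (ε ^ 2) ^ 2 by ring, hε2]; ring
  rw [hε4, hε2] at h1
  have h2 : (-1 / 16 + (n : ℝ) * (1 / n) / 2 - 1 / (n : ℝ) ^ 2 * n * (n - 1) / 16
      - n * (1 / (n : ℝ) ^ 2) / 32) + (1 - n * (1 / (n : ℝ)) / 4) * 0 ^ 2 + (-1 / 12) * 0 ^ 4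
      = 3 / 8 + 1 / (32 * n) := by
    field_simp
    ring
  rw [h2] at h1
  have h3 : 0 < 1 / (32 * (n : ℝ)) := by positivity
  have h4 : 0 < c := by positivity
  have h5 : c * (3 / 8) ≤ c * (3 / 8 + 1 / (32 * n)) := by nlinarith
  linarith

end Pool.Agent.K3h70.EB
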