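import Pool.Agent.H708R2.EulerModes.Defs

/-!
# Definitions: Besov norms of periodic vector fields, data of class `H^m`
-/

set_option autoImplicit false

open MeasureTheory Set
open scoped ENNReal SchwartzMap

namespace Pool.Agent.K3h70.EB

open Pool.Agent.H708R2.EulerSign Pool.Agent.H708R2.EulerModes

/-- The Fourier transform `∫ ρ(y) exp(-i ξ·y) dy` of the function `ρ` on `ℝ³`. -/
noncomputable def ft (ρ : V → ℝ) (ξ : V) : ℂ :=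
  ∫ y, (ρ y : ℂ) * Complex.exp (-Complex.I * ((∑ i, ξ i * y i : ℝ) : ℂ))

/-- The convolution of the field `w` with the kernel `δ⁻³ ρ(·/δ)`, i.e. `∫ ρ(y) w(x - δ y) dy`. -/
noncomputable def conv (ρ : V → ℝ) (δ : ℝ) (w : V → V) (x : V) : V := ∫ y, ρ y • w (x - δ • y)

/-- A pair of kernels for the definition of the inhomogeneous Besov norms: `∫ ψ = 0`, and
`|χ̂(k)|² + ∑_(q ≥ 0) |ψ̂(2^(-q) k)|² ≥ c > 0` for all frequencies `k ∈ ℤ³`. -/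
def IsLPPair (χ ψ : 𝓢(V, ℝ)) : Prop :=
  ∫ y, ψ y = 0 ∧ ∃ c : ℝ, 0 < c ∧ ∀ k : Fin 3 → ℤ, ∃ Q : ℕ,
    c ≤ ‖ft χ (fun i => (k i : ℝ))‖ ^ 2
      + ∑ q ∈ Finset.range Q, ‖ft ψ (fun i => (1 / 2) ^ q * (k i : ℝ))‖ ^ 2

/-- The norm of `w` in `B⁰_(∞,r)(𝕋³)` given by the pair of kernels:
`(‖χ * w‖_∞^r + ∑_(q ≥ 0) ‖ψ_q * w‖_∞^r)^(1/r)`, where `ψ_q(y) = 2^(3q) ψ(2^q y)`. -/
noncomputable def besov (χ ψ : 𝓢(V, ℝ)) (r : ℝ) (w : V → V) : ℝ≥0∞ :=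
  ((⨆ x, ‖conv χ 1 w x‖ₑ) ^ r + ∑' q : ℕ, (⨆ x, ‖conv ψ ((1 / 2) ^ q) w x‖ₑ) ^ r) ^ (1 / r)

/-- The Fourier coefficient `(2π)⁻³ ∫ g(x) exp(-i k·x) dx` of `g` on `𝕋³ = [-π, π]³`. -/
noncomputable def coeff (g : V → ℝ) (k : Fin 3 → ℤ) : ℂ :=
  (∫ x in cube, (g x : ℂ) * Complex.exp (-Complex.I * (ph k x : ℂ))) / (2 * Real.pi) ^ 3

/-- Divergence-free fields of class `H^m` on `𝕋³` (for `m ≥ 2` all elements of `H^m` have a
continuous representative): `u` is continuous, `2π`-periodic, its divergence vanishes in the sense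
of distributions, and `∑_k (1 + |k|²)^m |û(k)|² < ∞`. -/
structure IsHm (m : ℕ) (u : V → V) : Prop where
  cont : Continuous u
  per : Periodic3 u
  div_free : WeakDivFree u
  sobolev : ∃ B : ℝ, ∀ F : Finset (Fin 3 → ℤ),
    ∑ k ∈ F, (1 + ∑ j, (k j : ℝ) ^ 2) ^ m * ∑ i, ‖coeff (fun x => u x i) k‖ ^ 2 ≤ B

end Pool.Agent.K3h70.EB
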