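import Pool.Agent.K3h70.EB.Pair
import Pool.Agent.H708R2.EulerModes.Dirs

/-!
# Families of functions with mutually disjoint supports
-/

set_option autoImplicit false

open MeasureTheory Set Filter Topology
open scoped ENNReal ContDiff

namespace Pool.Agent.K3h70.EB

open Pool.Agent.H708R2.EulerSign (V Periodic3 Dom dom_lt_top dom_meas)
open Pool.Agent.H708R2.EulerModes (ph ph_add ph_smul ph_contDiff rv ph_single integral_translate)

/-- Two integer vectors are orthogonal to some nonzero integer vector. -/
lemma exists_orth (a b : Fin 3 → ℤ) :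
    ∃ θ : Fin 3 → ℤ, θ ≠ 0 ∧ ph θ (rv a) = 0 ∧ ph θ (rv b) = 0 := by
  have hdep : ¬ LinearIndependent ℤ (fun i : Fin 3 => (![a i, b i] : Fin 2 → ℤ)) := by
    intro h
    have := h.fintype_card_le_finrank
    simp at this
  rw [Fintype.not_linearIndependent_iff] at hdep
  obtain ⟨g, hg, l, hl⟩ := hdep
  refine ⟨g, fun h => hl (congrFun h l), ?_, ?_⟩
  · have h0 := congrFun hg 0
    simp only [Finset.sum_apply, Pi.smul_apply, Matrix.cons_val_zero, smul_eq_mul,
      Pi.zero_apply] at h0
    unfold ph rv
    exact_mod_cast h0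
  · have h0 := congrFun hg 1
    simp only [Finset.sum_apply, Pi.smul_apply, Matrix.cons_val_one, Matrix.cons_val_zero,
      smul_eq_mul, Pi.zero_apply] at h0
    unfold ph rv
    exact_mod_cast h0

/-- Smooth periodic functions are bounded and Lipschitz continuous. -/
lemma bounds_of_periodic {f : V → ℝ} (hf : ContDiff ℝ 1 f) (hp : Periodic3 f) :
    ∃ C, 0 ≤ C ∧ (∀ x, |f x| ≤ C) ∧ ∀ x y, |f x - f y| ≤ C * ‖x - y‖ := by
  obtain ⟨C₁, h1, h1'⟩ := hp.bounded hf.continuous
  obtain ⟨C₂, h2, h2'⟩ := (hp.fderiv).bounded (hf.continuous_fderiv one_ne_zero)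
  refine ⟨max C₁ C₂, le_max_of_le_left h1, fun x => (h1' x).trans (le_max_left _ _),
    fun x y => ?_⟩
  have := Convex.norm_image_sub_le_of_norm_fderiv_le (𝕜 := ℝ) (f := f) (s := univ)
    (C := max C₁ C₂) (fun x _ => (hf.differentiable one_ne_zero) x)
    (fun x _ => (h2' x).trans (le_max_right _ _)) convex_univ (mem_univ y) (mem_univ x)
  simpa [Real.norm_eq_abs] using this

lemma common_bounds {ι : Type*} [Fintype ι] {f : ι → V → ℝ} (hf : ∀ j, ContDiff ℝ 1 (f j))
    (hp : ∀ j, Periodic3 (f j)) :
    ∃ C, 0 ≤ C ∧ (∀ j x, |f j x| ≤ C) ∧ ∀ j x y, |f j x - f j y| ≤ C * ‖x - y‖ := by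
  choose C hC0 hC1 hC2 using fun j => bounds_of_periodic (hf j) (hp j)
  have hle : ∀ j, C j ≤ ∑ i, C i := fun j =>
    Finset.single_le_sum (f := C) (fun i _ => hC0 i) (Finset.mem_univ j)
  refine ⟨∑ i, C i, Finset.sum_nonneg fun i _ => hC0 i, fun j x => (hC1 j x).trans (hle j),
    fun j x y => (hC2 j x y).trans ?_⟩
  gcongr
  exact hle j

lemma Periodic3.mul {f g : V → ℝ} (hf : Periodic3 f) (hg : Periodic3 g) :
    Periodic3 (fun x => f x * g x) := fun i x => by simp only; rw [hf i x, hg i x]

variable {M r : ℝ}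

/-- The properties of the families. -/
structure Fam {ι : Type} (M r : ℝ) (n₀ : ℕ) (ξ : ι → Fin 3 → ℤ) (f : ι → V → ℝ)
    (P : Finset (ι × ι)) (η : ℝ) (E : ι → V → ℝ) : Prop where
  smooth : ∀ j, ContDiff ℝ ∞ (E j)
  per : ∀ j, Periodic3 (E j)
  fine : ∀ j (i : Fin 3) (x : V), E j (x + Pi.single i (2 * Real.pi / 2 ^ n₀)) = E j x
  nonneg : ∀ j x, 0 ≤ E j x
  inv : ∀ j (x : V) (s : ℝ), E j (x + s • rv (ξ j)) = E j x
  disj : ∀ p ∈ P, ∀ x, E p.1 x = 0 ∨ E p.2 x = 0
  small : ∀ j, SmallM M r η (fun x => f j x * (E j x - 1))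
  small1 : ∀ j, SmallM M r η (fun x => E j x - 1)

theorem exists_fam {ι : Type} [Fintype ι] [DecidableEq ι] (hM : 0 ≤ M) (hr : 2 < r) (n₀ : ℕ) (ξ : ι → Fin 3 → ℤ) {f : ι → V → ℝ}
    (hf : ∀ j, ContDiff ℝ ∞ (f j)) (hfp : ∀ j, Periodic3 (f j)) (P : Finset (ι × ι))
    (hP : ∀ p ∈ P, p.1 ≠ p.2) :
    ∀ η : ℝ, 0 < η → ∃ E : ι → V → ℝ, Fam M r n₀ ξ f P η E := by
  induction P using Finset.induction_on with
  | empty =>
    intro η hη
    refine ⟨fun _ _ => 1, fun _ => contDiff_const, fun _ _ _ => rfl, fun _ _ _ => rfl,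
      fun _ _ => zero_le_one, fun _ _ _ => rfl, fun p hp => absurd hp (Finset.notMem_empty p),
      fun j => ?_, fun j => ?_⟩
    · simp only [sub_self, mul_zero]
      exact (SmallM.zero (by linarith)).mono (by linarith) hη.le
    · simp only [sub_self]
      exact (SmallM.zero (by linarith)).mono (by linarith) hη.le
  | insert p P hpP ih =>
    intro η hη
    obtain ⟨E, hE⟩ := ih (fun p hp => hP p (Finset.mem_insert_of_mem hp)) (η / 2) (by positivity)
    obtain ⟨j, l⟩ := p
    have hjl : j ≠ l := hP (j, l) (Finset.mem_insert_self _ _)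
    obtain ⟨θ, hθ, hθj, hθl⟩ := exists_orth (ξ j) (ξ l)
    -- common bounds
    have hEs : ∀ i, ContDiff ℝ 1 (E i) := fun i => (hE.smooth i).of_le (by exact_mod_cast le_top)
    have hfs : ∀ i, ContDiff ℝ 1 (f i) := fun i => (hf i).of_le (by exact_mod_cast le_top)
    obtain ⟨C₁, hC₁, b1, l1⟩ := common_bounds (f := fun i x => f i x * E i x)
      (fun i => (hfs i).mul (hEs i)) (fun i => Periodic3.mul (hfp i) (hE.per i))
    obtain ⟨C₂, hC₂, b2, l2⟩ := common_bounds hEs hE.per
    set C := max C₁ C₂ with hC
    have hC0 : 0 ≤ C := le_max_of_le_left hC₁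
    obtain ⟨G, g1, g2, g3, g4, g5⟩ := pair_step hM hr hθ hC0 hC0 n₀
      (η := η / 2) (by positivity)
    -- the factors
    set γ : ι → V → ℝ := fun i x => if i = j then G true (ph θ x) else
      if i = l then G false (ph θ x) else 1 with hγ
    have hphs : ContDiff ℝ ∞ (ph θ) := ph_contDiff θ
    have γs : ∀ i, ContDiff ℝ ∞ (γ i) := by
      intro i
      by_cases h1 : i = j
      · simp only [hγ, h1, if_true]
        exact (g1 true).comp hphs
      · by_cases h2 : i = l
        · simp only [hγ, h2, hjl.symm, if_false, if_true]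
          exact (g1 false).comp hphs
        · simp only [hγ, h1, h2, if_false]
          exact contDiff_const
    have Gper : ∀ b (i : Fin 3) x, G b (ph θ (x + Pi.single i (2 * Real.pi)))
        = G b (ph θ x) := by
      intro b i x
      rw [ph_add, ph_single]
      have : (θ i : ℝ) * (2 * Real.pi) = ((θ i * 2 ^ n₀ : ℤ) : ℝ) * (2 * Real.pi / 2 ^ n₀) := by
        push_cast
        field_simp
      rw [this, g4]
    have Gfine : ∀ b (i : Fin 3) x, G b (ph θ (x + Pi.single i (2 * Real.pi / 2 ^ n₀)))
        = G b (ph θ x) := by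
      intro b i x
      rw [ph_add, ph_single, g4]
    have Ginv : ∀ b (v : V), ph θ v = 0 → ∀ (x : V) (s : ℝ), G b (ph θ (x + s • v))
        = G b (ph θ x) := by
      intro b v hv x s
      rw [ph_add, ph_smul, hv, mul_zero, add_zero]
    have key : ∀ i (F : V → ℝ), Continuous F → (∀ x, |F x| ≤ C) →
        (∀ x y, |F x - F y| ≤ C * ‖x - y‖) → Periodic3 F →
        SmallM M r (η / 2) (fun x => F x * (γ i x - 1)) := by
      intro i F hF hB hL hp
      by_cases h1 : i = j
      · simp only [hγ, h1, if_true]
        exact g5 true F hF hB hL hp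
      · by_cases h2 : i = l
        · simp only [hγ, h2, hjl.symm, if_false, if_true]
          exact g5 false F hF hB hL hp
        · simp only [hγ, h1, h2, if_false, sub_self, mul_zero]
          exact (SmallM.zero (by linarith)).mono (by linarith) (by positivity)
    have bdc : ∀ {g : V → ℝ}, ContDiff ℝ ∞ g → Periodic3 g → Bdc g := by
      intro g hg hp
      obtain ⟨C', -, h⟩ := hp.bounded hg.continuous
      exact ⟨hg.continuous, C', h⟩
    have γp : ∀ i, Periodic3 (γ i) := by
      intro i k x
      simp only [hγ]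
      rw [Gper, Gper]
    refine ⟨fun i x => E i x * γ i x, fun i => (hE.smooth i).mul (γs i),
      fun i => Periodic3.mul (hE.per i) (γp i), fun i k x => ?_, fun i x => ?_, fun i x s => ?_,
      fun q hq x => ?_, fun i => ?_, fun i => ?_⟩
    · simp only [hγ]
      rw [Gfine, Gfine, hE.fine i k x]
    · refine mul_nonneg (hE.nonneg i x) ?_
      simp only [hγ]
      split_ifs
      · exact g2 _ _
      · exact g2 _ _
      · exact zero_le_one
    · rw [hE.inv i x s]
      congr 1
      simp only [hγ]
      by_cases h1 : i = j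
      · simp only [h1, if_true]
        exact Ginv true _ hθj x s
      · by_cases h2 : i = l
        · simp only [h2, hjl.symm, if_false, if_true]
          exact Ginv false _ hθl x s
        · simp only [h1, h2, if_false]
    · rw [Finset.mem_insert] at hq
      rcases hq with rfl | hq
      · rcases g3 (ph θ x) with h | h
        · left
          simp [hγ, h]
        · right
          simp [hγ, hjl.symm, h]
      · rcases hE.disj q hq x with h | h
        · left; simp [h]
        · right; simp [h]
    · have e : (fun x => f i x * (E i x * γ i x - 1))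
          = fun x => f i x * (E i x - 1) + (f i x * E i x) * (γ i x - 1) := by
        funext x; ring
      rw [e]
      have := SmallM.add (by linarith : 1 ≤ r)
        (bdc ((hf i).mul ((hE.smooth i).sub contDiff_const))
          (Periodic3.mul (hfp i) fun k x => by rw [hE.per i k x]))
        (bdc (((hf i).mul (hE.smooth i)).mul ((γs i).sub contDiff_const))
          (Periodic3.mul (Periodic3.mul (hfp i) (hE.per i)) fun k x => by rw [γp i k x]))
        (hE.small i) (key i (fun x => f i x * E i x) ((hfs i).mul (hEs i)).continuous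
          (fun x => (b1 i x).trans (le_max_left _ _))
          (fun x y => (l1 i x y).trans (by gcongr; exact le_max_left _ _))
          (Periodic3.mul (hfp i) (hE.per i)))
      rwa [add_halves] at this
    · have e : (fun x => E i x * γ i x - 1)
          = fun x => (E i x - 1) + E i x * (γ i x - 1) := by
        funext x; ring
      rw [e]
      have := SmallM.add (by linarith : 1 ≤ r)
        (bdc ((hE.smooth i).sub contDiff_const) fun k x => by rw [hE.per i k x])
        (bdc ((hE.smooth i).mul ((γs i).sub contDiff_const))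
          (Periodic3.mul (hE.per i) fun k x => by rw [γp i k x]))
        (hE.small1 i) (key i (E i) (hEs i).continuous
          (fun x => (b2 i x).trans (le_max_right _ _))
          (fun x y => (l2 i x y).trans (by gcongr; exact le_max_right _ _)) (hE.per i))
      rwa [add_halves] at this

end Pool.Agent.K3h70.EB
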