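import Pool.Agent.K3h70.EB.Family
import Pool.Agent.H708R2.EulerModes.Main

/-!
# Steady pressureless flows near a trigonometric polynomial
-/

set_option autoImplicit false

open MeasureTheory Set Filter Topology
open scoped ENNReal ContDiff

namespace Pool.Agent.K3h70.EB

open Pool.Agent.H708R2.EulerSign
open Pool.Agent.H708R2.EulerModes

/-- The Fourier modes of a superposition of modulated flows with fine weights. -/
theorem modes_of_fine {K N : ℕ} (hN : 2 * K < N) (A B : (Fin 3 → ℤ) → V)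
    (hAs : ∀ k ∈ Bx K, A (-k) = A k) (hBs : ∀ k ∈ Bx K, B (-k) = -B k)
    (ξ : (Fin 3 → ℤ) → Fin 3 → (Fin 3 → ℤ)) (a b : (Fin 3 → ℤ) → Fin 3 → ℝ)
    (ha : ∀ k ∈ Bx K, A k = ∑ i, a k i • rv (ξ k i))
    (hb : ∀ k ∈ Bx K, B k = ∑ i, b k i • rv (ξ k i))
    (ψ : {k // k ∈ Bx K} × Fin 3 → V → ℝ) (hψ : ∀ j, Fine N (ψ j)) :
    ∀ l ∈ Bx K, ∀ i,
      ∫ x in Dom, (∑ j : {k // k ∈ Bx K} × Fin 3, ((volume Dom).toReal⁻¹ *
        ((a j.1 j.2 * Real.cos (ph j.1 x) + b j.1 j.2 * Real.sin (ph j.1 x)) * ψ j x))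
          • rv (ξ j.1 j.2)) i * Real.cos (ph l x) = A l i ∧
      ∫ x in Dom, (∑ j : {k // k ∈ Bx K} × Fin 3, ((volume Dom).toReal⁻¹ *
        ((a j.1 j.2 * Real.cos (ph j.1 x) + b j.1 j.2 * Real.sin (ph j.1 x)) * ψ j x))
          • rv (ξ j.1 j.2)) i * Real.sin (ph l x) = B l i := by
  classical
  let ι := {k // k ∈ Bx K} × Fin 3
  set vol : ℝ := (volume Dom).toReal with hvol
  have hvol0 : 0 < vol := vol_pos
  let f : ι → V → ℝ := fun j x => a j.1 j.2 * Real.cos (ph j.1 x) + b j.1 j.2 * Real.sin (ph j.1 x)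
  let F : ι → V → ℝ := fun j x => vol⁻¹ * (f j x * ψ j x)
  have hint1 : ∀ (j : ι) (g : V → ℝ), Continuous g → Periodic3 g →
      IntegrableOn (fun x => ψ j x * g x) Dom := by
    intro j g hg hgp
    refine H708R2.EulerSign.Periodic3.integrableOn ?_ ((hψ j).cont.mul hg)
    intro i x
    simp only
    rw [(hψ j).per i x, hgp i x]
  have cosc : ∀ k, Continuous (fun x => Real.cos (ph k x)) := fun k =>
    Real.continuous_cos.comp (ph_contDiff k).continuous
  have sinc : ∀ k, Continuous (fun x => Real.sin (ph k x)) := fun k =>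
    Real.continuous_sin.comp (ph_contDiff k).continuous
  -- the general formula for the modes
  have hmodes : ∀ (g : V → ℝ), Continuous g → Periodic3 g → ∀ i,
      ∫ x in Dom, (∑ j : ι, F j x • rv (ξ j.1 j.2)) i * g x
        = ∑ j : ι, vol⁻¹ * (a j.1 j.2 * (∫ x in Dom, ψ j x * (Real.cos (ph j.1 x) * g x))
          + b j.1 j.2 * (∫ x in Dom, ψ j x * (Real.sin (ph j.1 x) * g x)))
          * rv (ξ j.1 j.2) i := by
    intro g hg hgp i
    have e : ∀ x, (∑ j : ι, F j x • rv (ξ j.1 j.2)) i * g x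
        = ∑ j : ι, (vol⁻¹ * (a j.1 j.2 * (ψ j x * (Real.cos (ph j.1 x) * g x))
          + b j.1 j.2 * (ψ j x * (Real.sin (ph j.1 x) * g x))) * rv (ξ j.1 j.2) i) := by
      intro x
      rw [Finset.sum_apply, Finset.sum_mul]
      refine Finset.sum_congr rfl fun j _ => ?_
      simp only [Pi.smul_apply, smul_eq_mul, F, f]
      ring
    simp only [e]
    have i1 : ∀ j : ι, IntegrableOn (fun x => ψ j x * (Real.cos (ph j.1 x) * g x)) Dom := by
      intro j
      refine hint1 j _ ((cosc _).mul hg) ?_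
      intro i x
      have := cos_periodic j.1 i x
      simp only at this ⊢
      rw [this, hgp i x]
    have i2 : ∀ j : ι, IntegrableOn (fun x => ψ j x * (Real.sin (ph j.1 x) * g x)) Dom := by
      intro j
      refine hint1 j _ ((sinc _).mul hg) ?_
      intro i x
      have := sin_periodic j.1 i x
      simp only at this ⊢
      rw [this, hgp i x]
    rw [integral_finsetSum]
    · refine Finset.sum_congr rfl fun j _ => ?_
      rw [integral_mul_const, integral_const_mul,
        integral_add ((i1 j).const_mul _) ((i2 j).const_mul _), integral_const_mul,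
        integral_const_mul]
    · intro j _
      exact ((((i1 j).const_mul _).add ((i2 j).const_mul _)).const_mul _).mul_const _
  intro l hl i
  have hl' := mem_Bx.1 hl
  have hnegl : -l ∈ Bx K := by
    rw [mem_Bx]; intro i; simp only [Pi.neg_apply, abs_neg]; exact hl' i
  -- summation over the frequencies
  have hsumgen : ∀ (c : (Fin 3 → ℤ) → Fin 3 → ℝ) (Z : (Fin 3 → ℤ) → V) (σ : ℝ),
      (∀ k ∈ Bx K, Z k = ∑ i, c k i • rv (ξ k i)) →
      ∑ j : ι, vol⁻¹ * (c j.1 j.2 * (((if (j.1 : Fin 3 → ℤ) - l = 0 then vol else 0)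
        + σ * (if (j.1 : Fin 3 → ℤ) + l = 0 then vol else 0)) / 2)) * rv (ξ j.1 j.2) i
      = (Z l i + σ * Z (-l) i) / 2 := by
    intro c Z σ hZ
    rw [Fintype.sum_prod_type]
    have e1 : ∀ k : {k // k ∈ Bx K}, ∑ i', vol⁻¹ * (c k i' * (((if (k : Fin 3 → ℤ) - l = 0 then vol else 0)
        + σ * (if (k : Fin 3 → ℤ) + l = 0 then vol else 0)) / 2)) * rv (ξ k i') i
        = ((if (k : Fin 3 → ℤ) - l = 0 then 1 else 0)
        + σ * (if (k : Fin 3 → ℤ) + l = 0 then 1 else 0)) / 2 * Z k i := by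
      intro k
      rw [hZ k k.2, Finset.sum_apply, Finset.mul_sum]
      refine Finset.sum_congr rfl fun i' _ => ?_
      simp only [Pi.smul_apply, smul_eq_mul]
      split_ifs <;> field_simp <;> ring
    rw [Finset.sum_congr rfl fun k _ => e1 k]
    have e2 : ∑ k : {k // k ∈ Bx K}, ((if (k : Fin 3 → ℤ) - l = 0 then 1 else 0)
        + σ * (if (k : Fin 3 → ℤ) + l = 0 then 1 else 0)) / 2 * Z k i
        = ∑ k ∈ Bx K, ((if k - l = 0 then 1 else 0)
        + σ * (if k + l = 0 then 1 else 0)) / 2 * Z k i :=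
      Finset.sum_coe_sort (Bx K) (fun k => ((if k - l = 0 then (1:ℝ) else 0)
        + σ * (if k + l = 0 then 1 else 0)) / 2 * Z k i)
    rw [e2]
    have e3 : ∀ k ∈ Bx K, ((if k - l = 0 then (1:ℝ) else 0)
        + σ * (if k + l = 0 then 1 else 0)) / 2 * Z k i
        = (if k = l then Z k i / 2 else 0) + (if k = -l then σ * Z k i / 2 else 0) := by
      intro k _
      have q1 : (k - l = 0) ↔ (k = l) := sub_eq_zero
      have q2 : (k + l = 0) ↔ (k = -l) := add_eq_zero_iff_eq_neg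
      simp only [q1, q2]
      split_ifs <;> ring
    rw [Finset.sum_congr rfl e3, Finset.sum_add_distrib, Finset.sum_ite_eq', Finset.sum_ite_eq',
      if_pos hl, if_pos hnegl]
    ring
  constructor
  · refine (hmodes _ (cosc l) (cos_periodic l) i).trans ?_
    have e : ∀ j : ι, vol⁻¹ * (a j.1 j.2 * (∫ x in Dom, ψ j x * (Real.cos (ph j.1 x) * Real.cos (ph l x)))
        + b j.1 j.2 * (∫ x in Dom, ψ j x * (Real.sin (ph j.1 x) * Real.cos (ph l x))))
        * rv (ξ j.1 j.2) i = vol⁻¹ * (a j.1 j.2 * (((if (j.1 : Fin 3 → ℤ) - l = 0 then vol else 0)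
        + 1 * (if (j.1 : Fin 3 → ℤ) + l = 0 then vol else 0)) / 2)) * rv (ξ j.1 j.2) i := by
      intro j
      obtain ⟨p1, p2, -, -⟩ := (hψ j).products hN (mem_Bx.1 j.1.2) hl'
      rw [p1, p2]
      ring
    rw [Finset.sum_congr rfl fun j _ => e j, hsumgen a A 1 ha, hAs l hl]
    ring
  · refine (hmodes _ (sinc l) (sin_periodic l) i).trans ?_
    have e : ∀ j : ι, vol⁻¹ * (a j.1 j.2 * (∫ x in Dom, ψ j x * (Real.cos (ph j.1 x) * Real.sin (ph l x)))
        + b j.1 j.2 * (∫ x in Dom, ψ j x * (Real.sin (ph j.1 x) * Real.sin (ph l x))))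
        * rv (ξ j.1 j.2) i = vol⁻¹ * (b j.1 j.2 * (((if (j.1 : Fin 3 → ℤ) - l = 0 then vol else 0)
        + (-1) * (if (j.1 : Fin 3 → ℤ) + l = 0 then vol else 0)) / 2)) * rv (ξ j.1 j.2) i := by
      intro j
      obtain ⟨-, -, p3, p4⟩ := (hψ j).products hN (mem_Bx.1 j.1.2) hl'
      rw [p3, p4]
      ring
    rw [Finset.sum_congr rfl fun j _ => e j, hsumgen b B (-1) hb, hBs l hl]
    simp only [Pi.neg_apply]
    ring

/-- The trigonometric polynomial with the given coefficients. -/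
noncomputable def tpoly (K : ℕ) (A B : (Fin 3 → ℤ) → V) (x : V) : V := fun i =>
  ∑ k ∈ Bx K, (volume Dom).toReal⁻¹ * (A k i * Real.cos (ph k x) + B k i * Real.sin (ph k x))

lemma exists_acc {vol R D η : ℝ} (hv : 0 < vol) (hR : 0 ≤ R) (hD : 0 ≤ D) (hη : 0 < η) :
    ∃ η' : ℝ, 0 < η' ∧ η' ≤ vol / 2 ∧ R * (D * η') ≤ η := by
  have h1 : 0 < R * D + 1 := by positivity
  refine ⟨min (vol / 2) (η / (R * D + 1)), lt_min (by positivity) (by positivity),
    min_le_left _ _, ?_⟩
  have h2 : 0 ≤ R * D := by positivity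
  calc R * (D * min (vol / 2) (η / (R * D + 1))) = (R * D) * min (vol / 2) (η / (R * D + 1)) := by
        ring
    _ ≤ (R * D) * (η / (R * D + 1)) := mul_le_mul_of_nonneg_left (min_le_right _ _) h2
    _ = (R * D) / (R * D + 1) * η := by ring
    _ ≤ 1 * η := by
        refine mul_le_mul_of_nonneg_right ?_ hη.le
        rw [div_le_one h1]
        linarith
    _ = η := one_mul η

/-- **Steady flows near a trigonometric polynomial.** -/
theorem exists_flow {M r : ℝ} (hM : 0 ≤ M)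
    (hr : 2 < r) (K : ℕ) (A B : (Fin 3 → ℤ) → V)
    (hA : ∀ k ∈ Bx K, ph k (A k) = 0) (hB : ∀ k ∈ Bx K, ph k (B k) = 0)
    (hAs : ∀ k ∈ Bx K, A (-k) = A k) (hBs : ∀ k ∈ Bx K, B (-k) = -B k) {η : ℝ} (hη : 0 < η) :
    ∃ v : V → V, ContDiff ℝ ∞ v ∧ Periodic3 v ∧
      (∀ x, divergence v x = 0) ∧ (∀ x, fderiv ℝ v x (v x) = 0) ∧
      (∀ l ∈ Bx K, ∀ i, ∫ x in Dom, v x i * Real.cos (ph l x) = A l i ∧
        ∫ x in Dom, v x i * Real.sin (ph l x) = B l i) ∧
      (∀ i, SmallM M r η (fun x => v x i - tpoly K A B x i)) := by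
  classical
  choose ξ m n hξ hm hn hs hspan using exists_dirs
  choose! a ha using fun (k : Fin 3 → ℤ) (hk : k ∈ Bx K) => hspan k (A k) (hA k hk)
  choose! b hb using fun (k : Fin 3 → ℤ) (hk : k ∈ Bx K) => hspan k (B k) (hB k hk)
  let ι := {k // k ∈ Bx K} × Fin 3
  set vol : ℝ := (volume Dom).toReal with hvol
  have hvol0 : 0 < vol := vol_pos
  have hr1 : 1 ≤ r := by linarith
  let f : ι → V → ℝ := fun j x => a j.1 j.2 * Real.cos (ph j.1 x) + b j.1 j.2 * Real.sin (ph j.1 x)
  have hfs : ∀ j, ContDiff ℝ ∞ (f j) := fun j =>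
    (contDiff_const.mul (Real.contDiff_cos.comp (ph_contDiff _))).add
      (contDiff_const.mul (Real.contDiff_sin.comp (ph_contDiff _)))
  have hfp : ∀ j, Periodic3 (f j) := by
    intro j i x
    have e1 := cos_periodic j.1 i x
    have e2 := sin_periodic j.1 i x
    simp only at e1 e2
    simp only [f]
    rw [e1, e2]
  -- bounds for the `f j`
  obtain ⟨C, hC0, hC1, hC2⟩ := common_bounds (fun j => (hfs j).of_le (by exact_mod_cast le_top)) hfp
  set Cf : ℝ := (M + vol) * C + 2 * (M * C) with hCf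
  have hCf0 : 0 ≤ Cf := by positivity
  have hfsm : ∀ j, SmallM M r Cf (f j) := fun j =>
    smallM_of_lip hr1 (hfs j).continuous (hC1 j) hC0 (hC2 j)
  -- the weights of the summands
  set R : ℝ := ∑ j : ι, ∑ i, |vol⁻¹ * rv (ξ j.1 j.2) i| with hR
  have hR0 : 0 ≤ R := Finset.sum_nonneg fun j _ => Finset.sum_nonneg fun i _ => abs_nonneg _
  have hRj : ∀ i, ∑ j : ι, |vol⁻¹ * rv (ξ j.1 j.2) i| ≤ R := by
    intro i
    refine Finset.sum_le_sum fun j _ => ?_
    exact Finset.single_le_sum (f := fun i => |vol⁻¹ * rv (ξ j.1 j.2) i|)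
      (fun _ _ => abs_nonneg _) (Finset.mem_univ i)
  set D : ℝ := 2 + 2 * vol⁻¹ * Cf with hD
  have hD0 : 0 < D := by positivity
  -- the accuracy
  obtain ⟨η', hη', hη'1, hη'2⟩ := exists_acc hvol0 hR0 hD0.le hη
  obtain ⟨n₀, hn₀⟩ : ∃ n₀ : ℕ, 2 * K < 2 ^ n₀ := ⟨2 * K, Nat.lt_two_pow_self⟩
  obtain ⟨E, hE⟩ := exists_fam (ι := ι) hM hr n₀ (fun j => ξ j.1 j.2) hfs hfp
    (Finset.univ.filter fun p : ι × ι => p.1 ≠ p.2) (fun p hp => (Finset.mem_filter.1 hp).2)
    η' hη'
  have hEi : ∀ j, IntegrableOn (E j) Dom := fun j =>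
    H708R2.EulerSign.Periodic3.integrableOn (hE.per j) (hE.smooth j).continuous
  set m : ι → ℝ := fun j => (∫ x in Dom, E j x) / vol with hm'
  have hm1 : ∀ j, |m j - 1| ≤ η' / vol := by
    intro j
    have h1 := (hE.small1 j).mean hM
    have h2 : ∫ x in Dom, (E j x - 1) = (∫ x in Dom, E j x) - vol := by
      rw [integral_sub (hEi j) (integrableOn_const dom_lt_top.ne)]
      simp [hvol, Measure.real]
    rw [h2] at h1
    have h3 : m j - 1 = ((∫ x in Dom, E j x) - vol) / vol := by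
      simp only [hm']
      field_simp
    rw [h3, abs_div, abs_of_pos hvol0]
    gcongr
  have hmh : ∀ j, 1 / 2 ≤ m j := by
    intro j
    have h1 := (abs_le.1 (hm1 j)).1
    have h2 : η' / vol ≤ 1 / 2 := by
      rw [div_le_iff₀ hvol0]
      linarith
    linarith
  have hmpos : ∀ j, 0 < m j := fun j => lt_of_lt_of_le (by norm_num) (hmh j)
  set Ψ : ι → V → ℝ := fun j x => (m j)⁻¹ * E j x with hΨ
  have hΨf : ∀ j, Fine (2 ^ n₀) (Ψ j) := by
    intro j
    refine ⟨continuous_const.mul (hE.smooth j).continuous, fun i x => ?_, fun i x => ?_, ?_⟩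
    · simp only [hΨ]
      rw [hE.per j i x]
    · simp only [hΨ]
      have := hE.fine j i x
      push_cast
      rw [this]
    · simp only [hΨ]
      rw [integral_const_mul]
      have : (∫ x in Dom, E j x) = m j * vol := by simp only [hm']; field_simp
      rw [this, ← mul_assoc, inv_mul_cancel₀ (hmpos j).ne', one_mul]
  let F : ι → V → ℝ := fun j x => vol⁻¹ * (f j x * Ψ j x)
  have hΨs : ∀ j, ContDiff ℝ ∞ (Ψ j) := fun j => contDiff_const.mul (hE.smooth j)
  have hFs : ∀ j, ContDiff ℝ ∞ (F j) := fun j => contDiff_const.mul ((hfs j).mul (hΨs j))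
  have hFinv : ∀ j (x : V) (s : ℝ), F j (x + s • rv (ξ j.1 j.2)) = F j x := by
    intro j x s
    have e1 : ph j.1 (x + s • rv (ξ j.1 j.2)) = ph j.1 x := by
      rw [ph_add, ph_smul, hξ, mul_zero, add_zero]
    have e2 : E j (x + s • rv (ξ j.1 j.2)) = E j x := hE.inv j x s
    simp only [F, f, hΨ]
    rw [e1, e2]
  have hFdis : ∀ i j, i ≠ j → ∀ x, F i x = 0 ∨ F j x = 0 := by
    intro i j hij x
    rcases hE.disj (i, j) (by simpa using hij) x with h | h
    · left; simp only [F, hΨ]; rw [h]; ring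
    · right; simp only [F, hΨ]; rw [h]; ring
  have hst := steady (e := fun j : ι => rv (ξ j.1 j.2)) hFs hFinv hFdis
  have hvp : Periodic3 (fun x => ∑ j : ι, F j x • rv (ξ j.1 j.2)) := by
    intro i x
    simp only
    refine Finset.sum_congr rfl fun j _ => ?_
    congr 1
    simp only [F]
    rw [hfp j i x, (hΨf j).per i x]
  refine ⟨fun x => ∑ j : ι, F j x • rv (ξ j.1 j.2), ?_, hvp, hst.1, hst.2, ?_, ?_⟩
  · exact ContDiff.sum fun j _ => (hFs j).smul contDiff_const
  · exact modes_of_fine hn₀ A B hAs hBs ξ a b ha hb Ψ hΨf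
  · intro i
    -- the difference
    have e : (fun x => (∑ j : ι, F j x • rv (ξ j.1 j.2)) i - tpoly K A B x i)
        = fun x => ∑ j : ι, (vol⁻¹ * rv (ξ j.1 j.2) i)
          * ((m j)⁻¹ * (f j x * (E j x - 1)) + ((m j)⁻¹ - 1) * f j x) := by
      funext x
      have e1 : tpoly K A B x i = ∑ j : ι, vol⁻¹ * f j x * rv (ξ j.1 j.2) i := by
        unfold tpoly
        rw [Fintype.sum_prod_type, ← Finset.sum_coe_sort (Bx K)
          (fun k => (volume Dom).toReal⁻¹ * (A k i * Real.cos (ph k x) + B k i * Real.sin (ph k x)))]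
        refine Finset.sum_congr rfl fun k _ => ?_
        rw [ha k k.2, hb k k.2]
        simp only [Finset.sum_apply, Pi.smul_apply, smul_eq_mul, Finset.sum_mul, f]
        rw [← Finset.sum_add_distrib, Finset.mul_sum]
        refine Finset.sum_congr rfl fun i' _ => ?_
        ring
      rw [e1, Finset.sum_apply, ← Finset.sum_sub_distrib]
      refine Finset.sum_congr rfl fun j _ => ?_
      simp only [Pi.smul_apply, smul_eq_mul, F, hΨ]
      ring
    rw [e]
    have bdc : ∀ {g : V → ℝ}, ContDiff ℝ ∞ g → Periodic3 g → Bdc g := by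
      intro g hg hp
      obtain ⟨C', -, h⟩ := hp.bounded hg.continuous
      exact ⟨hg.continuous, C', h⟩
    have hsj : ∀ j ∈ (Finset.univ : Finset ι), SmallM M r (|vol⁻¹ * rv (ξ j.1 j.2) i| * (D * η'))
        (fun x => (vol⁻¹ * rv (ξ j.1 j.2) i)
          * ((m j)⁻¹ * (f j x * (E j x - 1)) + ((m j)⁻¹ - 1) * f j x)) := by
      intro j _
      refine SmallM.const_mul ?_ _
      have s1 := (hE.small j).const_mul (m j)⁻¹
      have s2 := (hfsm j).const_mul ((m j)⁻¹ - 1)
      have p1 : Periodic3 (fun x => f j x * (E j x - 1)) := by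
        intro k x
        simp only
        rw [hfp j k x, hE.per j k x]
      have b1 : Bdc (fun x => (m j)⁻¹ * (f j x * (E j x - 1))) :=
        bdc (contDiff_const.mul ((hfs j).mul ((hE.smooth j).sub contDiff_const)))
          (fun k x => by rw [hfp j k x, hE.per j k x])
      have b2 : Bdc (fun x => ((m j)⁻¹ - 1) * f j x) :=
        bdc (contDiff_const.mul (hfs j)) (fun k x => by rw [hfp j k x])
      refine (SmallM.add hr1 b1 b2 s1 s2).mono (by linarith) ?_
      have hmj := hmpos j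
      have i1 : (m j)⁻¹ ≤ 2 := by
        rw [inv_le_comm₀ hmj (by norm_num)]
        have := hmh j
        linarith
      have i2 : |(m j)⁻¹ - 1| ≤ 2 * (η' / vol) := by
        have : (m j)⁻¹ - 1 = (m j)⁻¹ * -(m j - 1) := by field_simp; ring
        rw [this, abs_mul, abs_neg, abs_of_pos (inv_pos.2 hmj)]
        have := hm1 j
        gcongr
      rw [abs_of_pos (inv_pos.2 hmj)]
      calc (m j)⁻¹ * η' + |(m j)⁻¹ - 1| * Cf ≤ 2 * η' + 2 * (η' / vol) * Cf := by gcongr
        _ = D * η' := by rw [hD]; ring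
    have hbj : ∀ j ∈ (Finset.univ : Finset ι), Bdc
        (fun x => (vol⁻¹ * rv (ξ j.1 j.2) i)
          * ((m j)⁻¹ * (f j x * (E j x - 1)) + ((m j)⁻¹ - 1) * f j x)) := by
      intro j _
      refine bdc (contDiff_const.mul ((contDiff_const.mul ((hfs j).mul
        ((hE.smooth j).sub contDiff_const))).add (contDiff_const.mul (hfs j)))) fun k x => ?_
      rw [hfp j k x, hE.per j k x]
    refine (SmallM.sum hr1 Finset.univ hbj hsj).mono (by linarith) ?_
    rw [← Finset.sum_mul]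
    calc (∑ j : ι, |vol⁻¹ * rv (ξ j.1 j.2) i|) * (D * η') ≤ R * (D * η') := by
          have := hRj i
          gcongr
      _ ≤ η := hη'2

end Pool.Agent.K3h70.EB
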