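import Mathlib
import Pool.Agent.H708R2.EulerModes.Pipes

/-!
# Convolution with an integrable kernel at small scales
-/

set_option autoImplicit false

open MeasureTheory Set Filter Topology
open scoped ENNReal SchwartzMap

namespace Pool.Agent.K3h70.EB

open Pool.Agent.H708R2.EulerSign (V)
open Pool.Agent.H708R2.EulerModes (ph ph_add ph_smul ph_contDiff rv)

/-- The kernels which we use: continuous, integrable together with the first moment, and Lipschitz
continuous in `L¹`. -/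
structure Ker (ρ : V → ℝ) (M : ℝ) : Prop where
  cont : Continuous ρ
  int : Integrable ρ
  int1 : Integrable (fun y => ‖y‖ * |ρ y|)
  le0 : ∫ y, |ρ y| ≤ M
  le1 : ∫ y, ‖y‖ * |ρ y| ≤ M
  lip : ∀ h, ∫ y, |ρ (y + h) - ρ y| ≤ M * ‖h‖

lemma Ker.nonneg {ρ : V → ℝ} {M : ℝ} (h : Ker ρ M) : 0 ≤ M :=
  (integral_nonneg fun _ => abs_nonneg _).trans h.le0

lemma Ker.mono {ρ : V → ℝ} {M M' : ℝ} (h : Ker ρ M) (hM : M ≤ M') : Ker ρ M' :=
  ⟨h.cont, h.int, h.int1, h.le0.trans hM, h.le1.trans hM, fun z =>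
    (h.lip z).trans (mul_le_mul_of_nonneg_right hM (norm_nonneg _))⟩

/-- The `L¹` modulus of continuity of a function with integrable derivative. -/
lemma integral_abs_sub_le {ρ : V → ℝ} (hρ : ContDiff ℝ 1 ρ) (hi : Integrable ρ)
    (hd : Integrable (fun y => fderiv ℝ ρ y)) (h : V) :
    ∫ y, |ρ (y + h) - ρ y| ≤ (∫ y, ‖fderiv ℝ ρ y‖) * ‖h‖ := by
  have hcd : Continuous (fun y => fderiv ℝ ρ y) := hρ.continuous_fderiv one_ne_zero
  have key : ∀ y, ‖ρ (y + h) - ρ y‖ₑ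
      ≤ ∫⁻ s in Ioc (0 : ℝ) 1, ‖fderiv ℝ ρ (y + s • h)‖ₑ * ‖h‖ₑ := by
    intro y
    have hder : ∀ s ∈ uIcc (0 : ℝ) 1, HasDerivAt (fun s : ℝ => ρ (y + s • h))
        (fderiv ℝ ρ (y + s • h) h) s := by
      intro s _
      have h1 : HasDerivAt (fun s : ℝ => y + s • h) h s := by
        have := ((hasDerivAt_id s).smul_const h).const_add y
        simpa using this
      exact ((hρ.differentiable one_ne_zero) (y + s • h)).hasFDerivAt.comp_hasDerivAt s h1
    have hc : Continuous (fun s : ℝ => fderiv ℝ ρ (y + s • h) h) :=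
      (hcd.comp (by fun_prop)).clm_apply continuous_const
    have h2 := intervalIntegral.integral_eq_sub_of_hasDerivAt hder (hc.intervalIntegrable _ _)
    simp only [one_smul, zero_smul, add_zero] at h2
    rw [← h2, intervalIntegral.integral_of_le zero_le_one]
    refine (enorm_integral_le_lintegral_enorm _).trans (lintegral_mono fun s => ?_)
    exact ContinuousLinearMap.le_opENorm _ _
  have hmeas : ∀ g : V → ℝ, Continuous g → ∫ y, |g y| = (∫⁻ y, ‖g y‖ₑ).toReal := by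
    intro g hg
    rw [← integral_norm_eq_lintegral_enorm hg.aestronglyMeasurable]
    rfl
  rw [hmeas _ (by have := hρ.continuous; fun_prop)]
  have h3 : ∫⁻ y, ‖ρ (y + h) - ρ y‖ₑ ≤ (∫⁻ y, ‖fderiv ℝ ρ y‖ₑ) * ‖h‖ₑ := by
    refine (lintegral_mono key).trans ?_
    rw [lintegral_lintegral_swap]
    · have h4 : ∀ s : ℝ, ∫⁻ y, ‖fderiv ℝ ρ (y + s • h)‖ₑ * ‖h‖ₑ
          = (∫⁻ y, ‖fderiv ℝ ρ y‖ₑ) * ‖h‖ₑ := by
        intro s
        have hm : Continuous (fun y : V => fderiv ℝ ρ (y + s • h)) :=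
          hcd.comp (g := fun y => fderiv ℝ ρ y) (f := fun y : V => y + s • h) (by fun_prop)
        rw [lintegral_mul_const _ hm.enorm.measurable]
        congr 1
        exact lintegral_add_right_eq_self (fun y => ‖fderiv ℝ ρ y‖ₑ) (s • h)
      simp only [h4, lintegral_const, Measure.restrict_apply_univ, Real.volume_Ioc, sub_zero,
        ENNReal.ofReal_one, mul_one]
      exact le_rfl
    · refine Measurable.aemeasurable ?_
      refine (Continuous.measurable ?_).mul_const _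
      have hm : Continuous (fun z : V × ℝ => fderiv ℝ ρ (z.1 + z.2 • h)) :=
        hcd.comp (g := fun y => fderiv ℝ ρ y) (f := fun z : V × ℝ => z.1 + z.2 • h) (by fun_prop)
      exact hm.enorm
  have h5 : (∫⁻ y, ‖fderiv ℝ ρ y‖ₑ) ≠ ∞ := hd.2.ne
  calc (∫⁻ y, ‖ρ (y + h) - ρ y‖ₑ).toReal ≤ ((∫⁻ y, ‖fderiv ℝ ρ y‖ₑ) * ‖h‖ₑ).toReal :=
        ENNReal.toReal_mono (ENNReal.mul_ne_top h5 enorm_ne_top) h3
    _ = (∫ y, ‖fderiv ℝ ρ y‖) * ‖h‖ := by
        rw [ENNReal.toReal_mul, toReal_enorm, integral_norm_eq_lintegral_enorm hcd.aestronglyMeasurable]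

/-- Schwartz functions are admissible kernels. -/
theorem exists_ker (ρ : 𝓢(V, ℝ)) : ∃ M, 0 ≤ M ∧ Ker ρ M := by
  have hi : Integrable (ρ : V → ℝ) := ρ.integrable
  have hi1 : Integrable (fun y => ‖y‖ * |ρ y|) := by
    have := ρ.integrable_pow_mul volume 1
    simpa using this
  have hd : Integrable (fun y => fderiv ℝ ρ y) := (SchwartzMap.fderivCLM ℝ V ℝ ρ).integrable
  refine ⟨(∫ y, |ρ y|) + (∫ y, ‖y‖ * |ρ y|) + ∫ y, ‖fderiv ℝ ρ y‖, ?_, ρ.continuous, hi, hi1,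
    ?_, ?_, fun h => ?_⟩
  · have h1 : 0 ≤ ∫ y, |ρ y| := integral_nonneg fun _ => abs_nonneg _
    have h2 : 0 ≤ ∫ y, ‖y‖ * |ρ y| := integral_nonneg fun _ => by positivity
    have h3 : 0 ≤ ∫ y, ‖fderiv ℝ ρ y‖ := integral_nonneg fun _ => norm_nonneg _
    positivity
  · have h2 : 0 ≤ ∫ y, ‖y‖ * |ρ y| := integral_nonneg fun _ => by positivity
    have h3 : 0 ≤ ∫ y, ‖fderiv ℝ ρ y‖ := integral_nonneg fun _ => norm_nonneg _
    linarith
  · have h1 : 0 ≤ ∫ y, |ρ y| := integral_nonneg fun _ => abs_nonneg _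
    have h3 : 0 ≤ ∫ y, ‖fderiv ℝ ρ y‖ := integral_nonneg fun _ => norm_nonneg _
    linarith
  · refine (integral_abs_sub_le (ρ.smooth 1) hi hd h).trans ?_
    refine mul_le_mul_of_nonneg_right ?_ (norm_nonneg _)
    have h1 : 0 ≤ ∫ y, |ρ y| := integral_nonneg fun _ => abs_nonneg _
    have h2 : 0 ≤ ∫ y, ‖y‖ * |ρ y| := integral_nonneg fun _ => by positivity
    linarith

/-- The convolution of `w` with the kernel `ρ` at scale `δ`. -/
noncomputable def cv (ρ : V → ℝ) (δ : ℝ) (w : V → ℝ) (x : V) : ℝ := ∫ y, ρ y * w (x - δ • y)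

lemma Ker.integrable_mul {ρ : V → ℝ} {M : ℝ} (h : Ker ρ M) {w : V → ℝ} (hc : Continuous w) {B : ℝ}
    (hB : ∀ x, |w x| ≤ B) : Integrable (fun y => ρ y * w y) :=
  h.int.mul_bdd (c := B) hc.aestronglyMeasurable (Eventually.of_forall hB)

lemma cv_abs_le {ρ : V → ℝ} {M : ℝ} (h : Ker ρ M) {w : V → ℝ} {B : ℝ}
    (hB : ∀ x, |w x| ≤ B) (δ : ℝ) (x : V) : |cv ρ δ w x| ≤ M * B := by
  have hB0 : 0 ≤ B := (abs_nonneg _).trans (hB 0)
  unfold cv
  refine (abs_integral_le_integral_abs).trans ?_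
  have h1 : ∫ y, |ρ y * w (x - δ • y)| ≤ ∫ y, |ρ y| * B := by
    refine integral_mono_of_nonneg (Eventually.of_forall fun y => abs_nonneg _)
      (h.int.abs.mul_const B) (Eventually.of_forall fun y => ?_)
    simp only
    rw [abs_mul]
    exact mul_le_mul_of_nonneg_left (hB _) (abs_nonneg _)
  refine h1.trans ?_
  rw [integral_mul_const]
  exact mul_le_mul_of_nonneg_right h.le0 hB0

/-- The bound for Lipschitz functions when the kernel has mean zero. -/
lemma cv_high {ρ : V → ℝ} {M : ℝ} (h : Ker ρ M) (h0 : ∫ y, ρ y = 0) {w : V → ℝ}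
    (hc : Continuous w) {B : ℝ} (hB : ∀ x, |w x| ≤ B) {Λ : ℝ} (hΛ : 0 ≤ Λ)
    (hw : ∀ x y, |w x - w y| ≤ Λ * ‖x - y‖) {δ : ℝ} (hδ : 0 ≤ δ) (x : V) :
    |cv ρ δ w x| ≤ M * Λ * δ := by
  have e : cv ρ δ w x = ∫ y, ρ y * (w (x - δ • y) - w x) := by
    unfold cv
    have i1 : Integrable (fun y => ρ y * w (x - δ • y)) :=
      h.integrable_mul (w := fun y => w (x - δ • y)) (by fun_prop) (fun y => hB _)
    have i2 : Integrable (fun y => ρ y * w x) := h.int.mul_const _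
    simp only [mul_sub]
    rw [integral_sub i1 i2, integral_mul_const, h0]
    simp
  rw [e]
  refine (abs_integral_le_integral_abs).trans ?_
  have h1 : ∫ y, |ρ y * (w (x - δ • y) - w x)| ≤ ∫ y, ‖y‖ * |ρ y| * (Λ * δ) := by
    refine integral_mono_of_nonneg (Eventually.of_forall fun y => abs_nonneg _)
      (h.int1.mul_const _) (Eventually.of_forall fun y => ?_)
    simp only
    rw [abs_mul]
    have h2 := hw (x - δ • y) x
    have h3 : ‖x - δ • y - x‖ = δ * ‖y‖ := by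
      rw [sub_sub_cancel_left, norm_neg, norm_smul, Real.norm_eq_abs, abs_of_nonneg hδ]
    rw [h3] at h2
    calc |ρ y| * |w (x - δ • y) - w x| ≤ |ρ y| * (Λ * (δ * ‖y‖)) :=
          mul_le_mul_of_nonneg_left h2 (abs_nonneg _)
      _ = ‖y‖ * |ρ y| * (Λ * δ) := by ring
  refine h1.trans ?_
  rw [integral_mul_const]
  calc (∫ y, ‖y‖ * |ρ y|) * (Λ * δ) ≤ M * (Λ * δ) :=
        mul_le_mul_of_nonneg_right h.le1 (by positivity)
    _ = M * Λ * δ := by ring

end Pool.Agent.K3h70.EB
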