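import Pool.Agent.K3h70.EB.Ker
import Pool.Agent.H708R2.EulerModes.Fourier

/-!
# Oscillating functions: the bound for convolutions at scales much larger than the wave length
-/

set_option autoImplicit false

open MeasureTheory Set Filter Topology
open scoped ENNReal

namespace Pool.Agent.K3h70.EB

open Pool.Agent.H708R2.EulerSign (V Periodic3 Dom dom_lt_top dom_meas)
open Pool.Agent.H708R2.EulerModes (ph ph_add ph_smul ph_contDiff rv ph_single integral_translate)

lemma exists_dual {θ : Fin 3 → ℤ} (hθ : θ ≠ 0) : ∃ η : V, ph θ η = 1 ∧ ‖η‖ ≤ 1 := by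
  obtain ⟨i, hi⟩ : ∃ i, θ i ≠ 0 := by
    by_contra hcon
    push Not at hcon
    exact hθ (funext hcon)
  have hr : (θ i : ℝ) ≠ 0 := by exact_mod_cast hi
  refine ⟨Pi.single i (θ i : ℝ)⁻¹, ?_, ?_⟩
  · rw [ph_single, mul_inv_cancel₀ hr]
  · rw [Pi.norm_single, norm_inv, Real.norm_eq_abs]
    apply inv_le_one_of_one_le₀
    have : 1 ≤ |θ i| := Int.one_le_abs hi
    exact_mod_cast this

/-- Profiles `g(x, t)` of oscillating functions. -/
structure Prof (g : V → ℝ → ℝ) (s Λ : ℝ) : Prop where
  cont : Continuous (fun z : V × ℝ => g z.1 z.2)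
  bdd : ∀ x t, |g x t| ≤ s
  lip : ∀ x y t, |g x t - g y t| ≤ Λ * ‖x - y‖
  per : ∀ x, Function.Periodic (g x) (2 * Real.pi)
  mean : ∀ x, ∫ t in (0 : ℝ)..(2 * Real.pi), g x t = 0

lemma Prof.mean_shift {g : V → ℝ → ℝ} {s Λ : ℝ} (h : Prof g s Λ) (x : V) (a : ℝ) :
    ∫ t in Ioc 0 (2 * Real.pi), g x (a + t) = 0 := by
  rw [← intervalIntegral.integral_of_le (by positivity)]
  have h1 : ∫ t in (0 : ℝ)..(2 * Real.pi), g x (a + t) = ∫ t in a..(a + 2 * Real.pi), g x t := by
    rw [intervalIntegral.integral_comp_add_left (fun t => g x t) a, add_zero]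
  rw [h1, (h.per x).intervalIntegral_add_eq a 0, zero_add, h.mean x]

/-- From an average over `[0, 2π]` to the value. -/
lemma abs_le_of_average {c B : ℝ} {I : ℝ → ℝ} (hI : IntegrableOn I (Ioc 0 (2 * Real.pi)))
    (h0 : ∫ t in Ioc 0 (2 * Real.pi), I t = 0)
    (h : ∀ t ∈ Ioc (0 : ℝ) (2 * Real.pi), |c - I t| ≤ B) : |c| ≤ B := by
  have hpi : 0 < 2 * Real.pi := by positivity
  have h1 : ∫ t in Ioc (0 : ℝ) (2 * Real.pi), (c - I t) = 2 * Real.pi * c := by
    rw [integral_sub (integrable_const c) hI, h0]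
    simp [hpi.le]
  have h2 := norm_setIntegral_le_of_norm_le_const (μ := volume) (s := Ioc (0 : ℝ) (2 * Real.pi))
    (by rw [Real.volume_Ioc]; exact ENNReal.ofReal_lt_top) (f := fun t => c - I t) (C := B) h
  rw [h1] at h2
  simp only [Measure.real, Real.volume_Ioc, sub_zero, ENNReal.toReal_ofReal hpi.le,
    Real.norm_eq_abs, abs_mul, abs_of_pos hpi] at h2
  rw [mul_comm B] at h2
  exact le_of_mul_le_mul_left h2 hpi

lemma cv_low {ρ : V → ℝ} {M : ℝ} (h : Ker ρ M) {g : V → ℝ → ℝ} {s Λ : ℝ} (hg : Prof g s Λ)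
    {θ : Fin 3 → ℤ} (hθ : θ ≠ 0) {N : ℝ} (hN : 0 < N) {δ : ℝ} (hδ : 0 < δ) (x : V) :
    |cv ρ δ (fun x => g x (N * ph θ x)) x| ≤ M * (2 * Real.pi) * (s / (δ * N) + Λ / N) := by
  obtain ⟨η, hη1, hη2⟩ := exists_dual hθ
  have hpi : 0 < 2 * Real.pi := by positivity
  have hM := h.nonneg
  have hs : 0 ≤ s := (abs_nonneg _).trans (hg.bdd 0 0)
  have hΛ : 0 ≤ Λ := by
    have h1 := (abs_nonneg _).trans (hg.lip (Pi.single 0 1) 0 0)
    rw [sub_zero, Pi.norm_single, norm_one, mul_one] at h1
    exact h1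
  have hphc : Continuous (ph θ) := (ph_contDiff θ).continuous
  have hgc := hg.cont
  -- the averaged integrand
  set F : ℝ → V → ℝ := fun t y => ρ y * g (x - δ • y) (N * ph θ (x - δ • y) + t) with hF
  have hFc : Continuous (fun z : ℝ × V => g (x - δ • z.2) (N * ph θ (x - δ • z.2) + z.1)) :=
    hgc.comp (f := fun z : ℝ × V => ((x - δ • z.2, N * ph θ (x - δ • z.2) + z.1) : V × ℝ))
      (by fun_prop)
  have hint : Integrable (Function.uncurry F)
      ((volume.restrict (Ioc 0 (2 * Real.pi))).prod (volume : Measure V)) := by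
    have h1 : Integrable (fun z : ℝ × V => ρ z.2)
        ((volume.restrict (Ioc 0 (2 * Real.pi))).prod (volume : Measure V)) := by
      have := (integrable_const (1 : ℝ)
        (μ := volume.restrict (Ioc (0 : ℝ) (2 * Real.pi)))).mul_prod h.int
      simpa using this
    exact h1.mul_bdd (c := s) hFc.aestronglyMeasurable
      (Eventually.of_forall fun z => hg.bdd _ _)
  have hI : IntegrableOn (fun t => ∫ y, F t y) (Ioc 0 (2 * Real.pi)) := hint.integral_prod_left
  have hI0 : ∫ t in Ioc 0 (2 * Real.pi), ∫ y, F t y = 0 := by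
    rw [integral_integral_swap hint]
    have : ∀ y, ∫ t in Ioc 0 (2 * Real.pi), F t y = 0 := by
      intro y
      simp only [hF]
      rw [integral_const_mul, hg.mean_shift, mul_zero]
    simp only [this, integral_zero]
  refine abs_le_of_average hI hI0 fun t ht => ?_
  set c := t / N with hc
  have hc0 : 0 ≤ c := div_nonneg ht.1.le hN.le
  have hcN : N * c = t := by rw [hc]; field_simp
  have hcle : c ≤ 2 * Real.pi / N := div_le_div_of_nonneg_right ht.2 hN.le
  -- translation
  have e1 : cv ρ δ (fun x => g x (N * ph θ x)) x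
      = ∫ y, ρ (y - (c / δ) • η) * g (x - δ • y + c • η) (N * ph θ (x - δ • y) + t) := by
    unfold cv
    rw [← integral_sub_right_eq_self (fun y => ρ y * g (x - δ • y) (N * ph θ (x - δ • y)))
      ((c / δ) • η)]
    congr 1
    funext y
    have e2 : x - δ • (y - (c / δ) • η) = x - δ • y + c • η := by
      rw [smul_sub, smul_smul, mul_div_cancel₀ c hδ.ne']
      abel
    simp only [e2]
    rw [ph_add, ph_smul, hη1, mul_one, mul_add, hcN]
  have cA : Continuous (fun y => g (x - δ • y + c • η) (N * ph θ (x - δ • y) + t)) :=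
    hgc.comp (f := fun y : V => ((x - δ • y + c • η, N * ph θ (x - δ • y) + t) : V × ℝ))
      (by fun_prop)
  have cB : Continuous (fun y => g (x - δ • y) (N * ph θ (x - δ • y) + t)) :=
    hgc.comp (f := fun y : V => ((x - δ • y, N * ph θ (x - δ • y) + t) : V × ℝ)) (by fun_prop)
  have hρc := h.cont
  have iρ' : Integrable (fun y => ρ (y - (c / δ) • η)) := h.int.comp_sub_right _
  have i0 : Integrable (fun y => ρ (y - (c / δ) • η)
      * g (x - δ • y + c • η) (N * ph θ (x - δ • y) + t)) :=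
    iρ'.mul_bdd (c := s) cA.aestronglyMeasurable (Eventually.of_forall fun z => hg.bdd _ _)
  have i1 : Integrable (fun y => F t y) :=
    h.int.mul_bdd (c := s) cB.aestronglyMeasurable (Eventually.of_forall fun z => hg.bdd _ _)
  rw [e1, ← integral_sub i0 i1]
  have e3 : ∀ y, ρ (y - (c / δ) • η) * g (x - δ • y + c • η) (N * ph θ (x - δ • y) + t) - F t y
      = (ρ (y - (c / δ) • η) - ρ y) * g (x - δ • y + c • η) (N * ph θ (x - δ • y) + t)
      + ρ y * (g (x - δ • y + c • η) (N * ph θ (x - δ • y) + t)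
        - g (x - δ • y) (N * ph θ (x - δ • y) + t)) := by
    intro y
    simp only [hF]
    ring
  simp only [e3]
  refine abs_integral_le_integral_abs.trans ?_
  have idiff : Integrable (fun y => |ρ (y + -((c / δ) • η)) - ρ y|) := by
    have := (iρ'.sub h.int).abs
    simpa [sub_eq_add_neg] using this
  have hb : ∀ y, |(ρ (y - (c / δ) • η) - ρ y) * g (x - δ • y + c • η) (N * ph θ (x - δ • y) + t)
      + ρ y * (g (x - δ • y + c • η) (N * ph θ (x - δ • y) + t)
        - g (x - δ • y) (N * ph θ (x - δ • y) + t))|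
      ≤ |ρ (y + -((c / δ) • η)) - ρ y| * s + |ρ y| * (Λ * c) := by
    intro y
    refine (abs_add_le _ _).trans ?_
    rw [abs_mul, abs_mul, sub_eq_add_neg y]
    gcongr
    · exact hg.bdd _ _
    · refine (hg.lip _ _ _).trans ?_
      rw [add_sub_cancel_left, norm_smul, Real.norm_eq_abs, abs_of_nonneg hc0]
      have : c * ‖η‖ ≤ c * 1 := by gcongr
      nlinarith
  have h4 := integral_mono_of_nonneg (Eventually.of_forall fun y => abs_nonneg _)
    ((idiff.mul_const s).add (h.int.abs.mul_const (Λ * c))) (Eventually.of_forall hb)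
  refine h4.trans ?_
  have h5 : ∫ y, (|ρ (y + -((c / δ) • η)) - ρ y| * s + |ρ y| * (Λ * c))
      = (∫ y, |ρ (y + -((c / δ) • η)) - ρ y|) * s + (∫ y, |ρ y|) * (Λ * c) := by
    rw [integral_add (idiff.mul_const s) (h.int.abs.mul_const (Λ * c)), integral_mul_const,
      integral_mul_const]
  have h6 : ∫ y, ((fun y => |ρ (y + -((c / δ) • η)) - ρ y| * s) + fun y => |ρ y| * (Λ * c)) y
      = ∫ y, (|ρ (y + -((c / δ) • η)) - ρ y| * s + |ρ y| * (Λ * c)) := rfl
  rw [h6, h5]
  have h7 : ∫ y, |ρ (y + -((c / δ) • η)) - ρ y| ≤ M * (c / δ) := by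
    refine (h.lip _).trans ?_
    rw [norm_neg, norm_smul, Real.norm_eq_abs, abs_of_nonneg (by positivity)]
    have : c / δ * ‖η‖ ≤ c / δ * 1 := by gcongr
    rw [mul_one] at this
    exact mul_le_mul_of_nonneg_left this hM
  calc (∫ y, |ρ (y + -((c / δ) • η)) - ρ y|) * s + (∫ y, |ρ y|) * (Λ * c)
      ≤ M * (c / δ) * s + M * (Λ * c) := by
        gcongr
        exact h.le0
    _ = c * (M * (s / δ + Λ)) := by field_simp
    _ ≤ 2 * Real.pi / N * (M * (s / δ + Λ)) := by gcongr
    _ = M * (2 * Real.pi) * (s / (δ * N) + Λ / N) := by field_simp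

/-- The mean over the torus of an oscillating function. -/
lemma mean_low {g : V → ℝ → ℝ} {s Λ : ℝ} (hg : Prof g s Λ)
    {θ : Fin 3 → ℤ} (hθ : θ ≠ 0) {N : ℝ} (hN : 0 < N)
    (hp : ∀ t, Periodic3 (fun x => g x (N * ph θ x + t))) :
    |∫ x in Dom, g x (N * ph θ x)| ≤ (volume Dom).toReal * (2 * Real.pi) * (Λ / N) := by
  obtain ⟨η, hη1, hη2⟩ := exists_dual hθ
  have hpi : 0 < 2 * Real.pi := by positivity
  have hΛ : 0 ≤ Λ := by
    have h1 := (abs_nonneg _).trans (hg.lip (Pi.single 0 1) 0 0)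
    rw [sub_zero, Pi.norm_single, norm_one, mul_one] at h1
    exact h1
  have hphc : Continuous (ph θ) := (ph_contDiff θ).continuous
  have hgc := hg.cont
  have hfin : IsFiniteMeasure (volume.restrict Dom : Measure V) := by
    constructor
    rw [Measure.restrict_apply_univ]
    exact dom_lt_top
  set F : ℝ → V → ℝ := fun t y => g y (N * ph θ y + t) with hF
  have hFc : Continuous (Function.uncurry F) :=
    hgc.comp (f := fun z : ℝ × V => ((z.2, N * ph θ z.2 + z.1) : V × ℝ)) (by fun_prop)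
  have hint : Integrable (Function.uncurry F)
      ((volume.restrict (Ioc 0 (2 * Real.pi))).prod (volume.restrict Dom)) :=
    Integrable.of_bound (C := s) hFc.aestronglyMeasurable
      (Eventually.of_forall fun z => hg.bdd _ _)
  have hI : IntegrableOn (fun t => ∫ y in Dom, F t y) (Ioc 0 (2 * Real.pi)) :=
    hint.integral_prod_left
  have hI0 : ∫ t in Ioc 0 (2 * Real.pi), ∫ y in Dom, F t y = 0 := by
    rw [integral_integral_swap hint]
    have : ∀ y, ∫ t in Ioc 0 (2 * Real.pi), F t y = 0 := by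
      intro y
      simp only [hF]
      rw [hg.mean_shift]
    simp only [this, integral_zero]
  refine abs_le_of_average hI hI0 fun t ht => ?_
  set c := t / N with hc
  have hc0 : 0 ≤ c := div_nonneg ht.1.le hN.le
  have hcN : N * c = t := by rw [hc]; field_simp
  have hcle : c ≤ 2 * Real.pi / N := div_le_div_of_nonneg_right ht.2 hN.le
  have hp0 : Periodic3 (fun x => g x (N * ph θ x)) := by
    have := hp 0
    simpa using this
  have e1 : ∫ x in Dom, g x (N * ph θ x) = ∫ x in Dom, g (x + c • η) (N * ph θ x + t) := by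
    rw [← integral_translate hp0 (c • η)]
    congr 1
    funext y
    rw [ph_add, ph_smul, hη1, mul_one, mul_add, hcN]
  have cA : Continuous (fun y => g (y + c • η) (N * ph θ y + t)) :=
    hgc.comp (f := fun y : V => ((y + c • η, N * ph θ y + t) : V × ℝ)) (by fun_prop)
  have cB : Continuous (fun y => g y (N * ph θ y + t)) :=
    hgc.comp (f := fun y : V => ((y, N * ph θ y + t) : V × ℝ)) (by fun_prop)
  have i0 : Integrable (fun y => g (y + c • η) (N * ph θ y + t)) (volume.restrict Dom) :=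
    Integrable.of_bound (C := s) cA.aestronglyMeasurable
      (Eventually.of_forall fun z => hg.bdd _ _)
  have i1 : Integrable (fun y => F t y) (volume.restrict Dom) :=
    Integrable.of_bound (C := s) cB.aestronglyMeasurable
      (Eventually.of_forall fun z => hg.bdd _ _)
  rw [e1, ← integral_sub i0 i1]
  have h2 := norm_setIntegral_le_of_norm_le_const (μ := volume) (s := Dom) dom_lt_top
    (f := fun y => g (y + c • η) (N * ph θ y + t) - F t y) (C := Λ * c) (fun y _ => by
      simp only [hF, Real.norm_eq_abs]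
      refine (hg.lip _ _ _).trans ?_
      rw [add_sub_cancel_left, norm_smul, Real.norm_eq_abs, abs_of_nonneg hc0]
      have : c * ‖η‖ ≤ c * 1 := by gcongr
      nlinarith)
  rw [Real.norm_eq_abs] at h2
  refine h2.trans ?_
  rw [Measure.real]
  calc Λ * c * (volume Dom).toReal ≤ Λ * (2 * Real.pi / N) * (volume Dom).toReal := by gcongr
    _ = (volume Dom).toReal * (2 * Real.pi) * (Λ / N) := by ring

end Pool.Agent.K3h70.EB
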