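import Pool.Agent.K3h70.EB.Tail
import Pool.Agent.K3h70.EB.Defs

/-!
# The `L²` norm is controlled by the norm of `B⁰_(∞,2)`
-/

set_option autoImplicit false

open MeasureTheory Set Filter Topology
open scoped ENNReal ContDiff ComplexConjugate

namespace Pool.Agent.K3h70.EB

open Pool.Agent.H708R2.EulerSign
open Pool.Agent.H708R2.EulerModes
open Pool.Agent.Y302.Tri (cf vi vi_pos cf_eq parseval)

/-- The not normalised Fourier coefficient. -/
noncomputable def cx (g : V → ℝ) (k : Fin 3 → ℤ) : ℂ :=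
  ∫ x in Dom, (g x : ℂ) * Complex.exp (-Complex.I * (ph k x : ℂ))

lemma exp_eq (a : ℝ) : Complex.exp (-Complex.I * (a : ℂ)) = Real.cos a - Real.sin a * Complex.I := by
  have e1 : -Complex.I * (a : ℂ) = ((-a : ℝ) : ℂ) * Complex.I := by push_cast; ring
  rw [e1, Complex.exp_mul_I, ← Complex.ofReal_cos, ← Complex.ofReal_sin, Real.cos_neg,
    Real.sin_neg]
  push_cast
  ring

lemma norm_exp_eq (a : ℝ) : ‖Complex.exp (-Complex.I * (a : ℂ))‖ = 1 := by
  have e1 : -Complex.I * (a : ℂ) = ((-a : ℝ) : ℂ) * Complex.I := by push_cast; ring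
  rw [e1, Complex.norm_exp_ofReal_mul_I]

lemma cf_cx {g : V → ℝ} (hp : Periodic3 g) (hc : Continuous g) (k : Fin 3 → ℤ) :
    cf g k = (vi : ℂ) * cx g k := by
  rw [cf_eq hp hc]
  congr 1
  unfold cx
  have ic : IntegrableOn (fun x => g x * Real.cos (ph k x)) Dom := by
    refine H708R2.EulerSign.Periodic3.integrableOn ?_
      (hc.mul (Real.continuous_cos.comp (ph_contDiff k).continuous))
    intro j x
    have := cos_periodic k j x
    simp only at this ⊢
    rw [this, hp j x]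
  have is : IntegrableOn (fun x => g x * Real.sin (ph k x)) Dom := by
    refine H708R2.EulerSign.Periodic3.integrableOn ?_
      (hc.mul (Real.continuous_sin.comp (ph_contDiff k).continuous))
    intro j x
    have := sin_periodic k j x
    simp only at this ⊢
    rw [this, hp j x]
  have e : ∀ x, (g x : ℂ) * Complex.exp (-Complex.I * (ph k x : ℂ))
      = ((g x * Real.cos (ph k x) : ℝ) : ℂ) - ((g x * Real.sin (ph k x) : ℝ) : ℂ) * Complex.I := by
    intro x
    rw [exp_eq]
    push_cast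
    ring
  simp only [e]
  rw [integral_sub ic.ofReal (is.ofReal.mul_const _), integral_mul_const, integral_complex_ofReal,
    integral_complex_ofReal]

lemma cv_continuous {ρ : V → ℝ} {M : ℝ} (hρ : Ker ρ M) {g : V → ℝ} (hg : Bdc g) (δ : ℝ) :
    Continuous (cv ρ δ g) := by
  obtain ⟨hc, B, hB⟩ := hg
  unfold cv
  refine continuous_of_dominated (bound := fun y => |ρ y| * B) (fun x => ?_) (fun x => ?_)
    (hρ.int.abs.mul_const B) ?_
  · have := hρ.cont
    exact Continuous.aestronglyMeasurable (by fun_prop)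
  · refine Eventually.of_forall fun y => ?_
    rw [norm_mul, Real.norm_eq_abs, Real.norm_eq_abs]
    exact mul_le_mul_of_nonneg_left (hB _) (abs_nonneg _)
  · refine Eventually.of_forall fun y => ?_
    fun_prop

lemma cv_periodic {ρ : V → ℝ} {g : V → ℝ} (hg : Periodic3 g) (δ : ℝ) :
    Periodic3 (cv ρ δ g) := by
  intro i x
  unfold cv
  congr 1
  funext y
  have e : x + Pi.single i (2 * Real.pi) - δ • y = x - δ • y + Pi.single i (2 * Real.pi) := by abel
  rw [e, hg]

/-- The Fourier coefficients of the convolution. -/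
lemma cx_cv {ρ : V → ℝ} {M : ℝ} (hρ : Ker ρ M) {g : V → ℝ} (hc : Continuous g)
    (hp : Periodic3 g) (δ : ℝ) (k : Fin 3 → ℤ) :
    cx (cv ρ δ g) k = ft ρ (fun i => δ * (k i : ℝ)) * cx g k := by
  obtain ⟨B, hB0, hB⟩ := hp.bounded hc
  have hfin : IsFiniteMeasure (volume.restrict Dom : Measure V) := by
    constructor
    rw [Measure.restrict_apply_univ]
    exact dom_lt_top
  have hphc : Continuous (ph k) := (ph_contDiff k).continuous
  set e : V → ℂ := fun x => Complex.exp (-Complex.I * (ph k x : ℂ)) with he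
  have hec : Continuous e := by
    rw [he]
    fun_prop
  have hen : ∀ x, ‖e x‖ = 1 := fun x => norm_exp_eq _
  have hea : ∀ x y : V, e (x + y) = e x * e y := by
    intro x y
    simp only [he]
    rw [ph_add, ← Complex.exp_add]
    congr 1
    push_cast
    ring
  set F : V → V → ℂ := fun x y => (ρ y : ℂ) * (g (x - δ • y) : ℂ) * e x with hF
  have hint : Integrable (Function.uncurry F)
      ((volume.restrict Dom).prod (volume : Measure V)) := by
    have h1 : Integrable (fun z : V × V => ((ρ z.2 : ℝ) : ℂ))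
        ((volume.restrict Dom).prod (volume : Measure V)) := by
      have := (integrable_const (1 : ℝ) (μ := volume.restrict Dom)).mul_prod hρ.int
      simp only [one_mul] at this
      exact this.ofReal
    have h2 : Continuous (fun z : V × V => (g (z.1 - δ • z.2) : ℂ) * e z.1) := by fun_prop
    have h3 := h1.mul_bdd (c := B) h2.aestronglyMeasurable
      (Eventually.of_forall fun z => by
        rw [norm_mul, hen, mul_one, Complex.norm_real]; exact hB _)
    refine h3.congr (Eventually.of_forall fun z => ?_)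
    simp only [hF, Function.uncurry]
    ring
  have e1 : cx (cv ρ δ g) k = ∫ x in Dom, ∫ y, F x y := by
    unfold cx cv
    congr 1
    funext x
    have : ((∫ y, ρ y * g (x - δ • y) : ℝ) : ℂ) = ∫ y, (ρ y : ℂ) * (g (x - δ • y) : ℂ) := by
      rw [← integral_complex_ofReal]
      congr 1
      funext y
      push_cast
      rfl
    rw [this, ← integral_mul_const]
  rw [e1, integral_integral_swap hint]
  have e2 : ∀ y, ∫ x in Dom, F x y = (ρ y : ℂ) * e (δ • y) * cx g k := by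
    intro y
    have hper : Periodic3 (fun x => (g x : ℂ) * e x) := by
      intro i x
      simp only
      rw [hp i x, hea]
      have : e (Pi.single i (2 * Real.pi)) = 1 := by
        simp only [he]
        rw [ph_single, exp_eq, Real.cos_int_mul_two_pi, Real.sin_eq_zero_iff.2 ⟨2 * k i, by
          push_cast; ring⟩]
        simp
      rw [this, mul_one]
    have h1 := integral_translate hper (-(δ • y))
    have h2 : ∀ x, F x y = (ρ y : ℂ) * e (δ • y) * ((g (x + -(δ • y)) : ℂ) * e (x + -(δ • y))) := by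
      intro x
      simp only [hF]
      have h3 : e x = e (x + -(δ • y)) * e (δ • y) := by
        rw [← hea]
        congr 1
        abel
      rw [← sub_eq_add_neg] at h3 ⊢
      rw [h3]
      ring
    simp only [h2]
    rw [integral_const_mul, h1]
    rfl
  simp only [e2]
  rw [integral_mul_const]
  congr 1
  unfold ft
  congr 1
  funext y
  simp only [he]
  congr 3
  unfold ph
  push_cast
  refine Finset.sum_congr rfl fun i _ => ?_
  simp only [Pi.smul_apply, smul_eq_mul]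
  push_cast
  ring

/-- Bessel's inequality. -/
lemma cf_bessel {g : V → ℝ} (hc : Continuous g) (hp : Periodic3 g) {D : ℝ}
    (hD : ∀ x, |g x| ≤ D) (F : Finset (Fin 3 → ℤ)) : ∑ k ∈ F, ‖cf g k‖ ^ 2 ≤ D ^ 2 := by
  have h2 := parseval hp hc hp hc
  have h3 := Complex.hasSum_re h2
  rw [Complex.ofReal_re] at h3
  have h4 : HasSum (fun k => ‖cf g k‖ ^ 2) (vi * ∫ x in Dom, g x * g x) := by
    refine h3.congr_fun fun k => ?_
    rw [← Complex.normSq_eq_conj_mul_self, Complex.ofReal_re, Complex.normSq_eq_norm_sq]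
  have h5 := sum_le_hasSum F (fun k _ => sq_nonneg _) h4
  refine h5.trans ?_
  have hD0 : 0 ≤ D := (abs_nonneg _).trans (hD 0)
  have h6 := norm_setIntegral_le_of_norm_le_const (μ := volume) (s := Dom) dom_lt_top
    (f := fun x => g x * g x) (C := D ^ 2) (fun x _ => by
      rw [norm_mul, Real.norm_eq_abs, sq]
      exact mul_le_mul (hD x) (hD x) (abs_nonneg _) hD0)
  have h7 : (∫ x in Dom, g x * g x) ≤ D ^ 2 * (volume Dom).toReal := (le_abs_self _).trans h6
  have hv : 0 < (volume Dom).toReal := vol_pos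
  calc vi * ∫ x in Dom, g x * g x ≤ vi * (D ^ 2 * (volume Dom).toReal) :=
        mul_le_mul_of_nonneg_left h7 vi_pos.le
    _ = D ^ 2 := by rw [vi_eq_inv]; field_simp

/-- The lower bound. -/
theorem lower {χ ψ : V → ℝ} {M : ℝ} (hχ : Ker χ M) (hψ : Ker ψ M) {c : ℝ} (_hc0 : 0 < c)
    (hLP : ∀ k : Fin 3 → ℤ, ∃ Q : ℕ, c ≤ ‖ft χ (fun i => (k i : ℝ))‖ ^ 2
      + ∑ q ∈ Finset.range Q, ‖ft ψ (fun i => (1 / 2) ^ q * (k i : ℝ))‖ ^ 2)
    {g : V → ℝ} (hc : Continuous g) (hp : Periodic3 g) {X : ℝ} {D : ℕ → ℝ} {S : ℝ}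
    (hX : ∀ x, |cv χ 1 g x| ≤ X) (hD : ∀ q x, |cv ψ ((1 / 2) ^ q) g x| ≤ D q)
    (hS : ∀ Q, X ^ 2 + ∑ q ∈ Finset.range Q, D q ^ 2 ≤ S) :
    c * (vi * ∫ x in Dom, g x ^ 2) ≤ S := by
  obtain ⟨B, hB0, hB⟩ := hp.bounded hc
  have hb : Bdc g := ⟨hc, B, hB⟩
  have h2 := parseval hp hc hp hc
  have h3 := Complex.hasSum_re h2
  rw [Complex.ofReal_re] at h3
  have h4 : HasSum (fun k => ‖cf g k‖ ^ 2) (vi * ∫ x in Dom, g x ^ 2) := by
    have e : (∫ x in Dom, g x ^ 2) = ∫ x in Dom, g x * g x := by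
      congr 1; funext x; ring
    rw [e]
    refine h3.congr_fun fun k => ?_
    rw [← Complex.normSq_eq_conj_mul_self, Complex.ofReal_re, Complex.normSq_eq_norm_sq]
  have h5 : HasSum (fun k => c * ‖cf g k‖ ^ 2) (c * (vi * ∫ x in Dom, g x ^ 2)) := h4.mul_left c
  refine le_of_tendsto h5 (Eventually.of_forall fun F => ?_)
  choose Qf hQf using hLP
  obtain ⟨Q, hQ⟩ : ∃ Q, ∀ k ∈ F, Qf k ≤ Q := by
    refine ⟨∑ k ∈ F, Qf k, fun k hk => ?_⟩
    exact Finset.single_le_sum (f := Qf) (fun _ _ => Nat.zero_le _) hk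
  have hconv : ∀ {ρ : V → ℝ}, Ker ρ M → ∀ δ k, ‖cf (cv ρ δ g) k‖ ^ 2
      = ‖ft ρ (fun i => δ * (k i : ℝ))‖ ^ 2 * ‖cf g k‖ ^ 2 := by
    intro ρ hρ δ k
    rw [cf_cx (cv_periodic hp δ) (cv_continuous hρ hb δ), cx_cv hρ hc hp, cf_cx hp hc, norm_mul,
      norm_mul, norm_mul]
    ring
  have h6 : ∀ k ∈ F, c * ‖cf g k‖ ^ 2 ≤ ‖cf (cv χ 1 g) k‖ ^ 2
      + ∑ q ∈ Finset.range Q, ‖cf (cv ψ ((1 / 2) ^ q) g) k‖ ^ 2 := by
    intro k hk
    have h7 : c ≤ ‖ft χ (fun i => (k i : ℝ))‖ ^ 2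
        + ∑ q ∈ Finset.range Q, ‖ft ψ (fun i => (1 / 2) ^ q * (k i : ℝ))‖ ^ 2 := by
      refine (hQf k).trans ?_
      gcongr
      exact hQ k hk
    have h8 := mul_le_mul_of_nonneg_right h7 (sq_nonneg ‖cf g k‖)
    refine h8.trans (le_of_eq ?_)
    rw [hconv hχ 1 k, add_mul, Finset.sum_mul]
    congr 1
    · simp only [one_mul]
    · exact Finset.sum_congr rfl fun q _ => (hconv hψ _ k).symm
  calc ∑ k ∈ F, c * ‖cf g k‖ ^ 2 ≤ ∑ k ∈ F, (‖cf (cv χ 1 g) k‖ ^ 2
      + ∑ q ∈ Finset.range Q, ‖cf (cv ψ ((1 / 2) ^ q) g) k‖ ^ 2) := Finset.sum_le_sum h6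
    _ = ∑ k ∈ F, ‖cf (cv χ 1 g) k‖ ^ 2
      + ∑ q ∈ Finset.range Q, ∑ k ∈ F, ‖cf (cv ψ ((1 / 2) ^ q) g) k‖ ^ 2 := by
        rw [Finset.sum_add_distrib, Finset.sum_comm]
    _ ≤ X ^ 2 + ∑ q ∈ Finset.range Q, D q ^ 2 := by
        refine add_le_add (cf_bessel (cv_continuous hχ hb 1) (cv_periodic hp 1) hX F)
          (Finset.sum_le_sum fun q _ => ?_)
        exact cf_bessel (cv_continuous hψ hb _) (cv_periodic hp _) (hD q) F
    _ ≤ S := hS Q

end Pool.Agent.K3h70.EB
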