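import Pool.Agent.Y302.Tri.Uniq
import Pool.Agent.H708R2.EulerTypeI.Exist

/-!
# Stability in `L²` of classical solutions
-/

set_option autoImplicit false

open MeasureTheory Set Filter Topology
open scoped ENNReal ContDiff

namespace Pool.Agent.K3h70.EB

open Pool.Agent.H708R2.EulerSign (V Periodic3 Dom divergence grad sum_mul_clm sum_mul_clm'
  divergence_eq_sum contDiff_slice sq3 sq3_nonneg sq3_eq_zero sq3_contDiff hasFDerivAt_sq3
  quad_bound divergence_smul dom_bdd dom_meas dom_lt_top integral_divergence_eq_zero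
  eq_zero_of_integral_eq_zero continuous_grad IsClassicalSolution)
open Pool.Agent.Y302.Tri (Base lin en dS int_dS en_hasDerivAt en_continuousOn en_nonneg)

variable {T : ℝ} {w u : ℝ → V → V} {q p : ℝ → V → ℝ}

lemma base_of_classical (h : IsClassicalSolution (Ico 0 T) u p) : Base (Ico 0 T) u p :=
  ⟨h.contDiffOn_u, h.contDiffOn_p, h.periodic_u, h.periodic_p, h.div_free⟩

lemma lin_of_classical (h : IsClassicalSolution (Ico 0 T) u p) {t : ℝ} (ht : t ∈ Ico 0 T)
    (i : Fin 3) (x : V) : lin (Ico 0 T) u p t i x = -(fderiv ℝ (u t) x (u t x) i) := by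
  have := h.momentum t ht x i
  rw [sum_mul_clm] at this
  unfold lin
  linarith

/-- The rate of change of the distance of two classical solutions in `L²`. -/
lemma en_rate (hw : IsClassicalSolution (Ico 0 T) w q) (hu : IsClassicalSolution (Ico 0 T) u p)
    {K : ℝ} {t : ℝ} (ht : t ∈ Ioo 0 T) (hK : ∀ x i j, |grad (u t) x i j| ≤ K) :
    |∫ x in Dom, dS w u t x| ≤ 6 * K * en w u t := by
  have htI : t ∈ Ico 0 T := ⟨ht.1.le, ht.2⟩
  have hwt : ContDiff ℝ 1 (w t) := contDiff_slice hw.contDiffOn_u htI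
  have hut : ContDiff ℝ 1 (u t) := contDiff_slice hu.contDiffOn_u htI
  have hW : ContDiff ℝ 1 (fun y => w t y - u t y) := hwt.sub hut
  have hWp : Periodic3 (fun y => w t y - u t y) := by
    intro i x
    simp only
    rw [hw.periodic_u t htI i x, hu.periodic_u t htI i x]
  have g1 : ContDiff ℝ 1 (fun y => sq3 (w t y - u t y) • w t y) :=
    (sq3_contDiff.comp hW).smul hwt
  have g1p : Periodic3 (fun y => sq3 (w t y - u t y) • w t y) := by
    intro i x
    simp only
    rw [hw.periodic_u t htI i x, hu.periodic_u t htI i x]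
  set Rm : V → ℝ := fun x => ∑ i, 2 * (w t x - u t x) i * fderiv ℝ (u t) x (w t x - u t x) i
    with hRm
  have hRc : Continuous Rm := by
    have hf : Continuous (fun x => fderiv ℝ (u t) x (w t x - u t x)) :=
      (hut.continuous_fderiv one_ne_zero).clm_apply hW.continuous
    refine continuous_finsetSum _ fun i _ => ?_
    exact (continuous_const.mul ((continuous_apply i).comp hW.continuous)).mul
      ((continuous_apply i).comp hf)
  have hRp : Periodic3 Rm := by
    intro i x
    simp only [hRm]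
    rw [hw.periodic_u t htI i x, hu.periodic_u t htI i x, (hu.periodic_u t htI).fderiv i x]
  have i1 : IntegrableOn (fun x => divergence (fun y => sq3 (w t y - u t y) • w t y) x) Dom :=
    g1p.trace.integrableOn (continuous_grad g1).matrix_trace
  have iR : IntegrableOn Rm Dom := hRp.integrableOn hRc
  -- the integrand of `int_dS`
  have key : ∀ x, ∑ i, 2 * ((w t x i - u t x i)
        * (lin (Ico 0 T) w q t i x - lin (Ico 0 T) u p t i x))
      = -divergence (fun y => sq3 (w t y - u t y) • w t y) x - Rm x := by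
    intro x
    have dw : DifferentiableAt ℝ (w t) x := hwt.differentiable one_ne_zero x
    have du : DifferentiableAt ℝ (u t) x := hut.differentiable one_ne_zero x
    have hSd : HasFDerivAt (fun y => sq3 (w t y - u t y))
        ((∑ i, (2 * (w t x - u t x) i) • (ContinuousLinearMap.proj i : V →L[ℝ] ℝ)) ∘L
          (fderiv ℝ (w t) x - fderiv ℝ (u t) x)) x :=
      HasFDerivAt.comp (g := sq3) (f := fun y => w t y - u t y) x
        (hasFDerivAt_sq3 (w t x - u t x)) (dw.hasFDerivAt.sub du.hasFDerivAt)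
    rw [divergence_smul hSd.differentiableAt dw, hSd.fderiv, hw.div_free t htI]
    have hlin : ∀ i, fderiv ℝ (u t) x (w t x - u t x) i
        = fderiv ℝ (u t) x (w t x) i - fderiv ℝ (u t) x (u t x) i := by
      intro i; rw [map_sub]; rfl
    simp only [lin_of_classical hw htI, lin_of_classical hu htI, hRm, hlin,
      ContinuousLinearMap.comp_apply, sum_apply,
      smul_apply, sub_apply, ContinuousLinearMap.proj_apply,
      Pi.sub_apply, smul_eq_mul, mul_zero, zero_add, ← Finset.sum_neg_distrib,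
      ← Finset.sum_sub_distrib]
    refine Finset.sum_congr rfl fun i _ => ?_
    ring
  have hXi : ∀ i, IntegrableOn (fun x => (w t x i - u t x i)
        * (lin (Ico 0 T) w q t i x - lin (Ico 0 T) u p t i x)) Dom := by
    intro i
    have hc : Continuous (fun x => (w t x i - u t x i)
        * (lin (Ico 0 T) w q t i x - lin (Ico 0 T) u p t i x)) :=
      (((continuous_apply i).comp hwt.continuous).sub
        ((continuous_apply i).comp hut.continuous)).mul
      ((Y302.Tri.lin_continuous (base_of_classical hw) ht i).sub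
        (Y302.Tri.lin_continuous (base_of_classical hu) ht i))
    refine Periodic3.integrableOn ?_ hc
    intro j x
    simp only
    rw [hw.periodic_u t htI j x, hu.periodic_u t htI j x,
      Y302.Tri.lin_periodic (base_of_classical hw) htI i j x,
      Y302.Tri.lin_periodic (base_of_classical hu) htI i j x]
  have e1 : ∫ x in Dom, dS w u t x = -∫ x in Dom, Rm x := by
    rw [int_dS (base_of_classical hw) (base_of_classical hu) ht]
    have e2 : ∑ i, 2 * ∫ x in Dom, (w t x i - u t x i)
        * (lin (Ico 0 T) w q t i x - lin (Ico 0 T) u p t i x)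
        = ∫ x in Dom, ∑ i, 2 * ((w t x i - u t x i)
        * (lin (Ico 0 T) w q t i x - lin (Ico 0 T) u p t i x)) := by
      rw [integral_finsetSum _ fun i _ => (hXi i).const_mul 2]
      exact Finset.sum_congr rfl fun i _ => (integral_const_mul _ _).symm
    rw [e2]
    simp_rw [key]
    have i1' : IntegrableOn
        (fun x => -divergence (fun y => sq3 (w t y - u t y) • w t y) x) Dom := i1.neg
    have e3 : ∫ x in Dom, (-divergence (fun y => sq3 (w t y - u t y) • w t y) x - Rm x)
        = (∫ x in Dom, -divergence (fun y => sq3 (w t y - u t y) • w t y) x)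
          - ∫ x in Dom, Rm x := integral_sub i1' iR
    rw [e3, integral_neg, integral_divergence_eq_zero g1 g1p]
    simp
  rw [e1, abs_neg]
  have hpt : ∀ x, ‖Rm x‖ ≤ 6 * K * sq3 (w t x - u t x) := fun x =>
    quad_bound (L := fderiv ℝ (u t) x) (fun i j => hK x i j) (w t x - u t x)
  have iS : IntegrableOn (fun x => 6 * K * sq3 (w t x - u t x)) Dom := by
    have : Periodic3 (fun x => sq3 (w t x - u t x)) := by
      intro i x
      simp only
      rw [hw.periodic_u t htI i x, hu.periodic_u t htI i x]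
    exact (this.integrableOn ((sq3_contDiff (n := 1)).comp hW).continuous).const_mul (6 * K)
  have := norm_integral_le_of_norm_le iS (Filter.Eventually.of_forall hpt)
  rw [integral_const_mul] at this
  exact this

/-- Stability in `L²`. -/
theorem en_stab (hw : IsClassicalSolution (Ico 0 T) w q) (hu : IsClassicalSolution (Ico 0 T) u p)
    {K b : ℝ} (hK : ∀ t ∈ Icc 0 b, ∀ x i j, |grad (u t) x i j| ≤ K) (hb0 : 0 ≤ b) (hb : b < T) :
    en w u b ≤ Real.exp (6 * K * b) * en w u 0 := by
  have hsub : Icc 0 b ⊆ Ico 0 T := Icc_subset_Ico_right hb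
  have hcont := (en_continuousOn (base_of_classical hw) (base_of_classical hu)).mono hsub
  have hanti : AntitoneOn (fun s => en w u s * Real.exp (-(6 * K) * s)) (Icc 0 b) := by
    have hder : ∀ s ∈ interior (Icc 0 b), HasDerivAt
        (fun s => en w u s * Real.exp (-(6 * K) * s))
        ((∫ x in Dom, dS w u s x) * Real.exp (-(6 * K) * s)
          + en w u s * (Real.exp (-(6 * K) * s) * (-(6 * K) * 1))) s := by
      intro s hs
      rw [interior_Icc] at hs
      have hs' : s ∈ Ioo 0 T := ⟨hs.1, hs.2.trans hb⟩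
      exact (en_hasDerivAt (base_of_classical hw) (base_of_classical hu) hs').mul
        (((hasDerivAt_id s).const_mul (-(6 * K))).exp)
    refine antitoneOn_of_deriv_nonpos (convex_Icc _ _) ?_ ?_ ?_
    · exact hcont.mul (by fun_prop)
    · intro s hs
      exact (hder s hs).differentiableAt.differentiableWithinAt
    · intro s hs
      rw [(hder s hs).deriv]
      rw [interior_Icc] at hs
      have hs' : s ∈ Ioo 0 T := ⟨hs.1, hs.2.trans hb⟩
      have h1 := (abs_le.1 (en_rate hw hu hs' (hK s ⟨hs.1.le, hs.2.le⟩))).2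
      have h2 : 0 < Real.exp (-(6 * K) * s) := Real.exp_pos _
      nlinarith
  have h1 := hanti ⟨le_rfl, hb0⟩ ⟨hb0, le_rfl⟩ hb0
  simp only [mul_zero, Real.exp_zero, mul_one] at h1
  have h2 : 0 < Real.exp (-(6 * K) * b) := Real.exp_pos _
  have h3 : Real.exp (6 * K * b) * Real.exp (-(6 * K) * b) = 1 := by
    rw [← Real.exp_add]; simp
  have h4 : 0 < Real.exp (6 * K * b) := Real.exp_pos _
  calc en w u b = Real.exp (6 * K * b) * (en w u b * Real.exp (-(6 * K) * b)) := by
        rw [mul_comm (en w u b), ← mul_assoc, h3, one_mul]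
    _ ≤ Real.exp (6 * K * b) * en w u 0 := mul_le_mul_of_nonneg_left h1 h4.le

/-- Steady solutions are not close in `L²` to the initial value of a solution which is not
steady. -/
theorem steady_far (hu : IsClassicalSolution (Ico 0 T) u p) {t₁ : ℝ} (ht₁ : t₁ ∈ Ico 0 T)
    (hne : u t₁ ≠ u 0) : ∃ ε : ℝ, 0 < ε ∧ ∀ (v : V → V) (q : ℝ → V → ℝ),
      IsClassicalSolution (Ico 0 T) (fun _ => v) q → ε ≤ ∫ x in Dom, sq3 (v x - u 0 x) := by
  have hT : 0 < T := ht₁.1.trans_lt ht₁.2
  have h0 : (0 : ℝ) ∈ Ico 0 T := ⟨le_rfl, hT⟩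
  obtain ⟨K, hK0, hK⟩ := Pool.Agent.H708R2.EulerTypeI.grad_bound hu ht₁.2
  have c1 : ContDiff ℝ 1 (u t₁) := contDiff_slice hu.contDiffOn_u ht₁
  have c0 : ContDiff ℝ 1 (u 0) := contDiff_slice hu.contDiffOn_u h0
  set E₁ := ∫ x in Dom, sq3 (u t₁ x - u 0 x) with hE₁
  have hper : ∀ {a b : V → V}, Periodic3 a → Periodic3 b → Periodic3 (fun x => sq3 (a x - b x)) := by
    intro a b ha hb i x
    simp only
    rw [ha i x, hb i x]
  have hcon : ∀ {a b : V → V}, ContDiff ℝ 1 a → ContDiff ℝ 1 b →
      Continuous (fun x => sq3 (a x - b x)) := fun ha hb =>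
    ((sq3_contDiff (n := 1)).comp (ha.sub hb)).continuous
  have hE₁pos : 0 < E₁ := by
    refine lt_of_le_of_ne (integral_nonneg fun x => sq3_nonneg _) fun h => hne ?_
    have hz := eq_zero_of_integral_eq_zero (hper (hu.periodic_u t₁ ht₁) (hu.periodic_u 0 h0))
      (hcon c1 c0) (fun x => sq3_nonneg _) h.symm
    funext x
    exact sub_eq_zero.1 (sq3_eq_zero (hz x))
  set C := Real.exp (6 * K * t₁) with hC
  have hC0 : 0 < C := Real.exp_pos _
  refine ⟨E₁ / (2 * (C + 1)), by positivity, fun v q hv => ?_⟩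
  have cv : ContDiff ℝ 1 v := contDiff_slice (f := fun _ => v) hv.contDiffOn_u h0
  have pv : Periodic3 v := hv.periodic_u 0 h0
  have h1 := en_stab hv hu hK ht₁.1 ht₁.2
  have i1 : IntegrableOn (fun x => sq3 (v x - u t₁ x)) Dom :=
    (hper pv (hu.periodic_u t₁ ht₁)).integrableOn (hcon cv c1)
  have i2 : IntegrableOn (fun x => sq3 (v x - u 0 x)) Dom :=
    (hper pv (hu.periodic_u 0 h0)).integrableOn (hcon cv c0)
  have i3 : IntegrableOn (fun x => sq3 (u t₁ x - u 0 x)) Dom :=
    (hper (hu.periodic_u t₁ ht₁) (hu.periodic_u 0 h0)).integrableOn (hcon c1 c0)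
  have h2 : E₁ ≤ ∫ x in Dom, (2 * sq3 (v x - u t₁ x) + 2 * sq3 (v x - u 0 x)) := by
    refine integral_mono i3 ((i1.const_mul 2).add (i2.const_mul 2)) fun x => ?_
    simp only [sq3, Fin.sum_univ_three, Pi.sub_apply]
    nlinarith [sq_nonneg ((v x 0 - u t₁ x 0) + (v x 0 - u 0 x 0)),
      sq_nonneg ((v x 1 - u t₁ x 1) + (v x 1 - u 0 x 1)),
      sq_nonneg ((v x 2 - u t₁ x 2) + (v x 2 - u 0 x 2))]
  have h3 : ∫ x in Dom, (2 * sq3 (v x - u t₁ x) + 2 * sq3 (v x - u 0 x))
      = 2 * (∫ x in Dom, sq3 (v x - u t₁ x)) + 2 * ∫ x in Dom, sq3 (v x - u 0 x) := by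
    rw [integral_add (i1.const_mul 2) (i2.const_mul 2), integral_const_mul, integral_const_mul]
  rw [h3] at h2
  have h4 : (∫ x in Dom, sq3 (v x - u t₁ x)) ≤ C * ∫ x in Dom, sq3 (v x - u 0 x) := h1
  rw [div_le_iff₀ (by positivity)]
  nlinarith

end Pool.Agent.K3h70.EB
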