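import Pool.Agent.K3h70.EB.Lower
import Pool.Agent.K3h70.EB.Stab

/-!
# Density of steady flows in `B⁰_(∞,r)` for `r > 2`, and its failure for `r ≤ 2`
-/

set_option autoImplicit false

open MeasureTheory Set Filter Topology
open scoped ENNReal ContDiff SchwartzMap

namespace Pool.Agent.K3h70.EB

open Pool.Agent.H708R2.EulerSign
open Pool.Agent.H708R2.EulerModes
open Pool.Agent.Y302.Tri (cf vi vi_pos vi_eq cf_eq HB)

lemma coeff_eq {g : V → ℝ} (hp : Periodic3 g) (hc : Continuous g) (k : Fin 3 → ℤ) :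
    coeff g k = cf g k := by
  rw [cf_cx hp hc, coeff, cx]
  have hper : Periodic3 (fun x => (g x : ℂ) * Complex.exp (-Complex.I * (ph k x : ℂ))) := by
    intro i x
    simp only
    rw [hp i x]
    congr 1
    rw [exp_eq, exp_eq]
    have h1 := cos_periodic k i x
    have h2 := sin_periodic k i x
    simp only at h1 h2
    rw [h1, h2]
  rw [integral_cube hper, vi_eq]
  push_cast
  rw [div_eq_inv_mul]

lemma hb_of_isHm {m : ℕ} (hm : 3 ≤ m) {u : V → V} (h : IsHm m u) :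
    ∃ B, HB (Y302.Tri.cv u) B := by
  obtain ⟨B, hB⟩ := h.sobolev
  refine ⟨B, fun F => le_trans (Finset.sum_le_sum fun k _ => ?_) (hB F)⟩
  have h1 : ∀ i, coeff (fun x => u x i) k = Y302.Tri.cv u i k := fun i =>
    coeff_eq (comp_periodic h.per i) ((continuous_apply i).comp h.cont) k
  simp only [h1]
  refine mul_le_mul_of_nonneg_right ?_ (Finset.sum_nonneg fun i _ => sq_nonneg _)
  have h2 : (1 : ℝ) ≤ 1 + ∑ j, (k j : ℝ) ^ 2 := by
    have : 0 ≤ ∑ j, (k j : ℝ) ^ 2 := Finset.sum_nonneg fun _ _ => sq_nonneg _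
    linarith
  exact pow_le_pow_right₀ h2 hm

lemma conv_apply {ρ : V → ℝ} {M : ℝ} (hρ : Ker ρ M) {w : V → V} (hw : ∀ i, Bdc (fun x => w x i))
    (δ : ℝ) (x : V) (i : Fin 3) : conv ρ δ w x i = cv ρ δ (fun x => w x i) x := by
  unfold conv cv
  rw [MeasureTheory.eval_integral]
  · rfl
  · intro j
    exact (hw j).int hρ δ x

/-- From the components to the norm. -/
lemma besov_le {χ ψ : 𝓢(V, ℝ)} {M : ℝ} (hχ : Ker χ M) (hψ : Ker ψ M) {r η : ℝ} (hr : 1 ≤ r)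
    {w : V → V} (hb : ∀ i, Bdc (fun x => w x i))
    (h : ∀ i, Small χ ψ r η (fun x => w x i)) : besov χ ψ r w ≤ ENNReal.ofReal (4 * η) := by
  have hr0 : 0 < r := by linarith
  have hη : 0 ≤ η := (h 0).nonneg
  choose D hD0 hD hs hle using fun i => (h i).high
  have hsum : Summable (fun q => ∑ i, D i q ^ r) := summable_sum fun i _ => hs i
  have hle' : ∑' q, ∑ i, D i q ^ r ≤ 3 * η ^ r := by
    rw [Summable.tsum_finsetSum fun i _ => hs i]
    calc ∑ i, ∑' q, D i q ^ r ≤ ∑ _i : Fin 3, η ^ r := Finset.sum_le_sum fun i _ => hle i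
      _ = 3 * η ^ r := by simp
  have h1 : (⨆ x, ‖conv χ 1 w x‖ₑ) ^ r ≤ ENNReal.ofReal (η ^ r) := by
    rw [← ENNReal.ofReal_rpow_of_nonneg hη hr0.le]
    refine ENNReal.rpow_le_rpow (iSup_le fun x => ?_) hr0.le
    rw [← ofReal_norm]
    refine ENNReal.ofReal_le_ofReal ((pi_norm_le_iff_of_nonneg hη).2 fun i => ?_)
    rw [conv_apply hχ hb]
    exact (h i).low x
  have h2 : ∀ q : ℕ, (⨆ x, ‖conv ψ ((1 / 2) ^ q) w x‖ₑ) ^ r
      ≤ ENNReal.ofReal (∑ i, D i q ^ r) := by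
    intro q
    have hS : 0 ≤ ∑ i, D i q ^ r := Finset.sum_nonneg fun i _ => Real.rpow_nonneg (hD0 i q) r
    have e : ∑ i, D i q ^ r = ((∑ i, D i q ^ r) ^ (1 / r)) ^ r := by
      rw [← Real.rpow_mul hS, one_div_mul_cancel hr0.ne', Real.rpow_one]
    have hS' : 0 ≤ (∑ i, D i q ^ r) ^ (1 / r) := Real.rpow_nonneg hS _
    rw [e, ← ENNReal.ofReal_rpow_of_nonneg hS' hr0.le]
    refine ENNReal.rpow_le_rpow (iSup_le fun x => ?_) hr0.le
    rw [← ofReal_norm]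
    refine ENNReal.ofReal_le_ofReal ((pi_norm_le_iff_of_nonneg hS').2 fun i => ?_)
    rw [conv_apply hψ hb]
    refine (hD i q x).trans ?_
    have h3 : D i q ^ r ≤ ∑ i, D i q ^ r :=
      Finset.single_le_sum (f := fun i => D i q ^ r)
        (fun i _ => Real.rpow_nonneg (hD0 i q) r) (Finset.mem_univ i)
    have h4 := Real.rpow_le_rpow (Real.rpow_nonneg (hD0 i q) r) h3 (by positivity : 0 ≤ 1 / r)
    rwa [← Real.rpow_mul (hD0 i q), mul_one_div_cancel hr0.ne', Real.rpow_one] at h4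
  have h3 : ∑' q : ℕ, (⨆ x, ‖conv ψ ((1 / 2) ^ q) w x‖ₑ) ^ r ≤ ENNReal.ofReal (3 * η ^ r) := by
    refine (ENNReal.tsum_le_tsum h2).trans ?_
    rw [← ENNReal.ofReal_tsum_of_nonneg
      (fun q => Finset.sum_nonneg fun i _ => Real.rpow_nonneg (hD0 i q) r) hsum]
    exact ENNReal.ofReal_le_ofReal hle'
  unfold besov
  have h4 : (⨆ x, ‖conv χ 1 w x‖ₑ) ^ r + ∑' q : ℕ, (⨆ x, ‖conv ψ ((1 / 2) ^ q) w x‖ₑ) ^ r
      ≤ ENNReal.ofReal ((4 * η) ^ r) := by
    refine (add_le_add h1 h3).trans ?_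
    rw [← ENNReal.ofReal_add (by positivity) (by positivity)]
    refine ENNReal.ofReal_le_ofReal ?_
    rw [Real.mul_rpow (by norm_num) hη]
    have h5 : (4 : ℝ) ≤ 4 ^ r := by
      calc (4 : ℝ) = 4 ^ (1 : ℝ) := by simp
        _ ≤ 4 ^ r := Real.rpow_le_rpow_of_exponent_le (by norm_num) hr
    have h6 : 0 ≤ η ^ r := Real.rpow_nonneg hη r
    nlinarith
  have h5 := ENNReal.rpow_le_rpow h4 (by positivity : 0 ≤ 1 / r)
  rwa [← ENNReal.ofReal_rpow_of_nonneg (by positivity) hr0.le, ← ENNReal.rpow_mul,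
    mul_one_div_cancel hr0.ne', ENNReal.rpow_one] at h5

lemma Small.exp {χ ψ : V → ℝ} {r r' η : ℝ} {w : V → ℝ} (hr : 0 < r) (hrr : r ≤ r')
    (h : Small χ ψ r η w) : Small χ ψ r' η w := by
  have hη := h.nonneg
  obtain ⟨D, hD0, hD, hs, hle⟩ := h.high
  have h1 : ∀ q, D q ≤ η := by
    intro q
    have h2 : D q ^ r ≤ η ^ r :=
      (hs.le_tsum q fun j _ => Real.rpow_nonneg (hD0 j) r).trans hle
    exact (Real.rpow_le_rpow_iff (hD0 q) hη hr).1 h2
  have e : ∀ q, D q ^ r' ≤ D q ^ r * η ^ (r' - r) := by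
    intro q
    have : r' = r + (r' - r) := by ring
    nth_rewrite 1 [this]
    rw [Real.rpow_add_of_nonneg (hD0 q) hr.le (by linarith)]
    exact mul_le_mul_of_nonneg_left (Real.rpow_le_rpow (hD0 q) (h1 q) (by linarith))
      (Real.rpow_nonneg (hD0 q) r)
  have hs2 : Summable (fun q => D q ^ r * η ^ (r' - r)) := hs.mul_right _
  have hs' : Summable (fun q => D q ^ r') :=
    Summable.of_nonneg_of_le (fun q => Real.rpow_nonneg (hD0 q) r') e hs2
  refine ⟨h.low, ⟨D, hD0, hD, hs', ?_⟩, h.mean⟩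
  refine (hs'.tsum_le_tsum e hs2).trans ?_
  rw [tsum_mul_right]
  have : r' = r + (r' - r) := by ring
  nth_rewrite 2 [this]
  rw [Real.rpow_add_of_nonneg hη hr.le (by linarith)]
  exact mul_le_mul_of_nonneg_right hle (Real.rpow_nonneg hη _)

/-- **Density**, for all kernels with the constant `M`. -/
theorem density {M : ℝ} (hM : 0 ≤ M) {m : ℕ} (hm : 3 ≤ m) {u₀ : V → V}
    (hu : IsHm m u₀) (K : ℕ) {r ε : ℝ} (hr : 2 < r) (hε : 0 < ε) :
    ∃ v : V → V, ContDiff ℝ ∞ v ∧ IsClassicalSolution univ (fun _ => v) (fun _ _ => 0) ∧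
      SameModes K v u₀ ∧
      (∀ χ ψ : 𝓢(V, ℝ), Ker χ M → Ker ψ M → ∫ y, ψ y = 0 → ∀ r', r ≤ r' →
        besov χ ψ r' (fun x => v x - u₀ x) ≤ ENNReal.ofReal ε) ∧
      (∀ (T : ℝ) (w : ℝ → V → V) (q : ℝ → V → ℝ), IsClassicalSolution (Ico 0 T) w q →
        ∀ t₀ ∈ Ico 0 T, w t₀ = v → ∀ t ∈ Ico 0 T, w t = v) := by
  classical
  obtain ⟨B, hB⟩ := hb_of_isHm hm hu
  have hper := hu.per
  have hcont := hu.cont
  obtain ⟨Bu, hBu0, hBu⟩ := hper.bounded hcont
  have hL2 : MemLp u₀ 2 (volume.restrict cube) := by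
    have hcube : IsCompact (cube : Set V) := isCompact_Icc
    have hfin : IsFiniteMeasure (volume.restrict (cube : Set V)) := by
      constructor
      rw [Measure.restrict_apply_univ]
      exact hcube.measure_lt_top
    exact MemLp.of_bound hcont.aestronglyMeasurable Bu (Eventually.of_forall hBu)
  obtain ⟨K', hKK', htail⟩ := tail_small hM (by linarith : 1 ≤ r) hper hcont hB K
    (η := ε / 8) (by positivity)
  let A : (Fin 3 → ℤ) → V := fun l i => ∫ x in Dom, u₀ x i * Real.cos (ph l x)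
  let B' : (Fin 3 → ℤ) → V := fun l i => ∫ x in Dom, u₀ x i * Real.sin (ph l x)
  have hA : ∀ k ∈ Bx K', ph k (A k) = 0 := fun k _ => (ph_coeff hper hL2 hu.div_free k).1
  have hB' : ∀ k ∈ Bx K', ph k (B' k) = 0 := fun k _ => (ph_coeff hper hL2 hu.div_free k).2
  have hAs : ∀ k ∈ Bx K', A (-k) = A k := by
    intro k _
    ext i
    simp only [A, ph_neg, Real.cos_neg]
  have hBs : ∀ k ∈ Bx K', B' (-k) = -B' k := by
    intro k _
    ext i
    simp only [B', ph_neg, Real.sin_neg, mul_neg, Pi.neg_apply]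
    rw [integral_neg]
  obtain ⟨v, hvs, hvp, hvdiv, hvst, hvm, hvz⟩ := exists_flow hM hr K' A B' hA hB' hAs hBs
    (η := ε / 8) (by positivity)
  have hv1 : ContDiff ℝ 1 v := hvs.of_le (by exact_mod_cast le_top)
  have bv : ∀ i, Bdc (fun x => v x i) := by
    intro i
    obtain ⟨C, -, hC⟩ := hvp.bounded hvs.continuous
    exact ⟨(continuous_apply i).comp hvs.continuous, C, fun x =>
      (norm_le_pi_norm (v x) i).trans (hC x)⟩
  have bu : ∀ i, Bdc (fun x => u₀ x i) := fun i =>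
    ⟨(continuous_apply i).comp hcont, Bu, fun x => (norm_le_pi_norm (u₀ x) i).trans (hBu x)⟩
  have bsub : ∀ {a b : V → ℝ}, Bdc a → Bdc b → Bdc (fun x => a x - b x) := by
    rintro a b ⟨ha, Ba, hBa⟩ ⟨hb, Bb, hBb⟩
    exact ⟨ha.sub hb, Ba + Bb, fun x => (abs_sub _ _).trans (add_le_add (hBa x) (hBb x))⟩
  have hsm : ∀ i, SmallM M r (ε / 4) (fun x => v x i - u₀ x i) := by
    intro i
    obtain ⟨t1, t2⟩ := htail i
    have e1 : ∀ x, tpoly K' A B' x i = ∑ k ∈ Bx K', rt (fun x => u₀ x i) k x := fun x => rfl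
    have b1 : Bdc (fun x => v x i - tpoly K' A B' x i) := by
      have : (fun x => v x i - tpoly K' A B' x i)
          = fun x => (v x i - u₀ x i) - (-(u₀ x i - ∑ k ∈ Bx K', rt (fun x => u₀ x i) k x)) := by
        funext x
        rw [e1]
        ring
      rw [this]
      refine bsub (bsub (bv i) (bu i)) ?_
      obtain ⟨c1, c2, c3⟩ := t2
      exact ⟨c1.neg, c2, fun x => by rw [abs_neg]; exact c3 x⟩
    have t3 := t1.const_mul (-1)
    rw [abs_neg, abs_one, one_mul] at t3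
    have b3 : Bdc (fun x => -1 * (u₀ x i - ∑ k ∈ Bx K', rt (fun x => u₀ x i) k x)) := by
      obtain ⟨c1, c2, c3⟩ := t2
      exact ⟨continuous_const.mul c1, c2, fun x => by
        rw [abs_mul, abs_neg, abs_one, one_mul]; exact c3 x⟩
    have := SmallM.add (by linarith : 1 ≤ r) b1 b3 (hvz i) t3
    have e2 : (fun x => v x i - tpoly K' A B' x i
        + -1 * (u₀ x i - ∑ k ∈ Bx K', rt (fun x => u₀ x i) k x)) = fun x => v x i - u₀ x i := by
      funext x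
      rw [e1]
      ring
    rw [e2] at this
    refine this.mono (by linarith) (le_of_eq ?_)
    ring
  refine ⟨v, hvs, ?_, ?_, ?_, ?_⟩
  · refine ⟨?_, contDiffOn_const, fun t _ => hvp, fun t _ i x => rfl, fun t _ => hvdiv,
      fun t _ x i => ?_⟩
    · exact (hv1.comp contDiff_snd).contDiffOn
    · rw [derivWithin_univ, deriv_const, sum_mul_clm, hvst x]
      simp
  · intro l hl i
    have hl' : l ∈ Bx K' := by
      rw [mem_Bx]
      intro i
      refine (hl i).trans ?_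
      exact_mod_cast hKK'
    obtain ⟨h1, h2⟩ := hvm l hl' i
    rw [cosCoeff_eq (comp_periodic hvp i), cosCoeff_eq (comp_periodic hper i),
      sinCoeff_eq (comp_periodic hvp i), sinCoeff_eq (comp_periodic hper i)]
    exact ⟨h1, h2⟩
  · intro χ ψ hχ hψ h0 r' hr'
    have := besov_le (w := fun x => v x - u₀ x) hχ hψ (by linarith : 1 ≤ r')
      (fun i => bsub (bv i) (bu i))
      (fun i => (hsm i χ ψ hχ hψ h0).exp (by linarith : 0 < r) hr')
    refine this.trans (le_of_eq ?_)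
    congr 1
    ring
  · intro T w q hw t₀ ht₀ hwt
    obtain ⟨Cg, hCg0, hCg⟩ := (hvp.grad (v := v)).bounded (E := Fin 3 → Fin 3 → ℝ)
      (continuous_grad hv1)
    have hK : ∀ t ∈ Ico 0 T, ∀ x i j, |grad ((fun _ : ℝ => v) t) x i j| ≤ Cg := by
      intro t _ x i j
      have h1 := norm_le_pi_norm (grad v x i) j
      have h2 := norm_le_pi_norm (grad v x : Fin 3 → Fin 3 → ℝ) i
      exact h1.trans (h2.trans (hCg x))
    exact H708R2.EulerSign.unique (u := fun _ => v) hw (hv1.comp contDiff_snd) (fun _ => hvp)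
      (fun _ x => hvdiv x)
      (fun t x i => by
        rw [deriv_const, sum_mul_clm, hvst x]; simp) hK ht₀ hwt

/-- **Density**: one sequence of steady flows for all `r > 2` and all kernels. -/
theorem density_seq {m : ℕ} (hm : 3 ≤ m) {u₀ : V → V} (hu : IsHm m u₀) :
    ∃ v : ℕ → V → V,
      (∀ n, ContDiff ℝ ∞ (v n) ∧ IsClassicalSolution univ (fun _ => v n) (fun _ _ => 0) ∧
        SameModes n (v n) u₀ ∧
        ∀ (T : ℝ) (w : ℝ → V → V) (q : ℝ → V → ℝ), IsClassicalSolution (Ico 0 T) w q →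
          ∀ t₀ ∈ Ico 0 T, w t₀ = v n → ∀ t ∈ Ico 0 T, w t = v n) ∧
      ∀ χ ψ : 𝓢(V, ℝ), ∫ y, ψ y = 0 → ∀ r : ℝ, 2 < r →
        Tendsto (fun n => besov χ ψ r (fun x => v n x - u₀ x)) atTop (𝓝 0) := by
  have hr : ∀ n : ℕ, (2 : ℝ) < 2 + 1 / ((n : ℝ) + 1) := fun n => by
    have : (0 : ℝ) < 1 / ((n : ℝ) + 1) := Nat.one_div_pos_of_nat
    linarith
  have hε : ∀ n : ℕ, (0 : ℝ) < 1 / ((n : ℝ) + 1) := fun n => Nat.one_div_pos_of_nat
  choose v h1 h2 h3 h4 h5 using fun n : ℕ =>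
    density (M := (n : ℝ)) (Nat.cast_nonneg n) hm hu n (hr n) (hε n)
  refine ⟨v, fun n => ⟨h1 n, h2 n, h3 n, h5 n⟩, fun χ ψ h0 r hr2 => ?_⟩
  obtain ⟨M₁, hM₁, hχ₁⟩ := exists_ker χ
  obtain ⟨M₂, hM₂, hψ₂⟩ := exists_ker ψ
  have hlim : Tendsto (fun n : ℕ => ENNReal.ofReal (1 / ((n : ℝ) + 1))) atTop (𝓝 0) := by
    rw [← ENNReal.ofReal_zero]
    exact ENNReal.tendsto_ofReal tendsto_one_div_add_atTop_nhds_zero_nat
  refine tendsto_of_tendsto_of_tendsto_of_le_of_le' tendsto_const_nhds hlim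
    (Eventually.of_forall fun n => zero_le) ?_
  have e1 : ∀ᶠ n : ℕ in atTop, M₁ ≤ n := tendsto_natCast_atTop_atTop.eventually_ge_atTop M₁
  have e2 : ∀ᶠ n : ℕ in atTop, M₂ ≤ n := tendsto_natCast_atTop_atTop.eventually_ge_atTop M₂
  have e3 : ∀ᶠ n : ℕ in atTop, 1 / ((n : ℝ) + 1) < r - 2 :=
    tendsto_one_div_add_atTop_nhds_zero_nat.eventually_lt_const (by linarith)
  filter_upwards [e1, e2, e3] with n a1 a2 a3
  exact h4 n χ ψ (hχ₁.mono a1) (hψ₂.mono a2) h0 r (by linarith)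

/-- **Failure of the density for `r ≤ 2`.** -/
theorem failure (χ ψ : 𝓢(V, ℝ)) (hLP : IsLPPair χ ψ) {T : ℝ} {u : ℝ → V → V} {p : ℝ → V → ℝ}
    (hu : IsClassicalSolution (Ico 0 T) u p) {t₁ : ℝ} (ht₁ : t₁ ∈ Ico 0 T) (hne : u t₁ ≠ u 0)
    {r : ℝ} (hr0 : 0 < r) (hr2 : r ≤ 2) :
    ∃ ε : ℝ, 0 < ε ∧ ∀ (v : V → V) (q : ℝ → V → ℝ),
      IsClassicalSolution (Ico 0 T) (fun _ => v) q →
      ENNReal.ofReal ε ≤ besov χ ψ r (fun x => v x - u 0 x) := by
  obtain ⟨M₁, hM₁, hχ₁⟩ := exists_ker χ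
  obtain ⟨M₂, hM₂, hψ₂⟩ := exists_ker ψ
  have hχ : Ker χ (max M₁ M₂) := hχ₁.mono (le_max_left _ _)
  have hψ : Ker ψ (max M₁ M₂) := hψ₂.mono (le_max_right _ _)
  obtain ⟨-, c, hc0, hLP'⟩ := hLP
  have h0T : (0 : ℝ) ∈ Ico 0 T := ⟨le_rfl, ht₁.1.trans_lt ht₁.2⟩
  obtain ⟨ε₁, hε₁, hfar⟩ := steady_far hu ht₁ hne
  set κ : ℝ := c * vi * ε₁ / 6 with hκ
  have hκ0 : 0 < κ := by have := vi_pos; positivity
  refine ⟨min 1 (κ ^ (1 / r)), lt_min one_pos (by positivity), fun v q hv => ?_⟩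
  by_contra hcon
  push Not at hcon
  set ε : ℝ := min 1 (κ ^ (1 / r)) with hε
  have hεpos : 0 < ε := lt_min one_pos (by positivity)
  have hε1 : ε ≤ 1 := min_le_left _ _
  have hεκ : ε ^ r ≤ κ := by
    have := Real.rpow_le_rpow hεpos.le (min_le_right 1 (κ ^ (1 / r))) hr0.le
    rwa [← Real.rpow_mul hκ0.le, one_div_mul_cancel hr0.ne', Real.rpow_one] at this
  set w : V → V := fun x => v x - u 0 x with hw
  set a : ℝ≥0∞ := ⨆ x, ‖conv χ 1 w x‖ₑ with ha
  set b : ℕ → ℝ≥0∞ := fun q => ⨆ x, ‖conv ψ ((1 / 2) ^ q) w x‖ₑ with hb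
  have h1 : a ^ r + ∑' q, b q ^ r < ENNReal.ofReal (ε ^ r) := by
    have h2 : (a ^ r + ∑' q, b q ^ r) ^ (1 / r) < ENNReal.ofReal ε := hcon
    have h3 := ENNReal.rpow_lt_rpow h2 hr0
    rwa [← ENNReal.rpow_mul, one_div_mul_cancel hr0.ne', ENNReal.rpow_one,
      ENNReal.ofReal_rpow_of_nonneg hεpos.le hr0.le] at h3
  have hle1 : ∀ {s : ℝ≥0∞}, s ^ r ≤ ENNReal.ofReal (ε ^ r) → s ≤ 1 := by
    intro s hs
    have h2 : s ^ r ≤ 1 := by
      refine hs.trans ?_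
      rw [← ENNReal.ofReal_one]
      exact ENNReal.ofReal_le_ofReal (Real.rpow_le_one hεpos.le hε1 hr0.le)
    have h3 := ENNReal.rpow_le_rpow h2 (by positivity : 0 ≤ 1 / r)
    rwa [← ENNReal.rpow_mul, mul_one_div_cancel hr0.ne', ENNReal.rpow_one,
      ENNReal.one_rpow] at h3
  have ha1 : a ≤ 1 := hle1 (le_self_add.trans h1.le)
  have hb1 : ∀ q, b q ≤ 1 := fun q => hle1 (((ENNReal.le_tsum q).trans le_add_self).trans h1.le)
  have hsq : ∀ {s : ℝ≥0∞}, s ≤ 1 → s ^ (2 : ℝ) ≤ s ^ r := fun hs =>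
    ENNReal.rpow_le_rpow_of_exponent_ge hs hr2
  -- real numbers
  set X : ℝ := a.toReal with hX
  set D : ℕ → ℝ := fun q => (b q).toReal with hD
  have hane : a ≠ ⊤ := ne_top_of_le_ne_top ENNReal.one_ne_top ha1
  have hbne : ∀ q, b q ≠ ⊤ := fun q => ne_top_of_le_ne_top ENNReal.one_ne_top (hb1 q)
  have hS : ∀ Q, X ^ 2 + ∑ q ∈ Finset.range Q, D q ^ 2 ≤ ε ^ r := by
    intro Q
    have e1 : ENNReal.ofReal (X ^ 2 + ∑ q ∈ Finset.range Q, D q ^ 2)
        = a ^ (2 : ℝ) + ∑ q ∈ Finset.range Q, b q ^ (2 : ℝ) := by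
      rw [ENNReal.ofReal_add (sq_nonneg _) (Finset.sum_nonneg fun _ _ => sq_nonneg _),
        ENNReal.ofReal_sum_of_nonneg fun _ _ => sq_nonneg _]
      congr 1
      · rw [ENNReal.ofReal_pow ENNReal.toReal_nonneg, ENNReal.ofReal_toReal hane]
        simp
      · refine Finset.sum_congr rfl fun q _ => ?_
        rw [ENNReal.ofReal_pow ENNReal.toReal_nonneg, ENNReal.ofReal_toReal (hbne q)]
        simp
    have e2 : a ^ (2 : ℝ) + ∑ q ∈ Finset.range Q, b q ^ (2 : ℝ) ≤ ENNReal.ofReal (ε ^ r) := by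
      refine le_trans ?_ h1.le
      refine add_le_add (hsq ha1) ?_
      refine le_trans (Finset.sum_le_sum fun q _ => hsq (hb1 q)) (ENNReal.sum_le_tsum _)
    rw [← e1] at e2
    exact (ENNReal.ofReal_le_ofReal_iff (by positivity)).1 e2
  have cv1 : ContDiff ℝ 1 v := contDiff_slice (f := fun _ => v) hv.contDiffOn_u h0T
  have cu1 : ContDiff ℝ 1 (u 0) := contDiff_slice hu.contDiffOn_u h0T
  have hwc : ∀ i, Continuous (fun x => w x i) := fun i =>
    (continuous_apply i).comp (cv1.sub cu1).continuous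
  have hwp : ∀ i, Periodic3 (fun x => w x i) := by
    intro i j x
    simp only [hw, Pi.sub_apply]
    rw [hv.periodic_u 0 h0T j x, hu.periodic_u 0 h0T j x]
  have hwb : ∀ i, Bdc (fun x => w x i) := by
    intro i
    obtain ⟨C, -, hC⟩ := (hwp i).bounded (hwc i)
    exact ⟨hwc i, C, hC⟩
  have hXi : ∀ i x, |cv χ 1 (fun x => w x i) x| ≤ X := by
    intro i x
    rw [← conv_apply hχ hwb]
    have h2 : ‖conv χ 1 w x‖ₑ ≤ a := le_iSup (fun x => ‖conv χ 1 w x‖ₑ) x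
    have h3 := ENNReal.toReal_mono hane h2
    rw [toReal_enorm] at h3
    exact (norm_le_pi_norm (conv χ 1 w x) i).trans h3
  have hDi : ∀ i q x, |cv ψ ((1 / 2) ^ q) (fun x => w x i) x| ≤ D q := by
    intro i q x
    rw [← conv_apply hψ hwb]
    have h2 : ‖conv ψ ((1 / 2) ^ q) w x‖ₑ ≤ b q :=
      le_iSup (fun x => ‖conv ψ ((1 / 2) ^ q) w x‖ₑ) x
    have h3 := ENNReal.toReal_mono (hbne q) h2
    rw [toReal_enorm] at h3
    exact (norm_le_pi_norm (conv ψ ((1 / 2) ^ q) w x) i).trans h3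
  have hlow : ∀ i, c * (vi * ∫ x in Dom, w x i ^ 2) ≤ ε ^ r := fun i =>
    lower hχ hψ hc0 hLP' (hwc i) (hwp i) (hXi i) (fun q x => hDi i q x) hS
  have hsum : ∫ x in Dom, sq3 (v x - u 0 x) = ∑ i, ∫ x in Dom, w x i ^ 2 := by
    unfold sq3
    rw [integral_finsetSum]
    intro i _
    have h6 : Periodic3 (fun x => (v x - u 0 x) i ^ 2) := by
      intro j x
      have := hwp i j x
      simp only [hw] at this ⊢
      rw [this]
    exact h6.integrableOn ((hwc i).pow 2)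
  have hf := hfar v q hv
  rw [hsum] at hf
  have h7 : c * vi * ∑ i, ∫ x in Dom, w x i ^ 2 ≤ 3 * ε ^ r := by
    rw [Finset.mul_sum]
    calc ∑ i, c * vi * ∫ x in Dom, w x i ^ 2 ≤ ∑ _i : Fin 3, ε ^ r :=
          Finset.sum_le_sum fun i _ => by rw [mul_assoc]; exact hlow i
      _ = 3 * ε ^ r := by simp
  have h8 : c * vi * ε₁ ≤ c * vi * ∑ i, ∫ x in Dom, w x i ^ 2 := by
    have := vi_pos
    gcongr
  have h9 : 3 * ε ^ r ≤ 3 * κ := by linarith
  have h10 : c * vi * ε₁ = 6 * κ := by rw [hκ]; ring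
  linarith

end Pool.Agent.K3h70.EB
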