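import Pool.Agent.K3h70.EB.Small

/-!
# The two complementary factors
-/

set_option autoImplicit false

open MeasureTheory Set Filter Topology
open scoped ENNReal ContDiff

namespace Pool.Agent.K3h70.EB

open Pool.Agent.H708R2.EulerSign (V Periodic3 Dom dom_lt_top dom_meas)
open Pool.Agent.H708R2.EulerModes (ph ph_add ph_smul ph_contDiff rv ph_single integral_translate)

lemma Bdc.sum {ι : Type*} (s : Finset ι) {w : ι → V → ℝ} (b : ∀ i ∈ s, Bdc (w i)) :
    Bdc (fun x => ∑ i ∈ s, w i x) := by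
  classical
  induction s using Finset.induction_on with
  | empty => exact ⟨by simpa using continuous_const, 0, fun x => by simp⟩
  | insert a s ha ih =>
    obtain ⟨hc, B', hB'⟩ := ih (fun i hi => b i (Finset.mem_insert_of_mem hi))
    obtain ⟨hca, B, hB⟩ := b a (Finset.mem_insert_self a s)
    simp only [Finset.sum_insert ha]
    exact ⟨hca.add hc, B + B', fun x => (abs_add_le _ _).trans (add_le_add (hB x) (hB' x))⟩

lemma cv_sum_le {ρ : V → ℝ} {M : ℝ} (hρ : Ker ρ M) {ι : Type*} (s : Finset ι) {w : ι → V → ℝ}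
    (b : ∀ i ∈ s, Bdc (w i)) (δ : ℝ) (x : V) {β : ι → ℝ} (hβ : ∀ i ∈ s, |cv ρ δ (w i) x| ≤ β i) :
    |cv ρ δ (fun x => ∑ i ∈ s, w i x) x| ≤ ∑ i ∈ s, β i := by
  classical
  induction s using Finset.induction_on with
  | empty => simp [cv]
  | insert a s ha ih =>
    have h1 := ih (fun i hi => b i (Finset.mem_insert_of_mem hi))
      (fun i hi => hβ i (Finset.mem_insert_of_mem hi))
    simp only [Finset.sum_insert ha]
    rw [cv_add hρ (b a (Finset.mem_insert_self a s))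
      (Bdc.sum s fun i hi => b i (Finset.mem_insert_of_mem hi))]
    exact (abs_add_le _ _).trans (add_le_add (hβ a (Finset.mem_insert_self a s)) h1)

section

variable {σ : ℝ → ℝ} {L : ℝ} {J n₀ l : ℕ}

/-- The differences of the stages are bounded and continuous. -/
lemma pr_bdc (hσ : Lip1 L σ) (hL : 0 ≤ L) {ε : ℝ} (hε : 0 ≤ ε) (hε1 : ε ≤ 1) (hl : 1 ≤ l)
    {θ : Fin 3 → ℤ}
    {h : V → ℝ} (hc : Continuous h) {B Λ : ℝ} (hB : ∀ x, |h x| ≤ B) (hΛ : 0 ≤ Λ)
    (hlip : ∀ x y, |h x - h y| ≤ Λ * ‖x - y‖) {b : ℕ} (hb : b < J) :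
    Bdc (fun x => pr σ ε J n₀ l θ h b x (Nf n₀ l b * ph θ x)) := by
  have hP := pr_prof (n₀ := n₀) hσ hL hε hε1 hl (θ := θ) hc hB hΛ hlip hb
  have hphc : Continuous (ph θ) := (ph_contDiff θ).continuous
  exact ⟨hP.cont.comp (f := fun x : V => ((x, Nf n₀ l b * ph θ x) : V × ℝ)) (by fun_prop),
    _, fun x => hP.bdd _ _⟩

lemma pr_periodic (σ : ℝ → ℝ) (ε : ℝ) (J : ℕ) (θ : Fin 3 → ℤ) {h : V → ℝ} (hp : Periodic3 h)
    (b : ℕ) (t : ℝ) :
    Periodic3 (fun x => pr σ ε J n₀ l θ h b x (Nf n₀ l b * ph θ x + t)) := by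
  intro i x
  simp only [pr]
  rw [hp i x, ph_add, ph_single]
  have e1 : Xs ε n₀ l b (ph θ x + θ i * (2 * Real.pi)) = Xs ε n₀ l b (ph θ x) := by
    have h1 := Xs_periodic ε n₀ l b (ph θ x) (θ i * 2 ^ n₀)
    rw [← h1]
    congr 1
    push_cast
    field_simp
  have e2 : Real.cos (Nf n₀ l b * (ph θ x + θ i * (2 * Real.pi)) + t)
      = Real.cos (Nf n₀ l b * ph θ x + t) := by
    have : Nf n₀ l b * (ph θ x + θ i * (2 * Real.pi)) + t
        = Nf n₀ l b * ph θ x + t + ((2 ^ qe n₀ l b * θ i : ℤ) : ℝ) * (2 * Real.pi) := by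
      unfold Nf
      push_cast
      ring
    rw [this, Real.cos_add_int_mul_two_pi]
  rw [e1, e2]

/-- The difference of the last and the first stage. -/
lemma stage_sum {ε : ℝ} {θ : Fin 3 → ℤ} {h : V → ℝ} (x : V) :
    h x * (σ (Xs ε n₀ l J (ph θ x)) - Ti ε J σ 0)
      = ∑ b ∈ Finset.range J, pr σ ε J n₀ l θ h b x (Nf n₀ l b * ph θ x) := by
  have h1 := Finset.sum_range_sub (fun b => W σ ε J n₀ l θ h b x) J
  simp only [W_diff] at h1
  rw [h1]
  unfold W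
  rw [Nat.sub_self, Nat.sub_zero, Ti_zero, Xs_zero]
  ring

end

lemma exists_J (C r η : ℝ) (hr : 2 < r) (hη : 0 < η) :
    ∃ J : ℕ, 0 < J ∧ C * ((J : ℝ) * (1 / √J) ^ r) ≤ η := by
  have h1 : Tendsto (fun J : ℕ => C * (J : ℝ) ^ (-(r / 2 - 1))) atTop (𝓝 (C * 0)) :=
    ((tendsto_rpow_neg_atTop (by linarith)).comp tendsto_natCast_atTop_atTop).const_mul C
  rw [mul_zero] at h1
  have h2 := (h1.eventually (Iic_mem_nhds hη)).and (eventually_gt_atTop 0)
  obtain ⟨J, hJ1, hJ2⟩ := h2.exists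
  refine ⟨J, hJ2, ?_⟩
  have hJ : (0 : ℝ) < J := by exact_mod_cast hJ2
  have e : (J : ℝ) * (1 / √J) ^ r = (J : ℝ) ^ (-(r / 2 - 1)) := by
    rw [one_div, Real.inv_rpow (Real.sqrt_nonneg _), Real.sqrt_eq_rpow, ← Real.rpow_mul hJ.le,
      ← Real.rpow_neg hJ.le]
    nth_rewrite 1 [← Real.rpow_one (J : ℝ)]
    rw [← Real.rpow_add hJ]
    congr 1
    ring
  rw [e]
  exact hJ1

lemma exists_l (C₁ C₂ C₃ η₁ η₂ η₃ : ℝ) (h₁ : 0 < η₁) (h₂ : 0 < η₂) (h₃ : 0 < η₃) (J n₀ : ℕ) :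
    ∃ l : ℕ, 1 ≤ l ∧ (1 / 2 : ℝ) ^ l * J ≤ 1 ∧
      C₁ * ((1 / 2) ^ l * (J * (n₀ + l * J + 2))) ≤ η₁ ∧ C₂ * (1 / 2) ^ l ≤ η₂ ∧
      C₃ * (1 / 2) ^ l ≤ η₃ := by
  have t0 : Tendsto (fun l : ℕ => (1 / 2 : ℝ) ^ l) atTop (𝓝 0) :=
    tendsto_pow_atTop_nhds_zero_of_lt_one (by norm_num) (by norm_num)
  have t1 : Tendsto (fun l : ℕ => (l : ℝ) * (1 / 2 : ℝ) ^ l) atTop (𝓝 0) :=
    tendsto_self_mul_const_pow_of_lt_one (by norm_num) (by norm_num)
  have a1 : Tendsto (fun l : ℕ => (1 / 2 : ℝ) ^ l * J) atTop (𝓝 (0 * J)) := t0.mul_const _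
  have a2 : Tendsto (fun l : ℕ => C₁ * ((1 / 2 : ℝ) ^ l * (J * (n₀ + 2)) + (l : ℝ) * (1 / 2) ^ l
      * (J * J))) atTop (𝓝 (C₁ * (0 * (J * (n₀ + 2)) + 0 * (J * J)))) :=
    ((t0.mul_const _).add (t1.mul_const _)).const_mul _
  have a3 : Tendsto (fun l : ℕ => C₂ * (1 / 2 : ℝ) ^ l) atTop (𝓝 (C₂ * 0)) := t0.const_mul _
  have a4 : Tendsto (fun l : ℕ => C₃ * (1 / 2 : ℝ) ^ l) atTop (𝓝 (C₃ * 0)) := t0.const_mul _
  simp only [zero_mul, mul_zero, add_zero] at a1 a2 a3 a4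
  have h := (eventually_ge_atTop 1).and ((a1.eventually (Iic_mem_nhds one_pos)).and
    ((a2.eventually (Iic_mem_nhds h₁)).and ((a3.eventually (Iic_mem_nhds h₂)).and
    (a4.eventually (Iic_mem_nhds h₃)))))
  obtain ⟨l, b0, b1, b2, b3, b4⟩ := h.exists
  refine ⟨l, b0, b1, ?_, b3, b4⟩
  have e : C₁ * ((1 / 2 : ℝ) ^ l * (J * (n₀ + 2)) + (l : ℝ) * (1 / 2) ^ l * (J * J))
      = C₁ * ((1 / 2) ^ l * (J * (n₀ + l * J + 2))) := by ring
  rw [← e]
  exact b2

/-- **The two complementary factors.** -/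
theorem pair_step {M : ℝ} (hM : 0 ≤ M)
    {r : ℝ} (hr : 2 < r) {θ : Fin 3 → ℤ} (hθ : θ ≠ 0) {B Λ : ℝ} (hB0 : 0 ≤ B) (hΛ : 0 ≤ Λ)
    (n₀ : ℕ) {η : ℝ} (hη : 0 < η) :
    ∃ G : Bool → ℝ → ℝ, (∀ i, ContDiff ℝ ∞ (G i)) ∧ (∀ i s, 0 ≤ G i s) ∧
      (∀ s, G true s = 0 ∨ G false s = 0) ∧
      (∀ i s (z : ℤ), G i (s + z * (2 * Real.pi / 2 ^ n₀)) = G i s) ∧
      ∀ i (h : V → ℝ), Continuous h → (∀ x, |h x| ≤ B) → (∀ x y, |h x - h y| ≤ Λ * ‖x - y‖) →
        Periodic3 h → SmallM M r η (fun x => h x * (G i (ph θ x) - 1)) := by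
  obtain ⟨L, hL, hS⟩ := S_lip
  set κ₀ : ℝ := S (1 / 4) / 16 with hκ₀
  have hκ₀pos : 0 < κ₀ := by
    have : 0 < S (1 / 4) := Real.smoothTransition.pos_of_pos (by norm_num)
    positivity
  have hr0 : 0 < r := by linarith
  set C := M * (2 * Real.pi) * C3 L B Λ θ with hC
  have hC3 := C3_nonneg hL hB0 hΛ θ
  have hpi : 0 < 2 * Real.pi := by positivity
  have hC0 : 0 ≤ C := by positivity
  obtain ⟨J, hJ0, hJ⟩ := exists_J ((2 * C) ^ r * 3 ^ r) r ((κ₀ * η) ^ r / 2) hr (by positivity)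
  obtain ⟨l, hl1, hl2, hl3, hl4, hl5⟩ := exists_l ((2 * C) ^ r) (2 * C * J)
    (J * ((volume Dom).toReal * (2 * Real.pi) * C3 L B Λ θ)) ((κ₀ * η) ^ r / 2) (κ₀ * η) (κ₀ * η)
    (by positivity) (by positivity) (by positivity) J n₀
  set ε : ℝ := 1 / √J with hε
  have hJr : (1 : ℝ) ≤ J := by exact_mod_cast hJ0
  have hε0 : 0 ≤ ε := by positivity
  have hε1 : ε ≤ 1 := by
    rw [hε, div_le_one (by positivity)]
    exact Real.one_le_sqrt.2 hJr
  obtain ⟨hκ1, hκ2⟩ := kappa_lower hJ0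
  set κ := Ti ε J S 0 with hκ
  have hκpos : 0 < κ := hκ₀pos.trans_le hκ1
  have hS' : Lip1 L (fun z => S (-z)) := by
    intro y z
    refine (hS _ _).trans (le_of_eq ?_)
    congr 1
    rw [← abs_neg]
    congr 1
    ring
  -- the general estimate
  have main : ∀ σ : ℝ → ℝ, Lip1 L σ → Ti ε J σ 0 = κ → ∀ h : V → ℝ, Continuous h →
      (∀ x, |h x| ≤ B) → (∀ x y, |h x - h y| ≤ Λ * ‖x - y‖) → Periodic3 h →
      SmallM M r η (fun x => h x * (κ⁻¹ * σ (Xs ε n₀ l J (ph θ x)) - 1)) := by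
    intro σ hσ hσκ h hc hB hlip hp χ ψ hχ hψ h0
    set w : V → ℝ := fun x => ∑ b ∈ Finset.range J, pr σ ε J n₀ l θ h b x (Nf n₀ l b * ph θ x)
      with hw
    have hb : ∀ b ∈ Finset.range J,
        Bdc (fun x => pr σ ε J n₀ l θ h b x (Nf n₀ l b * ph θ x)) := fun b hb =>
      pr_bdc hσ hL hε0 hε1 hl1 hc hB hΛ hlip (Finset.mem_range.1 hb)
    have hsm : Small χ ψ r (κ₀ * η) w := by
      refine ⟨fun x => ?_, ?_, ?_⟩
      · refine (cv_sum_le hχ (Finset.range J) hb 1 x (β := fun _ => 2 * C * (1 / 2) ^ l)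
          fun b hb' => ?_).trans ?_
        · have hP := pr_prof (n₀ := n₀) hσ hL hε0 hε1 hl1 (θ := θ) hc hB hΛ hlip
            (Finset.mem_range.1 hb')
          have hN := Nf_pos n₀ l b
          refine (cv_low hχ hP hθ hN one_pos x).trans ?_
          have e1 : C3 L B Λ θ * (1 / 2) ^ l * Nf n₀ l b / Nf n₀ l b
              = C3 L B Λ θ * (1 / 2) ^ l := by field_simp
          have e2 : C3 L B Λ θ * ε / (1 * Nf n₀ l b) ≤ C3 L B Λ θ * (1 / 2) ^ l := by
            rw [one_mul, div_le_iff₀ hN]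
            have h1 := le_Nf n₀ l b
            have h3 : (1 / 2 : ℝ) ^ l * 2 ^ l = 1 := by rw [← mul_pow]; norm_num
            have h4 : (1 : ℝ) ≤ (1 / 2) ^ l * Nf n₀ l b := by
              calc (1 : ℝ) = (1 / 2) ^ l * 2 ^ l := h3.symm
                _ ≤ (1 / 2) ^ l * Nf n₀ l b := by gcongr
            calc C3 L B Λ θ * ε ≤ C3 L B Λ θ * ((1 / 2) ^ l * Nf n₀ l b) := by
                  gcongr
                  exact hε1.trans h4
              _ = C3 L B Λ θ * (1 / 2) ^ l * Nf n₀ l b := by ring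
          rw [e1]
          calc M * (2 * Real.pi) * (C3 L B Λ θ * ε / (1 * Nf n₀ l b) + C3 L B Λ θ * (1 / 2) ^ l)
              ≤ M * (2 * Real.pi) * (C3 L B Λ θ * (1 / 2) ^ l + C3 L B Λ θ * (1 / 2) ^ l) := by
                gcongr
            _ = 2 * C * (1 / 2) ^ l := by rw [hC]; ring
        · rw [Finset.sum_const, Finset.card_range, nsmul_eq_mul]
          calc (J : ℝ) * (2 * C * (1 / 2) ^ l) = 2 * C * J * (1 / 2) ^ l := by ring
            _ ≤ κ₀ * η := hl4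
      · obtain ⟨s1, s2⟩ := Dq_sum (n₀ := n₀) hC0 hε0 (by linarith : 1 ≤ r) hl1 hl2
        refine ⟨Dq C ε n₀ l J, fun q => Dq_nonneg hC0 hε0 _ _ _ _, fun q x => ?_, s1, ?_⟩
        · exact cv_sum_le hψ (Finset.range J) hb _ x fun b hb' =>
            stage_bound hψ h0 hσ hL hε0 hε1 hl1 hθ hc hB hΛ hlip (Finset.mem_range.1 hb') q x
        · refine s2.trans ?_
          have e : (2 * C) ^ r * (3 ^ r * (J * ε ^ r) + (1 / 2) ^ l * (J * (n₀ + l * J + 2)))
              = (2 * C) ^ r * 3 ^ r * (J * ε ^ r)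
                + (2 * C) ^ r * ((1 / 2) ^ l * (J * (n₀ + l * J + 2))) := by ring
          rw [e]
          linarith
      · rw [hw, integral_finsetSum]
        · refine (Finset.abs_sum_le_sum_abs _ _).trans ?_
          have h1 : ∀ b ∈ Finset.range J,
              |∫ x in Dom, pr σ ε J n₀ l θ h b x (Nf n₀ l b * ph θ x)|
              ≤ (volume Dom).toReal * (2 * Real.pi) * C3 L B Λ θ * (1 / 2) ^ l := by
            intro b hb'
            have hP := pr_prof (n₀ := n₀) hσ hL hε0 hε1 hl1 (θ := θ) hc hB hΛ hlip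
              (Finset.mem_range.1 hb')
            have hN := Nf_pos n₀ l b
            refine (mean_low hP hθ hN fun t => pr_periodic σ ε J θ hp b t).trans (le_of_eq ?_)
            field_simp
          refine (Finset.sum_le_sum h1).trans ?_
          rw [Finset.sum_const, Finset.card_range, nsmul_eq_mul]
          calc (J : ℝ) * ((volume Dom).toReal * (2 * Real.pi) * C3 L B Λ θ * (1 / 2) ^ l)
              = J * ((volume Dom).toReal * (2 * Real.pi) * C3 L B Λ θ) * (1 / 2) ^ l := by ring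
            _ ≤ κ₀ * η := hl5
        · intro b hb'
          exact (hb b hb').int_dom
    have e : (fun x => h x * (κ⁻¹ * σ (Xs ε n₀ l J (ph θ x)) - 1)) = fun x => κ⁻¹ * w x := by
      funext x
      rw [hw]
      simp only
      rw [← stage_sum, hσκ]
      field_simp
    rw [e]
    refine (hsm.const_mul κ⁻¹).mono hr0.le ?_
    rw [abs_of_pos (inv_pos.2 hκpos)]
    calc κ⁻¹ * (κ₀ * η) ≤ κ⁻¹ * (κ * η) := by gcongr
      _ = η := by field_simp
  refine ⟨fun i s => κ⁻¹ * (if i then S (Xs ε n₀ l J s) else S (-Xs ε n₀ l J s)), ?_, ?_, ?_, ?_,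
    ?_⟩
  · intro i
    cases i
    · simp only [Bool.false_eq_true, if_false]
      exact contDiff_const.mul (Real.smoothTransition.contDiff.comp Xs_contDiff.neg)
    · simp only [if_true]
      exact contDiff_const.mul (Real.smoothTransition.contDiff.comp Xs_contDiff)
  · intro i s
    have := S_nonneg (Xs ε n₀ l J s)
    have := S_nonneg (-Xs ε n₀ l J s)
    have : 0 < κ⁻¹ := inv_pos.2 hκpos
    cases i
    · simp only [Bool.false_eq_true, if_false]
      positivity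
    · simp only [if_true]
      positivity
  · intro s
    rcases S_mul_neg (Xs ε n₀ l J s) with h | h
    · left; simp [h]
    · right; simp [h]
  · intro i s z
    simp only [Xs_periodic]
  · intro i h hc hB hlip hp
    cases i
    · simp only [Bool.false_eq_true, if_false]
      exact main (fun z => S (-z)) hS' hκ2 h hc hB hlip hp
    · simp only [if_true]
      exact main S hS rfl h hc hB hlip hp

end Pool.Agent.K3h70.EB
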