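import Pool.Agent.K3h70.EB.Step

/-!
# The weights, and the smallness in the Besov norm
-/

set_option autoImplicit false

open MeasureTheory Set Filter Topology
open scoped ENNReal

namespace Pool.Agent.K3h70.EB

open Pool.Agent.H708R2.EulerSign (V Periodic3 Dom dom_lt_top dom_meas)
open Pool.Agent.H708R2.EulerModes (ph ph_add ph_smul ph_contDiff rv ph_single integral_translate)

lemma tw_hasSum (m : ℕ) : HasSum (fun q => tw q m) (m + 2) := by
  have h1 : HasSum (fun k => tw (k + m) m) 2 := by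
    have : (fun k => tw (k + m) m) = fun k : ℕ => ((1 : ℝ) / 2) ^ k := by
      funext k
      unfold tw
      rw [Nat.add_sub_cancel]
    rw [this]
    exact hasSum_geometric_two
  have h2 := (hasSum_nat_add_iff (f := fun q => tw q m) m).1 h1
  have h3 : ∑ i ∈ Finset.range m, tw i m = m := by
    rw [Finset.sum_congr rfl (g := fun _ => (1 : ℝ))]
    · simp
    · intro i hi
      unfold tw
      rw [Nat.sub_eq_zero_of_le (Finset.mem_range.1 hi).le, pow_zero]
  rw [h3, add_comm] at h2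
  exact h2

lemma aw_symm (q m : ℕ) : aw q m = aw m q := by
  unfold aw
  rw [add_comm]

lemma aw_hasSum (m : ℕ) : ∃ A, A ≤ 3 ∧ HasSum (fun q => aw q m) A := by
  have h1 : HasSum (fun k => aw (k + m) m) 2 := by
    have : (fun k => aw (k + m) m) = fun k : ℕ => ((1 : ℝ) / 2) ^ k := by
      funext k
      unfold aw
      rw [Nat.add_sub_cancel, Nat.sub_eq_zero_of_le (Nat.le_add_left m k), zero_add]
    rw [this]
    exact hasSum_geometric_two
  have h2 := (hasSum_nat_add_iff (f := fun q => aw q m) m).1 h1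
  have h3 : ∀ m : ℕ, ∑ i ∈ Finset.range m, ((1 : ℝ) / 2) ^ (m - i) ≤ 1 - (1 / 2) ^ m := by
    intro m
    induction m with
    | zero => simp
    | succ m ih =>
      rw [Finset.sum_range_succ]
      have h4 : ∑ i ∈ Finset.range m, ((1 : ℝ) / 2) ^ (m + 1 - i)
          = (1 / 2) * ∑ i ∈ Finset.range m, ((1 : ℝ) / 2) ^ (m - i) := by
        rw [Finset.mul_sum]
        refine Finset.sum_congr rfl fun i hi => ?_
        have : m + 1 - i = (m - i) + 1 := by
          have := Finset.mem_range.1 hi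
          omega
        rw [this, pow_succ, mul_comm]
      rw [h4]
      have h5 : m + 1 - m = 1 := by omega
      rw [h5, pow_one, pow_succ]
      linarith
  refine ⟨_, ?_, h2⟩
  have h6 : ∑ i ∈ Finset.range m, aw i m ≤ 1 := by
    have h7 : ∑ i ∈ Finset.range m, aw i m = ∑ i ∈ Finset.range m, ((1 : ℝ) / 2) ^ (m - i) := by
      refine Finset.sum_congr rfl fun i hi => ?_
      unfold aw
      rw [Nat.sub_eq_zero_of_le (Finset.mem_range.1 hi).le, add_zero]
    rw [h7]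
    have h8 : (0 : ℝ) < (1 / 2) ^ m := by positivity
    linarith [h3 m]
  linarith

lemma qe_strictMono {n₀ l : ℕ} (hl : 1 ≤ l) : StrictMono (qe n₀ l) := by
  intro a b hab
  unfold qe
  nlinarith

lemma sum_aw_le {n₀ l : ℕ} (hl : 1 ≤ l) (J q : ℕ) :
    ∑ b ∈ Finset.range J, aw q (qe n₀ l b) ≤ 3 := by
  obtain ⟨A, hA, hs⟩ := aw_hasSum q
  have h1 : ∑ b ∈ Finset.range J, aw q (qe n₀ l b)
      = ∑ m ∈ (Finset.range J).image (qe n₀ l), aw m q := by
    rw [Finset.sum_image]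
    · exact Finset.sum_congr rfl fun b _ => aw_symm _ _
    · intro a _ b _ h
      exact (qe_strictMono hl).injective h
  rw [h1]
  have h2 := hs.summable.sum_le_tsum ((Finset.range J).image (qe n₀ l)) (fun m _ => aw_nonneg _ _)
  rw [hs.tsum_eq] at h2
  linarith

/-- The total bound at scale `q`. -/
noncomputable def Dq (C ε : ℝ) (n₀ l J : ℕ) (q : ℕ) : ℝ :=
  ∑ b ∈ Finset.range J, C * (ε * aw q (qe n₀ l b) + (1 / 2) ^ l * tw q (qe n₀ l b))

lemma Dq_nonneg {C ε : ℝ} (hC : 0 ≤ C) (hε : 0 ≤ ε) (n₀ l J q : ℕ) : 0 ≤ Dq C ε n₀ l J q := by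
  unfold Dq
  refine Finset.sum_nonneg fun b _ => ?_
  have := aw_nonneg q (qe n₀ l b)
  have := tw_nonneg q (qe n₀ l b)
  positivity

/-- The `ℓ^r` sum of the bounds. -/
lemma Dq_sum {C ε r : ℝ} (hC : 0 ≤ C) (hε : 0 ≤ ε) (hr : 1 ≤ r) {n₀ l J : ℕ} (hl : 1 ≤ l)
    (hJ : (1 / 2 : ℝ) ^ l * J ≤ 1) :
    Summable (fun q => Dq C ε n₀ l J q ^ r) ∧
    ∑' q, Dq C ε n₀ l J q ^ r ≤ (2 * C) ^ r * (3 ^ r * (J * ε ^ r)
      + (1 / 2) ^ l * (J * (n₀ + l * J + 2))) := by
  set A : ℕ → ℝ := fun q => ∑ b ∈ Finset.range J, aw q (qe n₀ l b) with hA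
  set R : ℕ → ℝ := fun q => ∑ b ∈ Finset.range J, tw q (qe n₀ l b) with hR
  have hA0 : ∀ q, 0 ≤ A q := fun q => Finset.sum_nonneg fun b _ => aw_nonneg _ _
  have hR0 : ∀ q, 0 ≤ R q := fun q => Finset.sum_nonneg fun b _ => tw_nonneg _ _
  have hA3 : ∀ q, A q ≤ 3 := fun q => sum_aw_le hl J q
  have htw1 : ∀ q m, tw q m ≤ 1 := by
    intro q m
    unfold tw
    exact pow_le_one₀ (by norm_num) (by norm_num)
  have hRJ : ∀ q, R q ≤ J := by
    intro q
    calc R q ≤ ∑ b ∈ Finset.range J, (1 : ℝ) := Finset.sum_le_sum fun b _ => htw1 _ _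
      _ = J := by simp
  have hD : ∀ q, Dq C ε n₀ l J q = C * (ε * A q + (1 / 2) ^ l * R q) := by
    intro q
    unfold Dq
    rw [← Finset.mul_sum, Finset.sum_add_distrib, ← Finset.mul_sum, ← Finset.mul_sum]
  -- the sums
  obtain ⟨As, hAs⟩ : ∃ f : ℕ → ℝ, ∀ m, f m ≤ 3 ∧ HasSum (fun q => aw q m) (f m) := by
    choose f hf using aw_hasSum
    exact ⟨f, hf⟩
  have sA : HasSum A (∑ b ∈ Finset.range J, As (qe n₀ l b)) :=
    hasSum_sum fun b _ => (hAs _).2
  have sR : HasSum R (∑ b ∈ Finset.range J, ((qe n₀ l b : ℕ) + 2 : ℝ)) :=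
    hasSum_sum fun b _ => tw_hasSum _
  have bA : ∑ b ∈ Finset.range J, As (qe n₀ l b) ≤ 3 * J := by
    calc ∑ b ∈ Finset.range J, As (qe n₀ l b) ≤ ∑ b ∈ Finset.range J, (3 : ℝ) :=
          Finset.sum_le_sum fun b _ => (hAs _).1
      _ = 3 * J := by simp [mul_comm]
  have bR : ∑ b ∈ Finset.range J, ((qe n₀ l b : ℕ) + 2 : ℝ) ≤ J * (n₀ + l * J + 2) := by
    calc ∑ b ∈ Finset.range J, ((qe n₀ l b : ℕ) + 2 : ℝ)
        ≤ ∑ b ∈ Finset.range J, ((n₀ : ℝ) + l * J + 2) := by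
          refine Finset.sum_le_sum fun b hb => ?_
          have hb' : b + 1 ≤ J := Finset.mem_range.1 hb
          have h1 : qe n₀ l b ≤ n₀ + l * J := by
            unfold qe
            have := Nat.mul_le_mul_left l hb'
            omega
          have h2 : ((qe n₀ l b : ℕ) : ℝ) ≤ n₀ + l * J := by exact_mod_cast h1
          linarith
      _ = J * (n₀ + l * J + 2) := by
          simp
          ring
  -- pointwise bound
  have hpt : ∀ q, Dq C ε n₀ l J q ^ r
      ≤ (2 * C) ^ r * (ε ^ r * (3 ^ (r - 1) * A q) + (1 / 2) ^ l * R q) := by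
    intro q
    rw [hD, Real.mul_rpow hC (by have := hA0 q; have := hR0 q; positivity),
      Real.mul_rpow (by norm_num) hC]
    have hx : 0 ≤ ε * A q := mul_nonneg hε (hA0 q)
    have hy : 0 ≤ (1 / 2 : ℝ) ^ l * R q := by have := hR0 q; positivity
    have h1 : (ε * A q + (1 / 2) ^ l * R q) ^ r
        ≤ 2 ^ r * ((ε * A q) ^ r + ((1 / 2) ^ l * R q) ^ r) := by
      rcases le_total (ε * A q) ((1 / 2) ^ l * R q) with h | h
      · calc (ε * A q + (1 / 2) ^ l * R q) ^ r ≤ (2 * ((1 / 2) ^ l * R q)) ^ r := by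
              apply Real.rpow_le_rpow (by positivity) (by linarith) (by linarith)
          _ = 2 ^ r * ((1 / 2) ^ l * R q) ^ r := Real.mul_rpow (by norm_num) hy
          _ ≤ _ := by
            have : 0 ≤ (ε * A q) ^ r := Real.rpow_nonneg hx r
            have h2 : (0 : ℝ) < 2 ^ r := by positivity
            nlinarith
      · calc (ε * A q + (1 / 2) ^ l * R q) ^ r ≤ (2 * (ε * A q)) ^ r := by
              apply Real.rpow_le_rpow (by positivity) (by linarith) (by linarith)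
          _ = 2 ^ r * (ε * A q) ^ r := Real.mul_rpow (by norm_num) hx
          _ ≤ _ := by
            have : 0 ≤ ((1 / 2) ^ l * R q) ^ r := Real.rpow_nonneg hy r
            have h2 : (0 : ℝ) < 2 ^ r := by positivity
            nlinarith
    have h2 : (ε * A q) ^ r ≤ ε ^ r * (3 ^ (r - 1) * A q) := by
      rw [Real.mul_rpow hε (hA0 q)]
      refine mul_le_mul_of_nonneg_left ?_ (Real.rpow_nonneg hε r)
      rcases (hA0 q).eq_or_lt with h | h
      · rw [← h, Real.zero_rpow (by linarith), mul_zero]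
      · have e : A q ^ r = A q ^ (r - 1) * A q := by
          rw [← Real.rpow_add_one h.ne']; congr 1; ring
        rw [e]
        exact mul_le_mul_of_nonneg_right
          (Real.rpow_le_rpow h.le (hA3 q) (by linarith)) h.le
    have h3 : ((1 / 2) ^ l * R q) ^ r ≤ (1 / 2) ^ l * R q := by
      have h4 : (1 / 2) ^ l * R q ≤ 1 := by
        refine le_trans ?_ hJ
        gcongr
        exact hRJ q
      exact Real.rpow_le_self_of_le_one hy h4 hr
    have hC' : 0 ≤ C ^ r := Real.rpow_nonneg hC r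
    have h5 : (0 : ℝ) < 2 ^ r := by positivity
    calc C ^ r * (ε * A q + (1 / 2) ^ l * R q) ^ r
        ≤ C ^ r * (2 ^ r * ((ε * A q) ^ r + ((1 / 2) ^ l * R q) ^ r)) := by gcongr
      _ ≤ C ^ r * (2 ^ r * (ε ^ r * (3 ^ (r - 1) * A q) + (1 / 2) ^ l * R q)) := by gcongr
      _ = 2 ^ r * C ^ r * (ε ^ r * (3 ^ (r - 1) * A q) + (1 / 2) ^ l * R q) := by ring
  have hbig : HasSum (fun q => (2 * C) ^ r * (ε ^ r * (3 ^ (r - 1) * A q) + (1 / 2) ^ l * R q))
      ((2 * C) ^ r * (ε ^ r * (3 ^ (r - 1) * ∑ b ∈ Finset.range J, As (qe n₀ l b))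
        + (1 / 2) ^ l * ∑ b ∈ Finset.range J, ((qe n₀ l b : ℕ) + 2 : ℝ))) :=
    (((sA.mul_left _).mul_left _).add (sR.mul_left _)).mul_left _
  have hsum : Summable (fun q => Dq C ε n₀ l J q ^ r) :=
    Summable.of_nonneg_of_le (fun q => Real.rpow_nonneg (Dq_nonneg hC hε _ _ _ _) r) hpt
      hbig.summable
  refine ⟨hsum, ?_⟩
  have h1 := hsum.tsum_le_tsum hpt hbig.summable
  rw [hbig.tsum_eq] at h1
  refine h1.trans ?_
  have hC' : 0 ≤ (2 * C) ^ r := by positivity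
  have hε' : 0 ≤ ε ^ r := Real.rpow_nonneg hε r
  have e3 : (3 : ℝ) ^ r = 3 ^ (r - 1) * 3 := by
    rw [← Real.rpow_add_one (by norm_num : (3 : ℝ) ≠ 0)]; congr 1; ring
  calc (2 * C) ^ r * (ε ^ r * (3 ^ (r - 1) * ∑ b ∈ Finset.range J, As (qe n₀ l b))
        + (1 / 2) ^ l * ∑ b ∈ Finset.range J, ((qe n₀ l b : ℕ) + 2 : ℝ))
      ≤ (2 * C) ^ r * (ε ^ r * (3 ^ (r - 1) * (3 * J))
        + (1 / 2) ^ l * (J * (n₀ + l * J + 2))) := by gcongr
    _ = _ := by rw [e3]; ring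

/-- `w` is small in the norm of `B^0_{∞,r}` given by the kernels `χ, ψ`, and in mean. -/
structure Small (χ ψ : V → ℝ) (r η : ℝ) (w : V → ℝ) : Prop where
  low : ∀ x, |cv χ 1 w x| ≤ η
  high : ∃ D : ℕ → ℝ, (∀ q, 0 ≤ D q) ∧ (∀ q x, |cv ψ ((1 / 2) ^ q) w x| ≤ D q) ∧
    Summable (fun q => D q ^ r) ∧ ∑' q, D q ^ r ≤ η ^ r
  mean : |∫ x in Dom, w x| ≤ η

/-- The admissible functions. -/
def Bdc (w : V → ℝ) : Prop := Continuous w ∧ ∃ B, ∀ x, |w x| ≤ B

lemma Bdc.int {w : V → ℝ} (h : Bdc w) {ρ : V → ℝ} {M : ℝ} (hρ : Ker ρ M) (δ : ℝ) (x : V) :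
    Integrable (fun y => ρ y * w (x - δ • y)) := by
  obtain ⟨hc, B, hB⟩ := h
  exact hρ.integrable_mul (w := fun y => w (x - δ • y)) (by fun_prop) (fun y => hB _)

lemma Bdc.int_dom {w : V → ℝ} (h : Bdc w) : IntegrableOn w Dom := by
  obtain ⟨hc, B, hB⟩ := h
  have hfin : IsFiniteMeasure (volume.restrict Dom : Measure V) := by
    constructor
    rw [Measure.restrict_apply_univ]
    exact dom_lt_top
  exact Integrable.of_bound (C := B) hc.aestronglyMeasurable (Eventually.of_forall hB)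

lemma cv_add {ρ : V → ℝ} {M : ℝ} (hρ : Ker ρ M) {w w' : V → ℝ} (h : Bdc w) (h' : Bdc w') (δ : ℝ)
    (x : V) : cv ρ δ (fun x => w x + w' x) x = cv ρ δ w x + cv ρ δ w' x := by
  unfold cv
  rw [← integral_add (h.int hρ δ x) (h'.int hρ δ x)]
  congr 1
  funext y
  ring

lemma cv_mul (ρ : V → ℝ) (w : V → ℝ) (δ c : ℝ) (x : V) :
    cv ρ δ (fun x => c * w x) x = c * cv ρ δ w x := by
  unfold cv
  rw [← integral_const_mul]
  congr 1
  funext y
  ring

variable {χ ψ : V → ℝ} {M r : ℝ}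

lemma Small.nonneg {η : ℝ} {w : V → ℝ} (h : Small χ ψ r η w) : 0 ≤ η :=
  (abs_nonneg _).trans h.mean

lemma Small.add (hr : 1 ≤ r) (hχ : Ker χ M) (hψ : Ker ψ M) {η η' : ℝ} {w w' : V → ℝ}
    (b : Bdc w) (b' : Bdc w') (h : Small χ ψ r η w) (h' : Small χ ψ r η' w') :
    Small χ ψ r (η + η') (fun x => w x + w' x) := by
  refine ⟨fun x => ?_, ?_, ?_⟩
  · rw [cv_add hχ b b']
    exact (abs_add_le _ _).trans (add_le_add (h.low x) (h'.low x))
  · obtain ⟨D, hD0, hD, hs, hle⟩ := h.high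
    obtain ⟨D', hD0', hD', hs', hle'⟩ := h'.high
    obtain ⟨h1, h2⟩ := Real.Lp_add_le_tsum_of_nonneg hr hD0 hD0' hs hs'
    refine ⟨fun q => D q + D' q, fun q => add_nonneg (hD0 q) (hD0' q), fun q x => ?_, h1, ?_⟩
    · rw [cv_add hψ b b']
      exact (abs_add_le _ _).trans (add_le_add (hD q x) (hD' q x))
    · have hr0 : 0 < r := by linarith
      have t0 : 0 ≤ ∑' q, (D q + D' q) ^ r :=
        tsum_nonneg fun q => Real.rpow_nonneg (add_nonneg (hD0 q) (hD0' q)) r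
      have t1 : (∑' q, D q ^ r) ^ (1 / r) ≤ η := by
        have := Real.rpow_le_rpow (tsum_nonneg fun q => Real.rpow_nonneg (hD0 q) r) hle
          (by positivity : 0 ≤ 1 / r)
        rwa [← Real.rpow_mul h.nonneg, mul_one_div_cancel hr0.ne', Real.rpow_one] at this
      have t2 : (∑' q, D' q ^ r) ^ (1 / r) ≤ η' := by
        have := Real.rpow_le_rpow (tsum_nonneg fun q => Real.rpow_nonneg (hD0' q) r) hle'
          (by positivity : 0 ≤ 1 / r)
        rwa [← Real.rpow_mul h'.nonneg, mul_one_div_cancel hr0.ne', Real.rpow_one] at this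
      have t3 : (∑' q, (D q + D' q) ^ r) ^ (1 / r) ≤ η + η' := h2.trans (add_le_add t1 t2)
      have t4 := Real.rpow_le_rpow (Real.rpow_nonneg t0 _) t3 hr0.le
      rwa [← Real.rpow_mul t0, one_div_mul_cancel hr0.ne', Real.rpow_one] at t4
  · rw [integral_add b.int_dom b'.int_dom]
    exact (abs_add_le _ _).trans (add_le_add h.mean h'.mean)

lemma Small.const_mul {η : ℝ} {w : V → ℝ} (h : Small χ ψ r η w) (c : ℝ) :
    Small χ ψ r (|c| * η) (fun x => c * w x) := by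
  refine ⟨fun x => ?_, ?_, ?_⟩
  · rw [cv_mul, abs_mul]
    exact mul_le_mul_of_nonneg_left (h.low x) (abs_nonneg _)
  · obtain ⟨D, hD0, hD, hs, hle⟩ := h.high
    have e : ∀ q, (|c| * D q) ^ r = |c| ^ r * D q ^ r := fun q =>
      Real.mul_rpow (abs_nonneg _) (hD0 q)
    refine ⟨fun q => |c| * D q, fun q => mul_nonneg (abs_nonneg _) (hD0 q), fun q x => ?_, ?_, ?_⟩
    · rw [cv_mul, abs_mul]
      exact mul_le_mul_of_nonneg_left (hD q x) (abs_nonneg _)
    · simp only [e]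
      exact hs.mul_left _
    · simp only [e]
      rw [tsum_mul_left, Real.mul_rpow (abs_nonneg _) h.nonneg]
      exact mul_le_mul_of_nonneg_left hle (Real.rpow_nonneg (abs_nonneg _) r)
  · rw [integral_const_mul, abs_mul]
    exact mul_le_mul_of_nonneg_left h.mean (abs_nonneg _)

lemma Small.mono (hr : 0 ≤ r) {η η' : ℝ} {w : V → ℝ} (h : Small χ ψ r η w) (hη : η ≤ η') :
    Small χ ψ r η' w := by
  obtain ⟨D, hD0, hD, hs, hle⟩ := h.high
  exact ⟨fun x => (h.low x).trans hη,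
    ⟨D, hD0, hD, hs, hle.trans (Real.rpow_le_rpow h.nonneg hη hr)⟩, h.mean.trans hη⟩

lemma Small.zero (hr : 0 < r) : Small χ ψ r 0 (fun _ => 0) := by
  refine ⟨fun x => by simp [cv], ⟨fun _ => 0, fun _ => le_rfl, fun q x => by simp [cv], ?_, ?_⟩,
    by simp⟩
  · simp only [Real.zero_rpow hr.ne']
    exact summable_zero
  · simp [Real.zero_rpow hr.ne']

lemma Small.sum (hr : 1 ≤ r) (hχ : Ker χ M) (hψ : Ker ψ M) {ι : Type*} (s : Finset ι) {η : ι → ℝ}
    {w : ι → V → ℝ} (b : ∀ i ∈ s, Bdc (w i)) (h : ∀ i ∈ s, Small χ ψ r (η i) (w i)) :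
    Small χ ψ r (∑ i ∈ s, η i) (fun x => ∑ i ∈ s, w i x) ∧ Bdc (fun x => ∑ i ∈ s, w i x) := by
  classical
  induction s using Finset.induction_on with
  | empty =>
    simp only [Finset.sum_empty]
    exact ⟨Small.zero (by linarith), continuous_const, 0, fun x => by simp⟩
  | insert a s ha ih =>
    obtain ⟨h1, h2⟩ := ih (fun i hi => b i (Finset.mem_insert_of_mem hi))
      (fun i hi => h i (Finset.mem_insert_of_mem hi))
    have ba := b a (Finset.mem_insert_self a s)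
    simp only [Finset.sum_insert ha]
    refine ⟨Small.add hr hχ hψ ba h2 (h a (Finset.mem_insert_self a s)) h1,
      ba.1.add h2.1, ?_⟩
    obtain ⟨B, hB⟩ := ba.2
    obtain ⟨B', hB'⟩ := h2.2
    exact ⟨B + B', fun x => (abs_add_le _ _).trans (add_le_add (hB x) (hB' x))⟩

/-- Lipschitz functions. -/
lemma small_of_lip (hr : 1 ≤ r) (hχ : Ker χ M) (hψ : Ker ψ M) (h0 : ∫ y, ψ y = 0) {w : V → ℝ}
    (hc : Continuous w) {B Λ : ℝ} (hB : ∀ x, |w x| ≤ B) (hΛ : 0 ≤ Λ)
    (hlip : ∀ x y, |w x - w y| ≤ Λ * ‖x - y‖) :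
    Small χ ψ r ((M + (volume Dom).toReal) * B + 2 * (M * Λ)) w := by
  have hM := hχ.nonneg
  have hB0 : 0 ≤ B := (abs_nonneg _).trans (hB 0)
  have hr0 : 0 < r := by linarith
  have hv : 0 ≤ (volume Dom).toReal := ENNReal.toReal_nonneg
  refine ⟨fun x => ?_, ⟨fun q => M * Λ * (1 / 2) ^ q, fun q => by positivity, fun q x =>
    cv_high hψ h0 hc hB hΛ hlip (by positivity) x, ?_, ?_⟩, ?_⟩
  · refine (cv_abs_le hχ hB 1 x).trans ?_
    have : 0 ≤ (volume Dom).toReal * B := by positivity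
    have : 0 ≤ M * Λ := by positivity
    nlinarith
  all_goals
    try
      have e : ∀ q : ℕ, (M * Λ * (1 / 2) ^ q) ^ r ≤ (M * Λ) ^ r * (1 / 2) ^ q := by
        intro q
        rw [Real.mul_rpow (by positivity) (by positivity)]
        refine mul_le_mul_of_nonneg_left ?_ (by positivity)
        exact Real.rpow_le_self_of_le_one (by positivity)
          (pow_le_one₀ (by norm_num) (by norm_num)) hr
      have hs : Summable (fun q : ℕ => (M * Λ) ^ r * ((1 : ℝ) / 2) ^ q) :=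
        summable_geometric_two.mul_left _
      have hs' : Summable (fun q : ℕ => (M * Λ * (1 / 2) ^ q) ^ r) :=
        Summable.of_nonneg_of_le (fun q => by positivity) e hs
  · exact hs'
  · refine (hs'.tsum_le_tsum e hs).trans ?_
    rw [tsum_mul_left, tsum_geometric_two]
    have h1 : (M * Λ) ^ r * 2 ≤ (2 * (M * Λ)) ^ r := by
      rw [Real.mul_rpow (by norm_num : (0 : ℝ) ≤ 2) (by positivity : 0 ≤ M * Λ)]
      have h2 : (2 : ℝ) ≤ 2 ^ r := by
        calc (2 : ℝ) = 2 ^ (1 : ℝ) := by simp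
          _ ≤ 2 ^ r := Real.rpow_le_rpow_of_exponent_le (by norm_num) hr
      have : 0 ≤ (M * Λ) ^ r := by positivity
      nlinarith
    refine h1.trans (Real.rpow_le_rpow (by positivity) ?_ hr0.le)
    have : 0 ≤ (M + (volume Dom).toReal) * B := by positivity
    linarith
  · have h2 := norm_setIntegral_le_of_norm_le_const (μ := volume) (s := Dom) dom_lt_top
      (f := w) (C := B) (fun y _ => hB y)
    rw [Real.norm_eq_abs, Measure.real] at h2
    refine h2.trans ?_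
    have : 0 ≤ M * B := by positivity
    have : 0 ≤ M * Λ := by positivity
    nlinarith

/-! ### uniformity in the kernels -/

/-- Smallness, uniformly for all kernels with the constant `M`. -/
def SmallM (M r η : ℝ) (w : V → ℝ) : Prop :=
  ∀ χ ψ : V → ℝ, Ker χ M → Ker ψ M → ∫ y, ψ y = 0 → Small χ ψ r η w

lemma ker_zero {M : ℝ} (hM : 0 ≤ M) : Ker (fun _ => 0) M where
  cont := continuous_const
  int := integrable_zero _ _ _
  int1 := by simp
  le0 := by simpa using hM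
  le1 := by simpa using hM
  lip h := by
    simp only [sub_self, abs_zero, integral_zero]
    positivity

lemma SmallM.mean (hM : 0 ≤ M) {η : ℝ} {w : V → ℝ} (h : SmallM M r η w) :
    |∫ x in Dom, w x| ≤ η :=
  (h _ _ (ker_zero hM) (ker_zero hM) (by simp)).mean

lemma SmallM.add (hr : 1 ≤ r) {η η' : ℝ} {w w' : V → ℝ}
    (b : Bdc w) (b' : Bdc w') (h : SmallM M r η w) (h' : SmallM M r η' w') :
    SmallM M r (η + η') (fun x => w x + w' x) := fun χ ψ hχ hψ h0 =>
  Small.add hr hχ hψ b b' (h χ ψ hχ hψ h0) (h' χ ψ hχ hψ h0)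

lemma SmallM.const_mul {η : ℝ} {w : V → ℝ} (h : SmallM M r η w) (c : ℝ) :
    SmallM M r (|c| * η) (fun x => c * w x) := fun χ ψ hχ hψ h0 =>
  (h χ ψ hχ hψ h0).const_mul c

lemma SmallM.mono (hr : 0 ≤ r) {η η' : ℝ} {w : V → ℝ} (h : SmallM M r η w) (hη : η ≤ η') :
    SmallM M r η' w := fun χ ψ hχ hψ h0 => (h χ ψ hχ hψ h0).mono hr hη

lemma SmallM.zero (hr : 0 < r) : SmallM M r 0 (fun _ => 0) := fun _ _ _ _ _ => Small.zero hr

lemma SmallM.sum (hr : 1 ≤ r) {ι : Type*} (s : Finset ι) {η : ι → ℝ}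
    {w : ι → V → ℝ} (b : ∀ i ∈ s, Bdc (w i)) (h : ∀ i ∈ s, SmallM M r (η i) (w i)) :
    SmallM M r (∑ i ∈ s, η i) (fun x => ∑ i ∈ s, w i x) := fun χ ψ hχ hψ h0 =>
  (Small.sum hr hχ hψ s b fun i hi => h i hi χ ψ hχ hψ h0).1

lemma smallM_of_lip (hr : 1 ≤ r) {w : V → ℝ}
    (hc : Continuous w) {B Λ : ℝ} (hB : ∀ x, |w x| ≤ B) (hΛ : 0 ≤ Λ)
    (hlip : ∀ x y, |w x - w y| ≤ Λ * ‖x - y‖) :
    SmallM M r ((M + (volume Dom).toReal) * B + 2 * (M * Λ)) w := fun _ _ hχ hψ h0 =>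
  small_of_lip hr hχ hψ h0 hc hB hΛ hlip

end Pool.Agent.K3h70.EB
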