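import Pool.Agent.K3h70.EB.Low
import Pool.Agent.K3h70.EB.Avg

/-!
# Multiplication by a function of an oscillating sum
-/

set_option autoImplicit false

open MeasureTheory Set Filter Topology
open scoped ENNReal

namespace Pool.Agent.K3h70.EB

open Pool.Agent.H708R2.EulerSign (V Periodic3 Dom dom_lt_top dom_meas)
open Pool.Agent.H708R2.EulerModes (ph ph_add ph_smul ph_contDiff rv ph_single integral_translate)

/-- The exponents of the frequencies. -/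
def qe (n₀ l b : ℕ) : ℕ := n₀ + l * (b + 1)

/-- The frequencies. -/
noncomputable def Nf (n₀ l b : ℕ) : ℝ := 2 ^ qe n₀ l b

lemma Nf_pos (n₀ l b : ℕ) : 0 < Nf n₀ l b := by unfold Nf; positivity

lemma le_Nf (n₀ l b : ℕ) : (2 : ℝ) ^ l ≤ Nf n₀ l b := by
  unfold Nf qe
  apply pow_le_pow_right₀ one_le_two
  nlinarith

lemma Nf_succ (n₀ l b : ℕ) : Nf n₀ l (b + 1) = 2 ^ l * Nf n₀ l b := by
  unfold Nf qe
  rw [← pow_add]
  congr 1
  ring

lemma sum_Nf {n₀ l : ℕ} (hl : 1 ≤ l) (b : ℕ) :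
    ∑ i ∈ Finset.range b, Nf n₀ l i ≤ 2 * (1 / 2 : ℝ) ^ l * Nf n₀ l b := by
  have h2 : (2 : ℝ) ≤ 2 ^ l := by
    calc (2 : ℝ) = 2 ^ 1 := by norm_num
      _ ≤ 2 ^ l := pow_le_pow_right₀ one_le_two hl
  have h3 : (1 / 2 : ℝ) ^ l * 2 ^ l = 1 := by rw [← mul_pow]; norm_num
  induction b with
  | zero =>
    have := Nf_pos n₀ l 0
    simp only [Finset.range_zero, Finset.sum_empty]
    positivity
  | succ b ih =>
    rw [Finset.sum_range_succ, Nf_succ]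
    have hN := Nf_pos n₀ l b
    have h4 : 2 * (1 / 2 : ℝ) ^ l * (2 ^ l * Nf n₀ l b) = 2 * Nf n₀ l b := by
      calc 2 * (1 / 2 : ℝ) ^ l * (2 ^ l * Nf n₀ l b)
          = 2 * ((1 / 2 : ℝ) ^ l * 2 ^ l) * Nf n₀ l b := by ring
        _ = 2 * Nf n₀ l b := by rw [h3]; ring
    rw [h4]
    have h5 : 2 * (1 / 2 : ℝ) ^ l ≤ 1 := by
      have h6 : 0 < (1 / 2 : ℝ) ^ l := by positivity
      nlinarith
    have h7 : 2 * (1 / 2 : ℝ) ^ l * Nf n₀ l b ≤ 1 * Nf n₀ l b := by gcongr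
    linarith

/-- The `ℓ¹` norm of the integer vector. -/
noncomputable def Th (θ : Fin 3 → ℤ) : ℝ := ∑ i, |(θ i : ℝ)|

lemma Th_nonneg (θ : Fin 3 → ℤ) : 0 ≤ Th θ := Finset.sum_nonneg fun _ _ => abs_nonneg _

lemma ph_abs_le (θ : Fin 3 → ℤ) (x : V) : |ph θ x| ≤ Th θ * ‖x‖ := by
  unfold ph Th
  refine (Finset.abs_sum_le_sum_abs _ _).trans ?_
  rw [Finset.sum_mul]
  refine Finset.sum_le_sum fun i _ => ?_
  rw [abs_mul]
  exact mul_le_mul_of_nonneg_left (norm_le_pi_norm x i) (abs_nonneg _)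

lemma ph_sub (θ : Fin 3 → ℤ) (x y : V) : ph θ (x - y) = ph θ x - ph θ y := by
  have h := ph_add θ (x - y) y
  rw [sub_add_cancel] at h
  linarith

lemma ph_diff_le (θ : Fin 3 → ℤ) (x y : V) : |ph θ x - ph θ y| ≤ Th θ * ‖x - y‖ := by
  rw [← ph_sub]; exact ph_abs_le θ _

lemma cos_lip (a b : ℝ) : |Real.cos a - Real.cos b| ≤ |a - b| := by
  have := Convex.norm_image_sub_le_of_norm_deriv_le (f := Real.cos) (s := univ) (C := 1)
    (fun x _ => Real.differentiable_cos x) (fun x _ => by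
      rw [Real.deriv_cos, norm_neg]; exact Real.abs_sin_le_one x) convex_univ (mem_univ b)
    (mem_univ a)
  simpa [Real.norm_eq_abs] using this

/-- The oscillating sum as a function of one variable. -/
noncomputable def Xs (ε : ℝ) (n₀ l b : ℕ) (s : ℝ) : ℝ :=
  ε * ∑ i ∈ Finset.range b, Real.cos (Nf n₀ l i * s)

lemma Xs_zero (ε : ℝ) (n₀ l : ℕ) (s : ℝ) : Xs ε n₀ l 0 s = 0 := by simp [Xs]

lemma Xs_succ (ε : ℝ) (n₀ l b : ℕ) (s : ℝ) :
    Xs ε n₀ l (b + 1) s = Xs ε n₀ l b s + ε * Real.cos (Nf n₀ l b * s) := by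
  unfold Xs
  rw [Finset.sum_range_succ]
  ring

lemma Xs_contDiff {ε : ℝ} {n₀ l b : ℕ} {n : WithTop ℕ∞} : ContDiff ℝ n (Xs ε n₀ l b) := by
  unfold Xs
  exact contDiff_const.mul (ContDiff.sum fun i _ =>
    Real.contDiff_cos.comp (contDiff_const.mul contDiff_id))

lemma Xs_lip {ε : ℝ} (hε : 0 ≤ ε) (n₀ l b : ℕ) (s t : ℝ) :
    |Xs ε n₀ l b s - Xs ε n₀ l b t| ≤ ε * (∑ i ∈ Finset.range b, Nf n₀ l i) * |s - t| := by
  unfold Xs
  rw [← mul_sub, ← Finset.sum_sub_distrib, abs_mul, abs_of_nonneg hε, mul_assoc, Finset.sum_mul]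
  refine mul_le_mul_of_nonneg_left ?_ hε
  refine (Finset.abs_sum_le_sum_abs _ _).trans (Finset.sum_le_sum fun i _ => ?_)
  refine (cos_lip _ _).trans ?_
  rw [← mul_sub, abs_mul, abs_of_pos (Nf_pos _ _ _)]

lemma Xs_periodic (ε : ℝ) (n₀ l b : ℕ) (s : ℝ) (z : ℤ) :
    Xs ε n₀ l b (s + z * (2 * Real.pi / 2 ^ n₀)) = Xs ε n₀ l b s := by
  unfold Xs
  congr 1
  refine Finset.sum_congr rfl fun i _ => ?_
  have e : Nf n₀ l i * (s + z * (2 * Real.pi / 2 ^ n₀))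
      = Nf n₀ l i * s + ((z * 2 ^ (l * (i + 1)) : ℤ) : ℝ) * (2 * Real.pi) := by
    unfold Nf qe
    push_cast
    rw [pow_add]
    field_simp
  rw [e, Real.cos_add_int_mul_two_pi]

section

variable {σ : ℝ → ℝ} {L : ℝ} (J n₀ l : ℕ)

/-- The stages. -/
noncomputable def W (σ : ℝ → ℝ) (ε : ℝ) (J n₀ l : ℕ) (θ : Fin 3 → ℤ) (h : V → ℝ) (b : ℕ)
    (x : V) : ℝ := h x * Ti ε (J - b) σ (Xs ε n₀ l b (ph θ x))

/-- The profiles of the differences of the stages. -/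
noncomputable def pr (σ : ℝ → ℝ) (ε : ℝ) (J n₀ l : ℕ) (θ : Fin 3 → ℤ) (h : V → ℝ) (b : ℕ)
    (x : V) (t : ℝ) : ℝ :=
  h x * (Ti ε (J - (b + 1)) σ (Xs ε n₀ l b (ph θ x) + ε * Real.cos t)
    - Ti ε (J - b) σ (Xs ε n₀ l b (ph θ x)))

variable {J n₀ l}

lemma Ti_sub {ε : ℝ} {b : ℕ} (hb : b < J) :
    Ti ε (J - b) σ = T ε (Ti ε (J - (b + 1)) σ) := by
  rw [← Ti_succ]
  congr 1
  omega

lemma W_diff {ε : ℝ} {θ : Fin 3 → ℤ} {h : V → ℝ} (b : ℕ) (x : V) :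
    W σ ε J n₀ l θ h (b + 1) x - W σ ε J n₀ l θ h b x
      = pr σ ε J n₀ l θ h b x (Nf n₀ l b * ph θ x) := by
  unfold W pr
  rw [Xs_succ]
  ring

/-- The constant. -/
noncomputable def C3 (L B Λ : ℝ) (θ : Fin 3 → ℤ) : ℝ :=
  2 * B * L + (2 * L * Λ + 4 * B * L * Th θ) + B * L * Th θ

lemma C3_nonneg {L B Λ : ℝ} (hL : 0 ≤ L) (hB : 0 ≤ B) (hΛ : 0 ≤ Λ) (θ : Fin 3 → ℤ) :
    0 ≤ C3 L B Λ θ := by
  have := Th_nonneg θ
  unfold C3
  positivity

lemma pr_prof (hσ : Lip1 L σ) (hL : 0 ≤ L) {ε : ℝ} (hε : 0 ≤ ε) (hε1 : ε ≤ 1) (hl : 1 ≤ l)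
    {θ : Fin 3 → ℤ}
    {h : V → ℝ} (hc : Continuous h) {B Λ : ℝ} (hB : ∀ x, |h x| ≤ B) (hΛ : 0 ≤ Λ)
    (hlip : ∀ x y, |h x - h y| ≤ Λ * ‖x - y‖) {b : ℕ} (hb : b < J) :
    Prof (pr σ ε J n₀ l θ h b) (C3 L B Λ θ * ε) (C3 L B Λ θ * (1 / 2) ^ l * Nf n₀ l b) := by
  have hB0 : 0 ≤ B := (abs_nonneg _).trans (hB 0)
  have hTh := Th_nonneg θ
  have hN := Nf_pos n₀ l b
  have hT := Ti_lip hσ ε (J - (b + 1))
  have hT' := Ti_lip hσ ε (J - b)
  have hphc : Continuous (ph θ) := (ph_contDiff θ).continuous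
  have hXc : Continuous (Xs ε n₀ l b) := (Xs_contDiff (n := 1)).continuous
  have near : ∀ x t, |Ti ε (J - (b + 1)) σ (Xs ε n₀ l b (ph θ x) + ε * Real.cos t)
      - Ti ε (J - b) σ (Xs ε n₀ l b (ph θ x))| ≤ 2 * (L * ε) := by
    intro x t
    rw [Ti_sub hb]
    exact T_near hT hε _ _
  refine ⟨?_, fun x t => ?_, fun x y t => ?_, fun x t => ?_, fun x => ?_⟩
  · unfold pr
    have c1 := hT.continuous
    have c2 := hT'.continuous
    fun_prop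
  · unfold pr
    rw [abs_mul]
    calc |h x| * |Ti ε (J - (b + 1)) σ (Xs ε n₀ l b (ph θ x) + ε * Real.cos t)
      - Ti ε (J - b) σ (Xs ε n₀ l b (ph θ x))| ≤ B * (2 * (L * ε)) := by
          gcongr
          · exact hB x
          · exact near x t
      _ = 2 * B * L * ε := by ring
      _ ≤ C3 L B Λ θ * ε := by
          unfold C3
          have h1 : 0 ≤ (2 * L * Λ + 4 * B * L * Th θ) + B * L * Th θ := by positivity
          nlinarith
  · unfold pr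
    set a := Ti ε (J - (b + 1)) σ (Xs ε n₀ l b (ph θ x) + ε * Real.cos t)
      - Ti ε (J - b) σ (Xs ε n₀ l b (ph θ x)) with ha
    set a' := Ti ε (J - (b + 1)) σ (Xs ε n₀ l b (ph θ y) + ε * Real.cos t)
      - Ti ε (J - b) σ (Xs ε n₀ l b (ph θ y)) with ha'
    have e : h x * a - h y * a' = (h x - h y) * a + h y * (a - a') := by ring
    rw [e]
    refine (abs_add_le _ _).trans ?_
    rw [abs_mul, abs_mul]
    have hX : |Xs ε n₀ l b (ph θ x) - Xs ε n₀ l b (ph θ y)|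
        ≤ 2 * (1 / 2 : ℝ) ^ l * Nf n₀ l b * (Th θ * ‖x - y‖) := by
      refine (Xs_lip hε n₀ l b _ _).trans ?_
      have h1 := sum_Nf (n₀ := n₀) hl b
      have h0 : 0 ≤ ∑ i ∈ Finset.range b, Nf n₀ l i :=
        Finset.sum_nonneg fun i _ => (Nf_pos _ _ _).le
      calc ε * (∑ i ∈ Finset.range b, Nf n₀ l i) * |ph θ x - ph θ y|
          ≤ 1 * (2 * (1 / 2 : ℝ) ^ l * Nf n₀ l b) * (Th θ * ‖x - y‖) := by
            gcongr
            exact ph_diff_le θ x y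
        _ = _ := by ring
    have haa : |a - a'| ≤ 2 * (L * (2 * (1 / 2 : ℝ) ^ l * Nf n₀ l b * (Th θ * ‖x - y‖))) := by
      have h1 := hT (Xs ε n₀ l b (ph θ x) + ε * Real.cos t)
        (Xs ε n₀ l b (ph θ y) + ε * Real.cos t)
      rw [add_sub_add_right_eq_sub] at h1
      have h2 := hT' (Xs ε n₀ l b (ph θ x)) (Xs ε n₀ l b (ph θ y))
      have h3 : L * |Xs ε n₀ l b (ph θ x) - Xs ε n₀ l b (ph θ y)|
          ≤ L * (2 * (1 / 2 : ℝ) ^ l * Nf n₀ l b * (Th θ * ‖x - y‖)) := by gcongr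
      have e2 : a - a' = (Ti ε (J - (b + 1)) σ (Xs ε n₀ l b (ph θ x) + ε * Real.cos t)
        - Ti ε (J - (b + 1)) σ (Xs ε n₀ l b (ph θ y) + ε * Real.cos t))
        - (Ti ε (J - b) σ (Xs ε n₀ l b (ph θ x)) - Ti ε (J - b) σ (Xs ε n₀ l b (ph θ y))) := by
        rw [ha, ha']; ring
      rw [e2]
      refine (abs_sub _ _).trans ?_
      linarith
    have h1 : (1 : ℝ) ≤ (1 / 2) ^ l * Nf n₀ l b := by
      have h2 := le_Nf n₀ l b
      have h3 : (1 / 2 : ℝ) ^ l * 2 ^ l = 1 := by rw [← mul_pow]; norm_num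
      calc (1 : ℝ) = (1 / 2) ^ l * 2 ^ l := h3.symm
        _ ≤ (1 / 2) ^ l * Nf n₀ l b := by gcongr
    have hn : 0 ≤ ‖x - y‖ := norm_nonneg _
    calc |h x - h y| * |a| + |h y| * |a - a'|
        ≤ Λ * ‖x - y‖ * (2 * (L * 1)) + B * (2 * (L * (2 * (1 / 2 : ℝ) ^ l * Nf n₀ l b
          * (Th θ * ‖x - y‖)))) := by
          gcongr
          · exact hlip x y
          · exact (near x t).trans (by gcongr)
          · exact hB y
      _ = 2 * L * Λ * ‖x - y‖ * 1 + 4 * B * L * Th θ * ‖x - y‖ * ((1 / 2) ^ l * Nf n₀ l b) := by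
          ring
      _ ≤ 2 * L * Λ * ‖x - y‖ * ((1 / 2) ^ l * Nf n₀ l b)
          + 4 * B * L * Th θ * ‖x - y‖ * ((1 / 2) ^ l * Nf n₀ l b) := by gcongr
      _ = (2 * L * Λ + 4 * B * L * Th θ) * ((1 / 2) ^ l * Nf n₀ l b * ‖x - y‖) := by ring
      _ ≤ C3 L B Λ θ * ((1 / 2) ^ l * Nf n₀ l b * ‖x - y‖) := by
          refine mul_le_mul_of_nonneg_right ?_ (by positivity)
          unfold C3
          have h2 : 0 ≤ 2 * B * L := by positivity
          have h3 : 0 ≤ B * L * Th θ := by positivity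
          linarith
      _ = C3 L B Λ θ * (1 / 2) ^ l * Nf n₀ l b * ‖x - y‖ := by ring
  · unfold pr
    rw [Real.cos_add_two_pi]
  · unfold pr
    rw [intervalIntegral.integral_const_mul]
    have hpi : 0 < 2 * Real.pi := by positivity
    rw [intervalIntegral.integral_sub (T_integrable hT.continuous ε _) intervalIntegrable_const,
      Ti_sub hb, intervalIntegral.integral_const]
    unfold T
    rw [sub_zero, smul_eq_mul]
    field_simp
    ring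

/-- The Lipschitz constant of the differences. -/
lemma pr_lip (hσ : Lip1 L σ) (hL : 0 ≤ L) {ε : ℝ} (hε : 0 ≤ ε) (hε1 : ε ≤ 1) (hl : 1 ≤ l)
    {θ : Fin 3 → ℤ}
    {h : V → ℝ} (hc : Continuous h) {B Λ : ℝ} (hB : ∀ x, |h x| ≤ B) (hΛ : 0 ≤ Λ)
    (hlip : ∀ x y, |h x - h y| ≤ Λ * ‖x - y‖) {b : ℕ} (hb : b < J) (x y : V) :
    |pr σ ε J n₀ l θ h b x (Nf n₀ l b * ph θ x) - pr σ ε J n₀ l θ h b y (Nf n₀ l b * ph θ y)|
      ≤ C3 L B Λ θ * ((1 / 2) ^ l + ε) * Nf n₀ l b * ‖x - y‖ := by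
  have hB0 : 0 ≤ B := (abs_nonneg _).trans (hB 0)
  have hTh := Th_nonneg θ
  have hN := Nf_pos n₀ l b
  have hP := pr_prof (n₀ := n₀) hσ hL hε hε1 hl (θ := θ) hc hB hΛ hlip hb
  have h1 := hP.lip x y (Nf n₀ l b * ph θ x)
  have hT := Ti_lip hσ ε (J - (b + 1))
  have h2 : |pr σ ε J n₀ l θ h b y (Nf n₀ l b * ph θ x)
      - pr σ ε J n₀ l θ h b y (Nf n₀ l b * ph θ y)|
      ≤ B * L * Th θ * (ε * Nf n₀ l b * ‖x - y‖) := by
    unfold pr
    rw [← mul_sub, sub_sub_sub_cancel_right, abs_mul]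
    have h3 := hT (Xs ε n₀ l b (ph θ y) + ε * Real.cos (Nf n₀ l b * ph θ x))
      (Xs ε n₀ l b (ph θ y) + ε * Real.cos (Nf n₀ l b * ph θ y))
    rw [add_sub_add_left_eq_sub, ← mul_sub, abs_mul, abs_of_nonneg hε] at h3
    have h4 : |Real.cos (Nf n₀ l b * ph θ x) - Real.cos (Nf n₀ l b * ph θ y)|
        ≤ Nf n₀ l b * (Th θ * ‖x - y‖) := by
      refine (cos_lip _ _).trans ?_
      rw [← mul_sub, abs_mul, abs_of_pos hN]
      gcongr
      exact ph_diff_le θ x y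
    calc |h y| * |Ti ε (J - (b + 1)) σ (Xs ε n₀ l b (ph θ y) + ε * Real.cos (Nf n₀ l b * ph θ x))
          - Ti ε (J - (b + 1)) σ (Xs ε n₀ l b (ph θ y) + ε * Real.cos (Nf n₀ l b * ph θ y))|
        ≤ B * (L * (ε * (Nf n₀ l b * (Th θ * ‖x - y‖)))) := by
          gcongr
          · exact hB y
          · exact h3.trans (by gcongr)
      _ = _ := by ring
  have e : pr σ ε J n₀ l θ h b x (Nf n₀ l b * ph θ x) - pr σ ε J n₀ l θ h b y (Nf n₀ l b * ph θ y)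
      = (pr σ ε J n₀ l θ h b x (Nf n₀ l b * ph θ x)
        - pr σ ε J n₀ l θ h b y (Nf n₀ l b * ph θ x))
      + (pr σ ε J n₀ l θ h b y (Nf n₀ l b * ph θ x)
      - pr σ ε J n₀ l θ h b y (Nf n₀ l b * ph θ y)) := by ring
  rw [e]
  refine (abs_add_le _ _).trans ?_
  have h5 : B * L * Th θ ≤ C3 L B Λ θ := by
    unfold C3
    have h2 : 0 ≤ 2 * B * L := by positivity
    have h3 : 0 ≤ (2 * L * Λ + 4 * B * L * Th θ) := by positivity
    linarith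
  have h6 : B * L * Th θ * (ε * Nf n₀ l b * ‖x - y‖)
      ≤ C3 L B Λ θ * (ε * Nf n₀ l b * ‖x - y‖) := by
    have : 0 ≤ ‖x - y‖ := norm_nonneg _
    gcongr
  calc _ ≤ C3 L B Λ θ * (1 / 2) ^ l * Nf n₀ l b * ‖x - y‖
        + C3 L B Λ θ * (ε * Nf n₀ l b * ‖x - y‖) := add_le_add h1 (h2.trans h6)
    _ = _ := by ring

end

/-- `2^(-|q - m|)`. -/
noncomputable def aw (q m : ℕ) : ℝ := (1 / 2) ^ ((m - q) + (q - m))

/-- `1` for `q ≤ m` and `2^(m - q)` for `q > m`. -/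
noncomputable def tw (q m : ℕ) : ℝ := (1 / 2) ^ (q - m)

lemma aw_nonneg (q m : ℕ) : 0 ≤ aw q m := by unfold aw; positivity

lemma tw_nonneg (q m : ℕ) : 0 ≤ tw q m := by unfold tw; positivity

section

variable {σ : ℝ → ℝ} {L : ℝ} {J n₀ l : ℕ}

/-- The bounds for the difference of two stages. -/
lemma stage_bound {ψ : V → ℝ} {M : ℝ} (hψ : Ker ψ M) (h0 : ∫ y, ψ y = 0)
    (hσ : Lip1 L σ) (hL : 0 ≤ L) {ε : ℝ} (hε : 0 ≤ ε) (hε1 : ε ≤ 1) (hl : 1 ≤ l)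
    {θ : Fin 3 → ℤ} (hθ : θ ≠ 0)
    {h : V → ℝ} (hc : Continuous h) {B Λ : ℝ} (hB : ∀ x, |h x| ≤ B) (hΛ : 0 ≤ Λ)
    (hlip : ∀ x y, |h x - h y| ≤ Λ * ‖x - y‖) {b : ℕ} (hb : b < J) (q : ℕ) (x : V) :
    |cv ψ ((1 / 2) ^ q) (fun x => pr σ ε J n₀ l θ h b x (Nf n₀ l b * ph θ x)) x|
      ≤ M * (2 * Real.pi) * C3 L B Λ θ
        * (ε * aw q (qe n₀ l b) + (1 / 2) ^ l * tw q (qe n₀ l b)) := by
  have hB0 : 0 ≤ B := (abs_nonneg _).trans (hB 0)
  have hN := Nf_pos n₀ l b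
  have hM := hψ.nonneg
  have hC := C3_nonneg hL hB0 hΛ θ
  have hP := pr_prof (n₀ := n₀) hσ hL hε hε1 hl (θ := θ) hc hB hΛ hlip hb
  have hpi : (1 : ℝ) ≤ 2 * Real.pi := by
    have := Real.pi_gt_three
    linarith
  rcases le_or_gt q (qe n₀ l b) with hq | hq
  · refine (cv_low hψ hP hθ hN (by positivity) x).trans (le_of_eq ?_)
    have e1 : aw q (qe n₀ l b) = 1 / ((1 / 2) ^ q * Nf n₀ l b) := by
      unfold aw Nf
      rw [Nat.sub_eq_zero_of_le hq, add_zero]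
      obtain ⟨k, hk⟩ := Nat.exists_eq_add_of_le hq
      rw [hk, Nat.add_sub_cancel_left, pow_add, ← mul_assoc, ← mul_pow]
      norm_num
      rw [one_div, inv_pow]
    have e2 : tw q (qe n₀ l b) = 1 := by
      unfold tw
      rw [Nat.sub_eq_zero_of_le hq, pow_zero]
    rw [e1, e2]
    field_simp
  · have hcw : Continuous (fun x => pr σ ε J n₀ l θ h b x (Nf n₀ l b * ph θ x)) := by
      have hphc : Continuous (ph θ) := (ph_contDiff θ).continuous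
      exact hP.cont.comp (f := fun x : V => ((x, Nf n₀ l b * ph θ x) : V × ℝ)) (by fun_prop)
    refine (cv_high hψ h0 hcw (fun x => hP.bdd _ _) (by positivity)
      (pr_lip hσ hL hε hε1 hl hc hB hΛ hlip hb) (by positivity) x).trans ?_
    have e1 : Nf n₀ l b * (1 / 2) ^ q = (1 / 2) ^ (q - qe n₀ l b) := by
      unfold Nf
      obtain ⟨k, hk⟩ := Nat.exists_eq_add_of_le hq.le
      rw [hk, Nat.add_sub_cancel_left, pow_add, ← mul_assoc, ← mul_pow]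
      norm_num
    have e2 : aw q (qe n₀ l b) = (1 / 2) ^ (q - qe n₀ l b) := by
      unfold aw
      rw [Nat.sub_eq_zero_of_le hq.le, zero_add]
    unfold tw
    rw [e2]
    have h5 : (0 : ℝ) ≤ (1 / 2) ^ (q - qe n₀ l b) := by positivity
    calc M * (C3 L B Λ θ * ((1 / 2) ^ l + ε) * Nf n₀ l b) * (1 / 2) ^ q
        = M * 1 * C3 L B Λ θ * (ε * (Nf n₀ l b * (1 / 2) ^ q)
          + (1 / 2) ^ l * (Nf n₀ l b * (1 / 2) ^ q)) := by ring
      _ ≤ _ := by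
        rw [e1]
        gcongr

end

end Pool.Agent.K3h70.EB
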