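import Pool.Agent.K3h70.EB.Flow
import Pool.Agent.Y302.Tri.Uniq

/-!
# Truncation of the Fourier series of a field of class `H³`
-/

set_option autoImplicit false

open MeasureTheory Set Filter Topology
open scoped ENNReal ContDiff

namespace Pool.Agent.K3h70.EB

open Pool.Agent.H708R2.EulerSign
open Pool.Agent.H708R2.EulerModes
open Pool.Agent.Y302.Tri (cf vi vi_pos cf_eq HB N1 N1_nonneg)
open Pool.Agent.Y302.Trunc (resc resc_per resc_continuous ph_resc)

lemma vi_eq_inv : vi = (volume Dom).toReal⁻¹ := by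
  have h1 := cf_eq (f := fun _ => (1 : ℝ)) (fun _ _ => rfl) continuous_const 0
  have h2 : cf (fun _ => (1 : ℝ)) 0 = 1 := by
    unfold cf H459R3.NS.fc resc
    have := H459R3.NS.integral_ee 0
    simpa using this
  rw [h2] at h1
  have h3 : (∫ x in Dom, (1 : ℝ) * Real.cos (ph 0 x)) = (volume Dom).toReal := by
    simp [ph_zero, Measure.real]
  have h4 : (∫ x in Dom, (1 : ℝ) * Real.sin (ph 0 x)) = 0 := by
    simp [ph_zero]
  rw [h3, h4] at h1
  have h5 : (1 : ℝ) = vi * (volume Dom).toReal := by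
    have : ((1 : ℝ) : ℂ) = ((vi * (volume Dom).toReal : ℝ) : ℂ) := by
      push_cast
      rw [h1]
      push_cast
      ring
    exact_mod_cast this
  have h6 : (volume Dom).toReal ≠ 0 := vol_pos.ne'
  field_simp
  linarith

/-- The terms of the real Fourier series. -/
noncomputable def rt (g : V → ℝ) (k : Fin 3 → ℤ) (x : V) : ℝ :=
  (volume Dom).toReal⁻¹ * ((∫ x in Dom, g x * Real.cos (ph k x)) * Real.cos (ph k x)
    + (∫ x in Dom, g x * Real.sin (ph k x)) * Real.sin (ph k x))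

lemma ee_resc (k : Fin 3 → ℤ) (x : V) :
    H459R3.NS.ee k ((2 * Real.pi)⁻¹ • x) = Real.cos (ph k x) + Real.sin (ph k x) * Complex.I := by
  have hpi : (2 * Real.pi) ≠ 0 := by positivity
  have e : ph k x = 2 * Real.pi * H459R3.NS.ph k ((2 * Real.pi)⁻¹ • x) := by
    have := ph_resc k ((2 * Real.pi)⁻¹ • x)
    rw [smul_smul, mul_inv_cancel₀ hpi, one_smul] at this
    exact this
  unfold H459R3.NS.ee
  have e1 : (2 * Real.pi * Complex.I * ((H459R3.NS.ph k ((2 * Real.pi)⁻¹ • x) : ℝ) : ℂ))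
      = ((ph k x : ℝ) : ℂ) * Complex.I := by
    rw [e]; push_cast; ring
  rw [e1, Complex.exp_mul_I, ← Complex.ofReal_cos, ← Complex.ofReal_sin]

lemma re_aux (v a b c d : ℝ) :
    ((v : ℂ) * ((a : ℂ) - (b : ℂ) * Complex.I) * ((c : ℂ) + (d : ℂ) * Complex.I)).re
      = v * (a * c + b * d) := by
  simp
  ring

lemma re_aux2 (v a b : ℝ) (hv : 0 ≤ v) :
    v * |a| ≤ ‖(v : ℂ) * ((a : ℂ) - (b : ℂ) * Complex.I)‖ ∧
    v * |b| ≤ ‖(v : ℂ) * ((a : ℂ) - (b : ℂ) * Complex.I)‖ := by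
  rw [norm_mul, Complex.norm_real, Real.norm_eq_abs, abs_of_nonneg hv]
  constructor
  · refine mul_le_mul_of_nonneg_left ?_ hv
    have := Complex.abs_re_le_norm ((a : ℂ) - (b : ℂ) * Complex.I)
    simpa using this
  · refine mul_le_mul_of_nonneg_left ?_ hv
    have := Complex.abs_im_le_norm ((a : ℂ) - (b : ℂ) * Complex.I)
    simpa using this

lemma rt_re {g : V → ℝ} (hp : Periodic3 g) (hc : Continuous g) (k : Fin 3 → ℤ) (x : V) :
    (cf g k * H459R3.NS.ee k ((2 * Real.pi)⁻¹ • x)).re = rt g k x := by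
  rw [cf_eq hp hc, ee_resc, vi_eq_inv, re_aux]
  rfl

lemma rt_hasSum {g : V → ℝ} (hp : Periodic3 g) (hc : Continuous g)
    (hs : Summable fun k => ‖cf g k‖) (x : V) : HasSum (fun k => rt g k x) (g x) := by
  have hpi : (2 * Real.pi) ≠ 0 := by positivity
  have h1 := H459R3.NS.hasSum_fc (resc_per hp) (resc_continuous hc) hs.of_norm
    ((2 * Real.pi)⁻¹ • x)
  have h2 := Complex.hasSum_re h1
  have e : (resc g ((2 * Real.pi)⁻¹ • x)).re = g x := by
    unfold resc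
    rw [smul_smul, mul_inv_cancel₀ hpi, one_smul, Complex.ofReal_re]
  rw [e] at h2
  have e2 : (fun k => rt g k x)
      = fun k => (H459R3.NS.fc (resc g) k * H459R3.NS.ee k ((2 * Real.pi)⁻¹ • x)).re :=
    funext fun k => (rt_re hp hc k x).symm
  rw [e2]
  exact h2

lemma rt_abs_le {g : V → ℝ} (hp : Periodic3 g) (hc : Continuous g) (k : Fin 3 → ℤ) (x : V) :
    |rt g k x| ≤ 2 * ‖cf g k‖ := by
  have hv : 0 ≤ (volume Dom).toReal⁻¹ := inv_nonneg.2 vol_pos.le
  obtain ⟨h1, h2⟩ := re_aux2 (volume Dom).toReal⁻¹ (∫ x in Dom, g x * Real.cos (ph k x))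
    (∫ x in Dom, g x * Real.sin (ph k x)) hv
  rw [← vi_eq_inv, ← cf_eq hp hc, vi_eq_inv] at h1 h2
  unfold rt
  rw [abs_mul, abs_of_nonneg hv]
  set a := ∫ x in Dom, g x * Real.cos (ph k x)
  set b := ∫ x in Dom, g x * Real.sin (ph k x)
  have h3 : |a * Real.cos (ph k x) + b * Real.sin (ph k x)| ≤ |a| + |b| := by
    refine (abs_add_le _ _).trans ?_
    rw [abs_mul, abs_mul]
    have c1 := Real.abs_cos_le_one (ph k x)
    have c2 := Real.abs_sin_le_one (ph k x)
    have d1 := abs_nonneg a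
    have d2 := abs_nonneg b
    nlinarith
  calc (volume Dom).toReal⁻¹ * |a * Real.cos (ph k x) + b * Real.sin (ph k x)|
      ≤ (volume Dom).toReal⁻¹ * (|a| + |b|) := mul_le_mul_of_nonneg_left h3 hv
    _ ≤ 2 * ‖cf g k‖ := by linarith

lemma sin_lip (a b : ℝ) : |Real.sin a - Real.sin b| ≤ |a - b| := by
  have := Convex.norm_image_sub_le_of_norm_deriv_le (f := Real.sin) (s := univ) (C := 1)
    (fun x _ => Real.differentiable_sin x) (fun x _ => by
      rw [Real.deriv_sin]; exact Real.abs_cos_le_one x) convex_univ (mem_univ b)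
    (mem_univ a)
  simpa [Real.norm_eq_abs] using this

lemma rt_lip {g : V → ℝ} (hp : Periodic3 g) (hc : Continuous g) (k : Fin 3 → ℤ) (x y : V) :
    |rt g k x - rt g k y| ≤ 2 * (N1 k * ‖cf g k‖) * ‖x - y‖ := by
  have hv : 0 ≤ (volume Dom).toReal⁻¹ := inv_nonneg.2 vol_pos.le
  obtain ⟨h1, h2⟩ := re_aux2 (volume Dom).toReal⁻¹ (∫ x in Dom, g x * Real.cos (ph k x))
    (∫ x in Dom, g x * Real.sin (ph k x)) hv
  rw [← vi_eq_inv, ← cf_eq hp hc, vi_eq_inv] at h1 h2
  unfold rt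
  rw [← mul_sub, abs_mul, abs_of_nonneg hv]
  set a := ∫ x in Dom, g x * Real.cos (ph k x)
  set b := ∫ x in Dom, g x * Real.sin (ph k x)
  have hd : |ph k x - ph k y| ≤ N1 k * ‖x - y‖ := ph_diff_le k x y
  have h3 : |a * Real.cos (ph k x) + b * Real.sin (ph k x)
      - (a * Real.cos (ph k y) + b * Real.sin (ph k y))| ≤ (|a| + |b|) * (N1 k * ‖x - y‖) := by
    have e : a * Real.cos (ph k x) + b * Real.sin (ph k x)
      - (a * Real.cos (ph k y) + b * Real.sin (ph k y))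
      = a * (Real.cos (ph k x) - Real.cos (ph k y)) + b * (Real.sin (ph k x) - Real.sin (ph k y)) := by
      ring
    rw [e, add_mul]
    refine (abs_add_le _ _).trans ?_
    rw [abs_mul, abs_mul]
    exact add_le_add (mul_le_mul_of_nonneg_left ((cos_lip _ _).trans hd) (abs_nonneg _))
      (mul_le_mul_of_nonneg_left ((sin_lip _ _).trans hd) (abs_nonneg _))
  have hN : 0 ≤ N1 k * ‖x - y‖ := mul_nonneg (N1_nonneg k) (norm_nonneg _)
  calc (volume Dom).toReal⁻¹ * |a * Real.cos (ph k x) + b * Real.sin (ph k x)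
      - (a * Real.cos (ph k y) + b * Real.sin (ph k y))|
      ≤ (volume Dom).toReal⁻¹ * ((|a| + |b|) * (N1 k * ‖x - y‖)) :=
        mul_le_mul_of_nonneg_left h3 hv
    _ = ((volume Dom).toReal⁻¹ * |a| + (volume Dom).toReal⁻¹ * |b|) * (N1 k * ‖x - y‖) := by ring
    _ ≤ (‖cf g k‖ + ‖cf g k‖) * (N1 k * ‖x - y‖) :=
        mul_le_mul_of_nonneg_right (add_le_add h1 h2) hN
    _ = _ := by ring

/-- Sum over the frequencies outside of a finite set. -/
lemma tail_bound {f : (Fin 3 → ℤ) → ℝ} {c : (Fin 3 → ℤ) → ℝ} (hc : Summable c) (s : Finset (Fin 3 → ℤ))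
    {S : ℝ} (hf : HasSum f S) (h : ∀ k, |f k| ≤ c k) :
    |S - ∑ k ∈ s, f k| ≤ ∑' k : {k // k ∉ s}, c k := by
  have h1 := hf.summable.sum_add_tsum_subtype_compl s
  rw [hf.tsum_eq] at h1
  have e : S - ∑ k ∈ s, f k = ∑' k : {k // k ∉ s}, f k := by linarith
  rw [e]
  have hcs : Summable (fun k : {k // k ∉ s} => c k) := hc.subtype _
  have := tsum_of_norm_bounded (f := fun k : {k // k ∉ s} => f k) hcs.hasSum fun k => h k
  simpa [Real.norm_eq_abs] using this

lemma exists_box {c : (Fin 3 → ℤ) → ℝ} (hc0 : ∀ k, 0 ≤ c k) (hc : Summable c) (K : ℕ) {η : ℝ} (hη : 0 < η) :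
    ∃ K', K ≤ K' ∧ ∑' k : {k // k ∉ Bx K'}, c k ≤ η := by
  have h1 := tendsto_tsum_compl_atTop_zero c
  obtain ⟨s, hs⟩ := ((h1.eventually (Iic_mem_nhds hη)).exists_forall_of_atTop)
  obtain ⟨K₁, hK₁⟩ : ∃ K₁ : ℕ, ∀ k ∈ s, ∀ i, |k i| ≤ K₁ := by
    refine ⟨∑ k ∈ s, ∑ i, (k i).natAbs, fun k hk i => ?_⟩
    have h2 : (k i).natAbs ≤ ∑ i, (k i).natAbs :=
      Finset.single_le_sum (f := fun i => (k i).natAbs) (fun _ _ => Nat.zero_le _)
        (Finset.mem_univ i)
    have h3 : ∑ i, (k i).natAbs ≤ ∑ k ∈ s, ∑ i, (k i).natAbs :=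
      Finset.single_le_sum (f := fun k : Fin 3 → ℤ => ∑ i, (k i).natAbs)
        (fun _ _ => Nat.zero_le _) hk
    rw [Int.abs_eq_natAbs]
    exact_mod_cast h2.trans h3
  refine ⟨max K K₁, le_max_left _ _, ?_⟩
  refine hs (Bx (max K K₁)) fun k hk => ?_
  rw [mem_Bx]
  intro i
  refine (hK₁ k hk i).trans ?_
  exact_mod_cast le_max_right K K₁

/-- **The tail of the Fourier series is small.** -/
theorem tail_small {M r : ℝ} (hM : 0 ≤ M)
    (hr : 1 ≤ r) {u₀ : V → V} (hp : Periodic3 u₀) (hc : Continuous u₀) {B : ℝ}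
    (hB : HB (Y302.Tri.cv u₀) B) (K : ℕ) {η : ℝ} (hη : 0 < η) :
    ∃ K', K ≤ K' ∧ ∀ i, SmallM M r η (fun x => u₀ x i - ∑ k ∈ Bx K', rt (fun x => u₀ x i) k x) ∧
      Bdc (fun x => u₀ x i - ∑ k ∈ Bx K', rt (fun x => u₀ x i) k x) := by
  set c : (Fin 3 → ℤ) → ℝ := fun k => ∑ i, (‖cf (fun x => u₀ x i) k‖ + N1 k * ‖cf (fun x => u₀ x i) k‖)
    with hcdef
  have hc0 : ∀ k, 0 ≤ c k := fun k => Finset.sum_nonneg fun i _ =>
    add_nonneg (norm_nonneg _) (mul_nonneg (N1_nonneg k) (norm_nonneg _))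
  have hs : Summable c := summable_sum fun i _ => (hB.s0 i).add (hB.s1 i)
  have hci : ∀ i k, ‖cf (fun x => u₀ x i) k‖ + N1 k * ‖cf (fun x => u₀ x i) k‖ ≤ c k := fun i k =>
    Finset.single_le_sum
      (f := fun i => ‖cf (fun x => u₀ x i) k‖ + N1 k * ‖cf (fun x => u₀ x i) k‖)
      (fun i _ => add_nonneg (norm_nonneg _) (mul_nonneg (N1_nonneg k) (norm_nonneg _)))
      (Finset.mem_univ i)
  set vol := (volume Dom).toReal with hvol
  have hvol0 : 0 ≤ vol := ENNReal.toReal_nonneg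
  set D := (M + vol) * 2 + 2 * (M * 2) with hD
  have hD0 : 0 ≤ D := by positivity
  obtain ⟨K', hKK', hK'⟩ := exists_box hc0 hs K (η := η / (D + 1)) (by positivity)
  set τ := ∑' k : {k // k ∉ Bx K'}, c k with hτ
  have hτ0 : 0 ≤ τ := tsum_nonneg fun k => hc0 k
  refine ⟨K', hKK', fun i => ?_⟩
  have hpi := comp_periodic hp i
  have hci' : Continuous (fun x => u₀ x i) := (continuous_apply i).comp hc
  have hsum := fun x => rt_hasSum hpi hci' (hB.s0 i) x
  have b1 : ∀ x, |u₀ x i - ∑ k ∈ Bx K', rt (fun x => u₀ x i) k x| ≤ 2 * τ := by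
    intro x
    refine (tail_bound (c := fun k => 2 * c k) (hs.mul_left 2) (Bx K') (hsum x) fun k => ?_).trans
      (le_of_eq ?_)
    · refine (rt_abs_le hpi hci' k x).trans ?_
      have h1 := hci i k
      have h2 := mul_nonneg (N1_nonneg k) (norm_nonneg (cf (fun x => u₀ x i) k))
      linarith
    · rw [tsum_mul_left]
  have b2 : ∀ x y, |(u₀ x i - ∑ k ∈ Bx K', rt (fun x => u₀ x i) k x)
      - (u₀ y i - ∑ k ∈ Bx K', rt (fun x => u₀ x i) k y)| ≤ 2 * τ * ‖x - y‖ := by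
    intro x y
    have e : (u₀ x i - ∑ k ∈ Bx K', rt (fun x => u₀ x i) k x)
      - (u₀ y i - ∑ k ∈ Bx K', rt (fun x => u₀ x i) k y)
      = (u₀ x i - u₀ y i) - ∑ k ∈ Bx K', (rt (fun x => u₀ x i) k x - rt (fun x => u₀ x i) k y) := by
      rw [Finset.sum_sub_distrib]; ring
    rw [e]
    refine (tail_bound (c := fun k => 2 * c k * ‖x - y‖) ((hs.mul_left 2).mul_right _) (Bx K')
      ((hsum x).sub (hsum y)) fun k => ?_).trans (le_of_eq ?_)
    · refine (rt_lip hpi hci' k x y).trans ?_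
      have h1 := hci i k
      have h2 := norm_nonneg (cf (fun x => u₀ x i) k)
      gcongr
      linarith
    · rw [tsum_mul_right, tsum_mul_left]
  have hcont : Continuous (fun x => u₀ x i - ∑ k ∈ Bx K', rt (fun x => u₀ x i) k x) := by
    refine hci'.sub (continuous_finsetSum _ fun k _ => ?_)
    unfold rt
    have := (ph_contDiff k).continuous
    fun_prop
  refine ⟨(smallM_of_lip hr hcont b1 (by positivity) b2).mono (by linarith) ?_,
    hcont, _, b1⟩
  calc (M + vol) * (2 * τ) + 2 * (M * (2 * τ)) = D * τ := by rw [hD]; ring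
    _ ≤ D * (η / (D + 1)) := by gcongr
    _ = D / (D + 1) * η := by ring
    _ ≤ 1 * η := by
        refine mul_le_mul_of_nonneg_right ?_ hη.le
        rw [div_le_one (by positivity)]
        linarith
    _ = η := one_mul η

end Pool.Agent.K3h70.EB
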